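import Pool.Agent.TH976.QC.Num
import Pool.Agent.TH966.CC.Two

/-!
Rectangles: charts at the corners (rotations which bring a corner to the origin), crossings of
annuli around boundary points, circuits.
-/

set_option autoImplicit false

namespace Pool.Agent.R966.RC
open Finset H974 Pool.Agent.H160R2.CV TH976 TH976.QC
open Pool.Agent.H160R2.CV.Quad

/-- composition of symmetries -/
def cmp (g h : LSym) : LSym where
  φ := g.φ.trans h.φ
  ψ := g.ψ.trans h.ψ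
  compat := by
    intro e
    simp only [Equiv.trans_apply]
    rcases g.compat e with ⟨h1, h2⟩ | ⟨h1, h2⟩ <;>
      rcases h.compat (g.φ e) with ⟨h3, h4⟩ | ⟨h3, h4⟩ <;> rw [h3, h4, h1, h2] <;> simp

theorem cmp_ψ (g h : LSym) (u : Vtx) : (cmp g h).ψ u = h.ψ (g.ψ u) := rfl

/-- a symmetry which maps the rectangle `[0, W] × [0, H]` to `[0, W'] × [0, H']` -/
structure Chart (W H W' H' : ℤ) where
  g : LSym
  iso : ∀ u v : Vtx, sd (g.ψ u) (g.ψ v) = sd u v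
  inr : ∀ u : Vtx, inR 0 W' 0 H' (g.ψ u) ↔ inR 0 W 0 H u

theorem Chart.img {W H W' H' : ℤ} (c : Chart W H W' H') :
    c.g.mp (RE 0 W 0 H) = RE 0 W' 0 H' := by
  ext e
  rw [LSym.mem_mp]
  have h := c.g.compat (c.g.φ.symm e)
  rw [Equiv.apply_symm_apply] at h
  have key : ∀ {a b c d : ℤ} (e : Edg), e ∈ RE a b c d ↔
      inR a b c d (src e) ∧ inR a b c d (tgt e) :=
    fun e => ⟨fun h => H731C.RE_ends h, fun h => H731C.RE_of_ends h.1 h.2⟩
  rw [key, key]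
  rcases h with ⟨h1, h2⟩ | ⟨h1, h2⟩
  · rw [h1, h2, c.inr, c.inr]
  · rw [h1, h2, c.inr, c.inr]
    exact and_comm

/-- the chart at the corner `(0, 0)` -/
def ch0 (W H : ℤ) : Chart W H W H where
  g := { φ := Equiv.refl _, ψ := Equiv.refl _, compat := fun e => Or.inl ⟨rfl, rfl⟩ }
  iso := fun _ _ => rfl
  inr := fun _ => Iff.rfl

/-- the chart at the corner `(W, 0)`: `(x, y) ↦ (y, W - x)` -/
def ch1 (W H : ℤ) : Chart W H H W where
  g := cmp tps (rfy W)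
  iso := by
    rintro ⟨a, b⟩ ⟨c, d⟩
    rw [cmp_ψ, cmp_ψ, tps_ψ, tps_ψ, rfy_ψ, rfy_ψ]
    unfold sd
    simp only
    omega
  inr := by
    rintro ⟨a, b⟩
    rw [cmp_ψ, tps_ψ, rfy_ψ]
    unfold inR
    simp only
    omega

/-- the chart at the corner `(W, H)`: `(x, y) ↦ (W - x, H - y)` -/
def ch2 (W H : ℤ) : Chart W H W H where
  g := cmp (rfx W) (rfy H)
  iso := by
    rintro ⟨a, b⟩ ⟨c, d⟩
    rw [cmp_ψ, cmp_ψ, rfx_ψ, rfx_ψ, rfy_ψ, rfy_ψ]
    unfold sd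
    simp only
    omega
  inr := by
    rintro ⟨a, b⟩
    rw [cmp_ψ, rfx_ψ, rfy_ψ]
    unfold inR
    simp only
    omega

/-- the chart at the corner `(0, H)`: `(x, y) ↦ (H - y, x)` -/
def ch3 (W H : ℤ) : Chart W H H W where
  g := cmp tps (rfx H)
  iso := by
    rintro ⟨a, b⟩ ⟨c, d⟩
    rw [cmp_ψ, cmp_ψ, tps_ψ, tps_ψ, rfx_ψ, rfx_ψ]
    unfold sd
    simp only
    omega
  inr := by
    rintro ⟨a, b⟩
    rw [cmp_ψ, tps_ψ, rfx_ψ]
    unfold inR
    simp only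
    omega

variable {W H W' H' W'' H'' : ℤ}

theorem Chart.inQ (c : Chart W H W' H') : InQ (c.g.mp (RE 0 W 0 H)) := by
  rw [c.img]
  rintro ⟨x, y, _ | _⟩ h
  · rw [mem_RE_false] at h; simp only; omega
  · rw [mem_RE_true] at h; simp only; omega

theorem Chart.inQF (c : Chart W H W' H') {F : Finset Edg} (hF : F ⊆ RE 0 W 0 H) :
    InQ (c.g.mp F) := InQ.mono (c.g.mp_mono hF) c.inQ

theorem Chart.pr (c : Chart W H W' H') (A : Finset Edg → Prop) :
    Pr P (RE 0 W' 0 H') A = Pr P (RE 0 W 0 H) (fun F => A (c.g.mp F)) := by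
  rw [← c.img]
  exact c.g.pr (1 / 2) (RE 0 W 0 H) A

theorem Chart.reach (c : Chart W H W' H') {F : Finset Edg} {u v : Vtx} :
    Reach (↑(c.g.mp F) : Set Edg) (c.g.ψ u) (c.g.ψ v) ↔ Reach (↑F) u v := by
  rw [LSym.coe_mp]
  exact c.g.reach_iff

theorem Chart.inV (c : Chart W H W' H') {u : Vtx} (h : inR 0 W 0 H u) : InV (c.g.ψ u) := by
  have := (c.inr u).mpr h
  unfold inR at this
  unfold InV
  omega

/-- a crossing of the annulus of radii `r`, `n` around `p` in the rectangle -/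
def CxR (W H : ℤ) (p : Vtx) (r n : ℕ) (F : Finset Edg) : Prop :=
  ∃ u v : Vtx, inR 0 W 0 H u ∧ sd u p ≤ r ∧ n ≤ sd v p ∧ Reach (↑F) u v

theorem CxR.chart {p : Vtx} {r n : ℕ} {F : Finset Edg} (h : CxR W H p r n F)
    (c : Chart W H W' H') : Cx (c.g.ψ p) r n (c.g.mp F) := by
  obtain ⟨u, v, h0, h1, h2, h3⟩ := h
  exact ⟨c.g.ψ u, c.g.ψ v, c.inV h0, by rw [c.iso]; exact h1, by rw [c.iso]; exact h2,
    c.reach.mpr h3⟩

/-- one annulus -/
theorem up_one (c : Chart W H W' H') (p : Vtx) {r n : ℕ} (hrn : r ≤ n) {A : Finset Edg → Prop}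
    (hA : ∀ F, F ⊆ RE 0 W 0 H → A F → CxR W H p r n F) :
    Pr P (RE 0 W 0 H) A ≤ bq (c.g.ψ p) r n := by
  refine le_trans (Pr_mono okP (B := fun F => Cx (c.g.ψ p) r n (c.g.mp F))
    fun F hF h => (hA F hF h).chart c) ?_
  rw [← c.pr]
  have := c.inQ
  rw [c.img] at this
  exact pr_Cx_le this _ hrn

/-- the localized event, in the chart -/
def LX (c : Chart W H W' H') (p : Vtx) (r n : ℕ) (F : Finset Edg) : Prop :=
  CxL (c.g.ψ p) r n (c.g.mp F)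

/-- the edges on which it depends -/
noncomputable def LS (c : Chart W H W' H') (p : Vtx) (r n : ℕ) : Finset Edg :=
  c.g.inv.mp (qb (c.g.ψ p) n \ qb (c.g.ψ p) r)

theorem mp_inv (g : LSym) (S : Finset Edg) : g.mp (g.inv.mp S) = S := by
  ext e
  rw [LSym.mem_mp, LSym.mem_mp]
  simp [LSym.inv]

theorem LX_inc (c : Chart W H W' H') (p : Vtx) (r n : ℕ) : IncA (LX c p r n) :=
  fun _ _ h hF => CxL_inc _ _ _ _ _ (c.g.mp_mono h) hF

theorem LX_loc (c : Chart W H W' H') (p : Vtx) (r n : ℕ) : LocE (LS c p r n) (LX c p r n) := by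
  intro F
  unfold LX LS
  rw [LSym.mp_inter, mp_inv]
  exact CxL_loc _ _ _ _

theorem pr_LX (c : Chart W H W' H') (p : Vtx) (r n : ℕ) :
    Pr P (LS c p r n) (LX c p r n) = bq (c.g.ψ p) r n := by
  have h : Pr P (c.g.mp (LS c p r n)) (CxL (c.g.ψ p) r n) =
      Pr P (LS c p r n) (fun F => CxL (c.g.ψ p) r n (c.g.mp F)) :=
    c.g.pr (1 / 2) (LS c p r n) _
  unfold LS at h ⊢
  rw [mp_inv, pr_CxL] at h
  exact h.symm

theorem LS_near (c : Chart W H W' H') {p : Vtx} {r n : ℕ} {e : Edg} (he : e ∈ LS c p r n) :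
    sd (src e) p ≤ n := by
  unfold LS at he
  rw [LSym.mem_mp] at he
  have h1 : c.g.φ e ∈ qb (c.g.ψ p) n := (Finset.mem_sdiff.mp he).1
  have h2 := qb_ends h1
  rcases c.g.compat e with ⟨h3, h4⟩ | ⟨h3, h4⟩
  · rw [h3] at h2
    rw [← c.iso]
    exact h2.1.2
  · rw [h4] at h2
    rw [← c.iso]
    exact h2.2.2

/-- two annuli -/
theorem up_two (c : Chart W H W' H') (c' : Chart W H W'' H'') {p p' : Vtx} {r n r' n' : ℕ}
    (hrn : r ≤ n) (hrn' : r' ≤ n') (hd : n + n' < sd p p') {A : Finset Edg → Prop}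
    (hA : ∀ F, F ⊆ RE 0 W 0 H → A F → CxR W H p r n F ∧ CxR W H p' r' n' F) :
    Pr P (RE 0 W 0 H) A ≤ bq (c.g.ψ p) r n * bq (c'.g.ψ p') r' n' := by
  have hdis : Disjoint (LS c p r n) (LS c' p' r' n') := by
    rw [Finset.disjoint_left]
    intro e h1 h2
    have h3 := LS_near c h1
    have h4 := LS_near c' h2
    have h5 := sd_tri p (src e) p'
    rw [sd_comm p (src e)] at h5
    omega
  have h1 := indep2 (RE 0 W 0 H) _ _ hdis (LX_inc c p r n) (LX_inc c' p' r' n')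
    (LX_loc c p r n) (LX_loc c' p' r' n')
  rw [pr_LX, pr_LX] at h1
  refine le_trans (Pr_mono okP ?_) h1
  intro F hF h
  obtain ⟨h2, h3⟩ := hA F hF h
  exact ⟨Cx_loc (c.inQF hF) hrn (h2.chart c), Cx_loc (c'.inQF hF) hrn' (h3.chart c')⟩

/-- the boundary interval `[a, b]` of the chart is connected to distance `n` from `p` -/
def IAR (c : Chart W H W' H') (a b : ℤ) (p : Vtx) (n : ℕ) (F : Finset Edg) : Prop :=
  ∃ (x : ℤ) (v : Vtx), (a ≤ x ∧ x ≤ b) ∧ n ≤ sd v p ∧ Reach (↑F) (c.g.ψ.symm (bt x)) v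

theorem IAR_of (c : Chart W H W' H') {a b : ℤ} {p : Vtx} {n : ℕ} {F : Finset Edg}
    (h : IAq a b (c.g.ψ p) n (c.g.mp F)) : IAR c a b p n F := by
  obtain ⟨x, v, h1, h2, h3⟩ := h
  refine ⟨x, c.g.ψ.symm v, h1, ?_, ?_⟩
  · rw [← c.iso, Equiv.apply_symm_apply]
    exact h2
  · rw [← c.reach (u := c.g.ψ.symm (bt x)) (v := c.g.ψ.symm v), Equiv.apply_symm_apply,
      Equiv.apply_symm_apply]
    exact h3

theorem IAR_incr (S : Finset Edg) (c : Chart W H W' H') (a b : ℤ) (p : Vtx) (n : ℕ) :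
    IncrE S (IAR c a b p n) := by
  rintro F G h _ ⟨x, y, h1, h2, h3⟩
  exact ⟨x, y, h1, h2, h3.mono (by exact_mod_cast h)⟩

/-- circuits around `p` in the chart -/
def CQR (c : Chart W H W' H') (p : Vtx) (n : ℕ) (F : Finset Edg) : Prop :=
  CQ (c.g.ψ p) n (c.g.mp F)

theorem CQR_incr (S : Finset Edg) (c : Chart W H W' H') (p : Vtx) (n : ℕ) :
    IncrE S (CQR c p n) := fun _ _ h _ hF => hF.mono (c.g.mp_mono h)

theorem CQR_meet (c : Chart W H W' H') {p : Vtx} (hp : inR 0 W 0 H p) {n : ℕ} (hn : 1 ≤ n)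
    {F : Finset Edg} (hF : F ⊆ RE 0 W 0 H) (h : CQR c p n F) :
    ∃ z : Vtx, ∀ u v : Vtx, inR 0 W 0 H u → sd u p ≤ n → 3 * n ≤ sd v p → Reach (↑F) u v →
      Reach (↑F) u z := by
  obtain ⟨z, hz⟩ := CQ_meet (c.inV hp) hn (c.inQF hF) h
  refine ⟨c.g.ψ.symm z, fun u v hu h1 h2 h3 => ?_⟩
  rw [← c.reach (u := u) (v := c.g.ψ.symm z), Equiv.apply_symm_apply]
  exact hz (c.g.ψ u) (c.g.ψ v) (c.inV hu) (by rw [c.iso]; exact h1) (by rw [c.iso]; exact h2)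
    (c.reach.mpr h3)

theorem pr_CQR (c : Chart W H W' H') {p : Vtx} (hp : inR 0 W 0 H p) {n : ℕ} (hn : 1 ≤ n)
    (hq : qb (c.g.ψ p) (3 * n) ⊆ RE 0 W' 0 H') : k4 ≤ Pr P (RE 0 W 0 H) (CQR c p n) := by
  have h := pr_CQ' (c.inV hp) hn hq
  rw [c.pr] at h
  exact h

theorem pr_IAR (c : Chart W H W' H') {a b : ℤ} {p : Vtx} {n : ℕ} {x : ℝ}
    (h : x ≤ Pr P (RE 0 W' 0 H') (IAq a b (c.g.ψ p) n)) :
    x ≤ Pr P (RE 0 W 0 H) (IAR c a b p n) := by
  rw [c.pr] at h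
  exact h.trans (Pr_mono okP fun F _ h1 => IAR_of c h1)

end Pool.Agent.R966.RC
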