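import Pool.Agent.R966.RC.Low3
import Pool.Agent.H160R2.SA.Arm
import Pool.Agent.Y989.SD.T_XR
import Pool.Agent.Y989.SD.T_CDY

/-!
Rectangles: the crossing probability between two boundary arcs and Cardy's formula.
-/

set_option autoImplicit false

namespace Pool.Agent.R966.RG

open Complex (I)
open Finset H974 Pool.Agent.H160R2.CV TH976 TH976.QC Pool.Agent.R966.RC
open Pool.Agent.H160R2.CV.Quad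

theorem lower0 (hA : Pool.Agent.H389R2.CD.ArS) {A B : ℝ} {f g : ℂ → ℂ} {c : ℂ}
    {p0 p1 p2 p3 : ℝ} (h : SC A B f g c p0 p1 p2 p3) (hi : Set.InjOn f disc) :
    ∃ c' ε0 : ℝ, 0 < c' ∧ 0 < ε0 ∧ ∀ ε θ1 θ2 θ3 θ4 : ℝ, 0 < ε → ε ≤ ε0 → θ1 < θ2 → θ2 < θ3 →
      θ3 < θ4 → c' * (ea (θ2 - θ1) (θ3 - θ2) * ea (θ4 - θ3) (θ3 - θ2)) ^ ((1 : ℝ) / 3) ≤
        Pr P (RE 0 ⌊A / ε⌋ 0 ⌊B / ε⌋) (EV A B f ε θ1 θ2 θ3 θ4) := by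
  obtain ⟨s, κ, K, m, hs, hs1, hκ, hK, hm, hmA, hmB, hwin, hfar⟩ := loc h hi
  obtain ⟨σ, hσ, hσs, hσm⟩ : ∃ σ : ℝ, 0 < σ ∧ σ ≤ s / 2 ∧ 2 * K * σ ≤ (m / 200) ^ 2 := by
    refine ⟨min (s / 2) ((m / 200) ^ 2 / (2 * K)), lt_min (by positivity) (by positivity),
      min_le_left _ _, ?_⟩
    have h1 : min (s / 2) ((m / 200) ^ 2 / (2 * K)) ≤ (m / 200) ^ 2 / (2 * K) := min_le_right _ _
    rw [le_div_iff₀ (by positivity)] at h1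
    linarith
  obtain ⟨c1, hc1, h1⟩ := low_loc hA (f := f) hκ hK hm hmA hmB hσ hσs hσm
  obtain ⟨c2, hc2, h2⟩ := low_mac hA (f := f) hκ hK hm hmA hmB hσ hσs hσm
  refine ⟨min c1 c2, m / 400, lt_min hc1 hc2, by positivity, ?_⟩
  intro ε θ1 θ2 θ3 θ4 hε hε0 t1 t2 t3
  have e0 : 0 ≤ (ea (θ2 - θ1) (θ3 - θ2) * ea (θ4 - θ3) (θ3 - θ2)) ^ ((1 : ℝ) / 3) := by
    have h1 : 0 < θ2 - θ1 := by linarith
    have h2 : 0 < θ3 - θ2 := by linarith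
    have h3 : 0 < θ4 - θ3 := by linarith
    unfold ea
    positivity
  obtain ⟨A', B', fk, τ, w⟩ := hwin θ2
  rcases le_total (θ3 - θ2) σ with hd | hd
  · refine le_trans (mul_le_mul_of_nonneg_right (min_le_left _ _) e0) ?_
    exact h1 ε θ1 θ2 θ3 θ4 A' B' fk τ w hε (by linarith) t1 t2 t3 hd
  · obtain ⟨A'', B'', fk', τ', w'⟩ := hwin θ3
    refine le_trans (mul_le_mul_of_nonneg_right (min_le_right _ _) e0) ?_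
    exact h2 ε θ1 θ2 θ3 θ4 A' B' A'' B'' fk fk' τ τ' w w' hε hε0 t1 t2 t3 hd

theorem EV_symm {A B : ℝ} {f : ℂ → ℂ} {ε θ1 θ2 θ3 θ4 : ℝ} {F : Finset Edg}
    (h : EV A B f ε θ3 θ4 (θ1 + 2 * Real.pi) (θ2 + 2 * Real.pi) F) :
    EV A B f ε θ1 θ2 θ3 θ4 F := by
  obtain ⟨u, v, hu, hv, hu2, ⟨θ, v1, v2, v3⟩, huv⟩ := h
  refine ⟨v, u, hv, hu, ⟨θ - 2 * Real.pi, by linarith, by linarith, ?_⟩, hu2, huv.symm⟩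
  rw [← cir_per, sub_add_cancel]
  exact v3

/-- **both bounds** -/
theorem bounds {A B : ℝ} {f g : ℂ → ℂ} {c : ℂ} {p0 p1 p2 p3 : ℝ}
    (h : SC A B f g c p0 p1 p2 p3) (hi : Set.InjOn f disc) :
    ∃ c C ε0 : ℝ, 0 < c ∧ 0 < C ∧ 0 < ε0 ∧ ∀ ε θ1 θ2 θ3 θ4 : ℝ, 0 < ε → ε ≤ ε0 → θ1 < θ2 →
      θ2 < θ3 → θ3 < θ4 → θ4 < θ1 + 2 * Real.pi →
      ε ≤ ‖f (cir θ2) - f (cir θ1)‖ → ε ≤ ‖f (cir θ4) - f (cir θ3)‖ →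
      c * Y989.SD.cardy (Y989.SD.xr θ1 θ2 θ3 θ4) ≤
        Pr P (RE 0 ⌊A / ε⌋ 0 ⌊B / ε⌋) (EV A B f ε θ1 θ2 θ3 θ4) ∧
      Pr P (RE 0 ⌊A / ε⌋ 0 ⌊B / ε⌋) (EV A B f ε θ1 θ2 θ3 θ4) ≤
        C * Y989.SD.cardy (Y989.SD.xr θ1 θ2 θ3 θ4) := by
  have hA := Pool.Agent.H160R2.SA.arSharp
  obtain ⟨c1, ε0, hc1, hε0, hL⟩ := lower0 hA h hi
  obtain ⟨C1, hC1, hU⟩ := upper hA h hi
  obtain ⟨c2, C2, hc2, hC2, hX⟩ := Y989.SD.XR.t_XR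
  obtain ⟨c3, C3, hc3, hC3, hD⟩ := Y989.SD.CDY.t_CDY
  have p2 : 0 < c2 ^ (1 / 3 : ℝ) := Real.rpow_pos_of_pos hc2 _
  have q2 : 0 < C2 ^ (1 / 3 : ℝ) := Real.rpow_pos_of_pos hC2 _
  refine ⟨c1 / (C2 ^ (1 / 3 : ℝ) * C3), C1 / (c2 ^ (1 / 3 : ℝ) * c3), ε0,
    by positivity, by positivity, hε0, ?_⟩
  intro ε θ1 θ2 θ3 θ4 hε hε' t1 t2 t3 t4 a1 a2
  have hu := hU ε θ1 θ2 θ3 θ4 hε t1 t2 t3 t4 a1 a2
  have hEE : ea (θ2 - θ1) (min (θ3 - θ2) (θ1 + 2 * Real.pi - θ4)) *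
      ea (θ4 - θ3) (min (θ3 - θ2) (θ1 + 2 * Real.pi - θ4)) = Y989.SD.EE θ1 θ2 θ3 θ4 := rfl
  have hl : c1 * Y989.SD.EE θ1 θ2 θ3 θ4 ^ ((1 : ℝ) / 3) ≤
      Pr P (RE 0 ⌊A / ε⌋ 0 ⌊B / ε⌋) (EV A B f ε θ1 θ2 θ3 θ4) := by
    rw [← hEE]
    rcases le_total (θ3 - θ2) (θ1 + 2 * Real.pi - θ4) with h1 | h1
    · rw [min_eq_left h1]
      exact hL ε θ1 θ2 θ3 θ4 hε hε' t1 t2 t3
    · rw [min_eq_right h1]
      have h2 := hL ε θ3 θ4 (θ1 + 2 * Real.pi) (θ2 + 2 * Real.pi) hε hε' t3 t4 (by linarith)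
      have h3 : Pr P (RE 0 ⌊A / ε⌋ 0 ⌊B / ε⌋)
          (EV A B f ε θ3 θ4 (θ1 + 2 * Real.pi) (θ2 + 2 * Real.pi)) ≤
          Pr P (RE 0 ⌊A / ε⌋ 0 ⌊B / ε⌋) (EV A B f ε θ1 θ2 θ3 θ4) :=
        Pr_mono okP fun F _ hF => EV_symm hF
      refine le_trans (le_of_eq ?_) (h2.trans h3)
      rw [add_sub_add_right_eq_sub, mul_comm (ea (θ2 - θ1) _)]
  rw [hEE] at hu
  obtain ⟨x0, x1, xl, xu⟩ := hX θ1 θ2 θ3 θ4 t1 t2 t3 t4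
  obtain ⟨dl, du⟩ := hD _ x0 x1
  set x := Y989.SD.xr θ1 θ2 θ3 θ4 with hx
  set E := Y989.SD.EE θ1 θ2 θ3 θ4 with hE
  have hE0 : 0 ≤ E := by
    by_contra hneg
    push Not at hneg
    have : C2 * E < 0 := mul_neg_of_pos_of_neg hC2 hneg
    linarith
  have r1 : c2 ^ (1 / 3 : ℝ) * E ^ (1 / 3 : ℝ) ≤ x ^ (1 / 3 : ℝ) := by
    rw [← Real.mul_rpow hc2.le hE0]
    exact Real.rpow_le_rpow (mul_nonneg hc2.le hE0) xl (by norm_num)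
  have r2 : x ^ (1 / 3 : ℝ) ≤ C2 ^ (1 / 3 : ℝ) * E ^ (1 / 3 : ℝ) := by
    rw [← Real.mul_rpow hC2.le hE0]
    exact Real.rpow_le_rpow x0.le xu (by norm_num)
  constructor
  · refine le_trans ?_ hl
    rw [div_mul_eq_mul_div, div_le_iff₀ (by positivity)]
    calc c1 * Y989.SD.cardy x ≤ c1 * (C3 * x ^ (1 / 3 : ℝ)) := mul_le_mul_of_nonneg_left du hc1.le
      _ ≤ c1 * (C3 * (C2 ^ (1 / 3 : ℝ) * E ^ (1 / 3 : ℝ))) := by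
          apply mul_le_mul_of_nonneg_left _ hc1.le
          exact mul_le_mul_of_nonneg_left r2 hC3.le
      _ = c1 * E ^ (1 / 3 : ℝ) * (C2 ^ (1 / 3 : ℝ) * C3) := by ring
  · refine hu.trans ?_
    rw [div_mul_eq_mul_div, le_div_iff₀ (by positivity)]
    calc C1 * E ^ (1 / 3 : ℝ) * (c2 ^ (1 / 3 : ℝ) * c3) =
          C1 * (c3 * (c2 ^ (1 / 3 : ℝ) * E ^ (1 / 3 : ℝ))) := by ring
      _ ≤ C1 * (c3 * x ^ (1 / 3 : ℝ)) := by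
          apply mul_le_mul_of_nonneg_left _ hC1.le
          exact mul_le_mul_of_nonneg_left r1 hc3.le
      _ ≤ C1 * Y989.SD.cardy x := mul_le_mul_of_nonneg_left dl hC1.le

end Pool.Agent.R966.RG
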