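import Mathlib

/-!
Schwarz-Christoffel maps onto rectangles: behaviour at the boundary.
-/

set_option autoImplicit false

namespace Pool.Agent.R966.RG

open Complex (I)

/-- one-dimensional estimate -/
theorem half {T T' : ℝ → ℝ} {b c1 C1 : ℝ} (hc : 0 < c1) (hC : 0 < C1)
    (h0 : T 0 = 0) (hcont : ContinuousOn T (Set.Icc 0 b))
    (hd : ∀ t ∈ Set.Ioo 0 b, HasDerivAt T (T' t) t)
    (hlo : ∀ t ∈ Set.Ioo 0 b, c1 / √t ≤ T' t) (hhi : ∀ t ∈ Set.Ioo 0 b, T' t ≤ C1 / √t)
    (s t : ℝ) (hs : 0 ≤ s) (hst : s ≤ t) (htb : t ≤ b) :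
    0 ≤ T s ∧ 4 * c1 ^ 2 * (t - s) ≤ T t ^ 2 - T s ^ 2 ∧
      T t ^ 2 - T s ^ 2 ≤ 4 * C1 ^ 2 * (t - s) := by
  have hint : interior (Set.Icc 0 b) = Set.Ioo 0 b := interior_Icc
  have hsd : ∀ k : ℝ, ∀ t ∈ Set.Ioo 0 b, HasDerivAt (fun t => 2 * k * √t) (k / √t) t := by
    intro k t ht
    have h1 := (Real.hasDerivAt_sqrt ht.1.ne').const_mul (2 * k)
    have h2 : 0 < √t := Real.sqrt_pos.mpr ht.1
    refine h1.congr_deriv ?_
    field_simp
  have hsc : ∀ k : ℝ, ContinuousOn (fun t => 2 * k * √t) (Set.Icc 0 b) :=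
    fun k => (continuous_const.mul Real.continuous_sqrt).continuousOn
  have m1 : MonotoneOn (fun t => T t - 2 * c1 * √t) (Set.Icc 0 b) := by
    apply monotoneOn_of_deriv_nonneg (convex_Icc 0 b) (hcont.sub (hsc c1))
    · rw [hint]
      intro t ht
      exact ((hd t ht).sub (hsd c1 t ht)).differentiableAt.differentiableWithinAt
    · rw [hint]
      intro t ht
      have h1 : deriv (fun t => T t - 2 * c1 * √t) t = T' t - c1 / √t :=
        ((hd t ht).sub (hsd c1 t ht)).deriv
      have h2 : 0 ≤ deriv (fun t => T t - 2 * c1 * √t) t := by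
        rw [h1]
        have := hlo t ht
        linarith
      exact h2
  have m2 : MonotoneOn (fun t => 2 * C1 * √t - T t) (Set.Icc 0 b) := by
    apply monotoneOn_of_deriv_nonneg (convex_Icc 0 b) ((hsc C1).sub hcont)
    · rw [hint]
      intro t ht
      exact ((hsd C1 t ht).sub (hd t ht)).differentiableAt.differentiableWithinAt
    · rw [hint]
      intro t ht
      have h1 : deriv (fun t => 2 * C1 * √t - T t) t = C1 / √t - T' t :=
        ((hsd C1 t ht).sub (hd t ht)).deriv
      have h2 : 0 ≤ deriv (fun t => 2 * C1 * √t - T t) t := by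
        rw [h1]
        have := hhi t ht
        linarith
      exact h2
  have lo : ∀ t ∈ Set.Icc 0 b, 2 * c1 * √t ≤ T t := by
    intro t ht
    have := m1 (Set.left_mem_Icc.mpr (ht.1.trans ht.2)) ht ht.1
    simp only [h0, Real.sqrt_zero, mul_zero, sub_zero] at this
    linarith
  have hi : ∀ t ∈ Set.Icc 0 b, T t ≤ 2 * C1 * √t := by
    intro t ht
    have := m2 (Set.left_mem_Icc.mpr (ht.1.trans ht.2)) ht ht.1
    simp only [h0, Real.sqrt_zero, mul_zero, sub_zero] at this
    linarith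
  have hb : 0 ≤ b := hs.trans (hst.trans htb)
  have s2 : s ∈ Set.Icc 0 b := ⟨hs, hst.trans htb⟩
  have t2 : t ∈ Set.Icc 0 b := ⟨hs.trans hst, htb⟩
  have dd : ∀ t ∈ Set.Ioo 0 b, HasDerivAt (fun t => T t ^ 2) (2 * T t * T' t) t := by
    intro t ht
    have h1 := (hd t ht).pow 2
    refine h1.congr_deriv ?_
    simp
  have dD : DifferentiableOn ℝ (fun t => T t ^ 2) (interior (Set.Icc 0 b)) := by
    rw [hint]
    intro t ht
    exact (dd t ht).differentiableAt.differentiableWithinAt
  have cT : ContinuousOn (fun t => T t ^ 2) (Set.Icc 0 b) := hcont.pow 2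
  refine ⟨?_, ?_, ?_⟩
  · have h1 := lo s s2
    have h2 := Real.sqrt_nonneg s
    have : 0 ≤ 2 * c1 * √s := by positivity
    linarith
  · apply (convex_Icc 0 b).mul_sub_le_image_sub_of_le_deriv cT dD _ s s2 t t2 hst
    rw [hint]
    intro t ht
    rw [(dd t ht).deriv]
    have h1 := lo t ⟨ht.1.le, ht.2.le⟩
    have h2 := hlo t ht
    have h3 : 0 < √t := Real.sqrt_pos.mpr ht.1
    have h4 : 0 < c1 / √t := by positivity
    calc 4 * c1 ^ 2 = 2 * (2 * c1 * √t) * (c1 / √t) := by field_simp; ring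
      _ ≤ 2 * T t * T' t := by
        apply mul_le_mul (by linarith) h2 h4.le
        have : 0 ≤ 2 * c1 * √t := by positivity
        linarith
  · apply (convex_Icc 0 b).image_sub_le_mul_sub_of_deriv_le cT dD _ s s2 t t2 hst
    rw [hint]
    intro t ht
    rw [(dd t ht).deriv]
    have h1 := hi t ⟨ht.1.le, ht.2.le⟩
    have h1' := lo t ⟨ht.1.le, ht.2.le⟩
    have h2 := hhi t ht
    have h2' := hlo t ht
    have h3 : 0 < √t := Real.sqrt_pos.mpr ht.1
    have h4 : 0 < c1 / √t := by positivity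
    calc 2 * T t * T' t ≤ 2 * (2 * C1 * √t) * (C1 / √t) := by
          apply mul_le_mul (by linarith) h2 (by linarith)
          positivity
      _ = 4 * C1 ^ 2 := by field_simp; ring

/-- a curve whose tangent has a constant direction, up to the sign -/
theorem side1 {a b A : ℝ} (hab : a < b) (hA : 0 < A) {G G' : ℝ → ℂ} {s : ℝ → ℝ} {w : ℂ}
    (hc : ContinuousOn G (Set.Icc a b)) (hd : ∀ t ∈ Set.Ioo a b, HasDerivAt G (G' t) t)
    (hs : ∀ t ∈ Set.Ioo a b, 0 < s t)
    (h2 : ∀ t ∈ Set.Ioo a b, G' t ^ 2 = w * (s t : ℂ) ^ 2) (hw : w ≠ 0)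
    (h0 : G a = 0) (h1 : G b = A) :
    ∃ Λ : ℝ, 0 < Λ ∧ w = (Λ : ℂ) ^ 2 ∧ (∀ t ∈ Set.Icc a b, (G t).im = 0) ∧
      ∀ t ∈ Set.Ioo a b, HasDerivAt (fun t => (G t).re) (Λ * s t) t := by
  obtain ⟨m, hm⟩ : ∃ m : ℂ, w = m ^ 2 := by
    obtain ⟨m, hm⟩ := IsAlgClosed.exists_pow_nat_eq w (n := 2) (by norm_num)
    exact ⟨m, hm.symm⟩
  have hm0 : m ≠ 0 := by
    rintro rfl
    apply hw
    rw [hm]
    simp
  -- the quotient
  have hq : ∀ t ∈ Set.Ioo a b, G' t / m = s t ∨ G' t / m = -(s t) := by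
    intro t ht
    have h3 : (G' t / m) ^ 2 = (s t : ℂ) ^ 2 := by
      rw [div_pow, h2 t ht, hm]
      field_simp
    exact sq_eq_sq_iff_eq_or_eq_neg.mp h3
  have cE : ContinuousOn (fun t => G t / m) (Set.Icc a b) := hc.div_const m
  have dE : ∀ t ∈ Set.Ioo a b, HasDerivAt (fun t => G t / m) (G' t / m) t :=
    fun t ht => (hd t ht).div_const m
  have cre : ContinuousOn (fun t => (G t / m).re) (Set.Icc a b) :=
    Complex.continuous_re.comp_continuousOn cE
  have cim : ContinuousOn (fun t => (G t / m).im) (Set.Icc a b) :=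
    Complex.continuous_im.comp_continuousOn cE
  have dre : ∀ t ∈ Set.Ioo a b, HasDerivAt (fun t => (G t / m).re) (G' t / m).re t :=
    fun t ht => Complex.reCLM.hasFDerivAt.comp_hasDerivAt t (dE t ht)
  have dim : ∀ t ∈ Set.Ioo a b, HasDerivAt (fun t => (G t / m).im) (G' t / m).im t :=
    fun t ht => Complex.imCLM.hasFDerivAt.comp_hasDerivAt t (dE t ht)
  have him0 : ∀ t ∈ Set.Ioo a b, (G' t / m).im = 0 := by
    intro t ht
    rcases hq t ht with h | h <;> rw [h] <;> simp
  have hre0 : ∀ t ∈ Set.Ioo a b, (G' t / m).re ≠ 0 := by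
    intro t ht
    have := hs t ht
    rcases hq t ht with h | h <;> rw [h] <;> simp <;> linarith
  have haI : a ∈ Set.Icc a b := Set.left_mem_Icc.mpr hab.le
  have hbI : b ∈ Set.Icc a b := Set.right_mem_Icc.mpr hab.le
  have hint : interior (Set.Icc a b) = Set.Ioo a b := interior_Icc
  have him : ∀ t ∈ Set.Icc a b, (G t / m).im = 0 := by
    intro t ht
    have d1 : DifferentiableOn ℝ (fun t => (G t / m).im) (interior (Set.Icc a b)) := by
      rw [hint]
      intro t ht
      exact (dim t ht).differentiableAt.differentiableWithinAt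
    have e1 := (convex_Icc a b).image_sub_le_mul_sub_of_deriv_le (C := 0) cim d1
      (by rw [hint]; intro t ht; rw [(dim t ht).deriv, him0 t ht]) a haI t ht ht.1
    have e2 := (convex_Icc a b).mul_sub_le_image_sub_of_le_deriv (C := 0) cim d1
      (by rw [hint]; intro t ht; rw [(dim t ht).deriv, him0 t ht]) a haI t ht ht.1
    simp only [h0, zero_div, Complex.zero_im, sub_zero, zero_mul] at e1 e2
    linarith
  have hsgn : (∀ t ∈ Set.Ioo a b, (G' t / m).re < 0) ∨ ∀ t ∈ Set.Ioo a b, 0 < (G' t / m).re :=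
    hasDerivWithinAt_forall_lt_or_forall_gt_of_forall_ne (convex_Ioo a b)
      (fun t ht => (dre t ht).hasDerivWithinAt) hre0
  have hAm : ((A : ℂ) / m).im = 0 := by
    have := him b hbI
    rwa [h1] at this
  -- m is real
  obtain ⟨x, hx⟩ : ∃ x : ℝ, (A : ℂ) / m = x := ⟨((A : ℂ) / m).re, by
    apply Complex.ext <;> simp [hAm]⟩
  have hx0 : x ≠ 0 := by
    rintro rfl
    have : (A : ℂ) / m ≠ 0 := div_ne_zero (by exact_mod_cast hA.ne') hm0
    exact this (by rw [hx]; simp)
  have hmx : m = ((A / x : ℝ) : ℂ) := by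
    have hx' : (x : ℂ) ≠ 0 := by exact_mod_cast hx0
    rw [div_eq_iff hm0] at hx
    push_cast
    rw [eq_div_iff hx', mul_comm, ← hx]
  have hGre : ∀ t ∈ Set.Icc a b, G t = (((A / x) * (G t / m).re : ℝ) : ℂ) := by
    intro t ht
    have h3 : G t / m = (((G t / m).re : ℝ) : ℂ) := by
      apply Complex.ext <;> simp [him t ht]
    calc G t = m * (G t / m) := by field_simp
      _ = m * (((G t / m).re : ℝ) : ℂ) := by rw [← h3]
      _ = _ := by
        push_cast
        rw [hmx]
        push_cast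
        ring
  have dG : ∀ t ∈ Set.Ioo a b, HasDerivAt (fun t => (G t).re) (A / x * (G' t / m).re) t := by
    intro t ht
    have h3 : HasDerivAt (fun t => (G t).re) (G' t).re t :=
      Complex.reCLM.hasFDerivAt.comp_hasDerivAt t (hd t ht)
    refine h3.congr_deriv ?_
    have h4 : G' t = m * (G' t / m) := by field_simp
    have h5 : (G' t).re = (m * (G' t / m)).re := congrArg _ h4
    rw [h5, hmx, Complex.re_ofReal_mul]
  have hxre : (G b / m).re = x := by
    rw [h1, hx]
    simp
  have hxa : (G a / m).re = 0 := by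
    rw [h0]
    simp
  have dr : DifferentiableOn ℝ (fun t => (G t / m).re) (interior (Set.Icc a b)) := by
    rw [hint]
    intro t ht
    exact (dre t ht).differentiableAt.differentiableWithinAt
  refine ⟨|A / x|, abs_pos.mpr (div_ne_zero hA.ne' hx0), ?_, ?_, ?_⟩
  · rw [hm, hmx]
    norm_cast
    rw [sq_abs]
  · intro t ht
    rw [hGre t ht, Complex.ofReal_im]
  · intro t ht
    have h3 := dG t ht
    refine h3.congr_deriv ?_
    rcases hsgn with h | h
    · have hm1 : StrictAntiOn (fun t => (G t / m).re) (Set.Icc a b) := by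
        apply strictAntiOn_of_deriv_neg (convex_Icc a b) cre
        rw [hint]
        intro t ht
        rw [(dre t ht).deriv]
        exact h t ht
      have h4 := hm1 haI hbI hab
      simp only [hxre, hxa] at h4
      have h5 : (G' t / m).re = -(s t) := by
        rcases hq t ht with h6 | h6
        · exfalso
          have h7 := h t ht
          rw [h6] at h7
          simp at h7
          have := hs t ht
          linarith
        · rw [h6]
          simp
      have h8 : A / x < 0 := div_neg_of_pos_of_neg hA h4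
      rw [h5, abs_of_neg h8]
      ring
    · have hm1 : StrictMonoOn (fun t => (G t / m).re) (Set.Icc a b) := by
        apply strictMonoOn_of_deriv_pos (convex_Icc a b) cre
        rw [hint]
        intro t ht
        rw [(dre t ht).deriv]
        exact h t ht
      have h4 := hm1 haI hbI hab
      simp only [hxre, hxa] at h4
      have h5 : (G' t / m).re = s t := by
        rcases hq t ht with h6 | h6
        · rw [h6]
          simp
        · exfalso
          have h7 := h t ht
          rw [h6] at h7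
          simp at h7
          have := hs t ht
          linarith
      have h8 : 0 < A / x := div_pos hA h4
      rw [h5, abs_of_pos h8]

/-- The closed unit disc. -/
def disc : Set ℂ := Metric.closedBall 0 1

/-- The point of the unit circle of argument `θ`. -/
noncomputable def cir (θ : ℝ) : ℂ := Complex.exp (θ * Complex.I)

theorem cir_mem (θ : ℝ) : cir θ ∈ disc := by
  unfold cir disc
  rw [mem_closedBall_zero_iff, Complex.norm_exp_ofReal_mul_I]

theorem cir_add (a b : ℝ) : cir (a + b) = cir a * cir b := by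
  unfold cir
  rw [← Complex.exp_add]
  congr 1
  push_cast
  ring

theorem cir_ne (a : ℝ) : cir a ≠ 0 := Complex.exp_ne_zero _

theorem cir_per (θ : ℝ) : cir (θ + 2 * Real.pi) = cir θ := by
  rw [cir_add]
  have : cir (2 * Real.pi) = 1 := by
    unfold cir
    push_cast
    exact Complex.exp_two_pi_mul_I
  rw [this, mul_one]

theorem cir_cont : Continuous cir := by
  unfold cir
  fun_prop

theorem cir_der (θ : ℝ) : HasDerivAt cir (cir θ * I) θ := by
  have h1 : HasDerivAt (fun t : ℝ => (t : ℂ) * I) (1 * I) θ :=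
    (Complex.ofRealCLM.hasDerivAt (x := θ)).mul_const I
  have h2 := h1.cexp
  rw [one_mul] at h2
  exact h2

theorem cir_sub (a b : ℝ) :
    cir a - cir b = cir ((a + b) / 2) * (2 * I * (Real.sin ((a - b) / 2) : ℝ)) := by
  have e1 : cir a = cir ((a + b) / 2) * cir ((a - b) / 2) := by
    rw [← cir_add]
    congr 1
    ring
  have e2 : cir b = cir ((a + b) / 2) * cir (-((a - b) / 2)) := by
    rw [← cir_add]
    congr 1
    ring
  have e3 : cir ((a - b) / 2) - cir (-((a - b) / 2)) = 2 * I * (Real.sin ((a - b) / 2) : ℝ) := by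
    unfold cir
    rw [Complex.exp_mul_I, Complex.exp_mul_I]
    push_cast
    rw [Complex.cos_neg, Complex.sin_neg]
    ring
  rw [← e3, mul_sub, ← e1, ← e2]

/-- `f` is a Schwarz-Christoffel map of the disc onto the rectangle `[0, A] × [0, B]`, the corners
`0, A, A + i B, i B` are the images of the points of argument `p0 < p1 < p2 < p3`. -/
structure SC (A B : ℝ) (f g : ℂ → ℂ) (c : ℂ) (p0 p1 p2 p3 : ℝ) : Prop where
  hA : 0 < A
  hB : 0 < B
  h01 : p0 < p1
  h12 : p1 < p2
  h23 : p2 < p3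
  h30 : p3 < p0 + 2 * Real.pi
  c0 : c ≠ 0
  cont : ContinuousOn f disc
  der : ∀ z ∈ disc, z ≠ cir p0 → z ≠ cir p1 → z ≠ cir p2 → z ≠ cir p3 →
    HasDerivWithinAt f (g z) disc z ∧
      g z ^ 2 * ((z - cir p0) * (z - cir p1) * (z - cir p2) * (z - cir p3)) = c
  v0 : f (cir p0) = 0
  v1 : f (cir p1) = A
  v2 : f (cir p2) = A + B * I
  v3 : f (cir p3) = B * I

theorem SC.rot {A B : ℝ} {f g : ℂ → ℂ} {c : ℂ} {p0 p1 p2 p3 : ℝ} (h : SC A B f g c p0 p1 p2 p3) :
    SC B A (fun z => -I * f z + A * I) (fun z => -I * g z) (-c) p1 p2 p3 (p0 + 2 * Real.pi) where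
  hA := h.hB
  hB := h.hA
  h01 := h.h12
  h12 := h.h23
  h23 := h.h30
  h30 := by have := h.h01; linarith
  c0 := neg_ne_zero.mpr h.c0
  cont := (continuousOn_const.mul h.cont).add continuousOn_const
  der := by
    intro z hz z1 z2 z3 z0
    rw [cir_per] at z0 ⊢
    obtain ⟨h1, h2⟩ := h.der z hz z0 z1 z2 z3
    refine ⟨(h1.const_mul (-I)).add_const _, ?_⟩
    have e : (-I * g z) ^ 2 * ((z - cir p1) * (z - cir p2) * (z - cir p3) * (z - cir p0)) =
        I ^ 2 * (g z ^ 2 * ((z - cir p0) * (z - cir p1) * (z - cir p2) * (z - cir p3))) := by ring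
    rw [e, h2, Complex.I_sq]
    ring
  v0 := by
    simp only [h.v1]
    ring
  v1 := by
    simp only [h.v2]
    have := Complex.I_sq
    linear_combination (-(B : ℂ)) * this
  v2 := by
    simp only [h.v3]
    have := Complex.I_sq
    linear_combination (-(B : ℂ)) * this
  v3 := by
    simp only [cir_per, h.v0]
    ring

/-- the product of the sines -/
noncomputable def qs (p0 p1 p2 p3 t : ℝ) : ℝ :=
  Real.sin ((t - p0) / 2) * Real.sin ((t - p1) / 2) * Real.sin ((t - p2) / 2) *
    Real.sin ((t - p3) / 2)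

theorem sin_neg_of {y : ℝ} (h1 : -(2 * Real.pi) < y) (h2 : y < 0) : Real.sin (y / 2) < 0 :=
  Real.sin_neg_of_neg_of_neg_pi_lt (by linarith) (by linarith)

theorem sin_pos_of {y : ℝ} (h1 : 0 < y) (h2 : y < 2 * Real.pi) : 0 < Real.sin (y / 2) :=
  Real.sin_pos_of_pos_of_lt_pi (by linarith) (by linarith)

section corner
variable {A B : ℝ} {f g : ℂ → ℂ} {c : ℂ} {p0 p1 p2 p3 : ℝ}

theorem SC.ord (h : SC A B f g c p0 p1 p2 p3) :
    p0 < p1 ∧ p1 < p2 ∧ p2 < p3 ∧ p3 < p0 + 2 * Real.pi := ⟨h.h01, h.h12, h.h23, h.h30⟩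

theorem qs_neg (h : SC A B f g c p0 p1 p2 p3) {t : ℝ} (h1 : p0 < t) (h2 : t < p1) :
    qs p0 p1 p2 p3 t < 0 := by
  obtain ⟨o1, o2, o3, o4⟩ := h.ord
  have a0 := sin_pos_of (y := t - p0) (by linarith) (by linarith)
  have a1 := sin_neg_of (y := t - p1) (by linarith) (by linarith)
  have a2 := sin_neg_of (y := t - p2) (by linarith) (by linarith)
  have a3 := sin_neg_of (y := t - p3) (by linarith) (by linarith)
  unfold qs
  exact mul_neg_of_pos_of_neg (mul_pos_of_neg_of_neg (mul_neg_of_pos_of_neg a0 a1) a2) a3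

theorem qs_pos (h : SC A B f g c p0 p1 p2 p3) {t : ℝ} (h1 : p3 - 2 * Real.pi < t) (h2 : t < p0) :
    0 < qs p0 p1 p2 p3 t := by
  obtain ⟨o1, o2, o3, o4⟩ := h.ord
  have a0 := sin_neg_of (y := t - p0) (by linarith) (by linarith)
  have a1 := sin_neg_of (y := t - p1) (by linarith) (by linarith)
  have a2 := sin_neg_of (y := t - p2) (by linarith) (by linarith)
  have a3 := sin_neg_of (y := t - p3) (by linarith) (by linarith)
  unfold qs
  exact mul_pos_of_neg_of_neg (mul_neg_of_pos_of_neg (mul_pos_of_neg_of_neg a0 a1) a2) a3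

theorem cir_ne_of {a b : ℝ} (h1 : 0 < |a - b|) (h2 : |a - b| < 2 * Real.pi) :
    cir a ≠ cir b := by
  intro h
  have h3 := cir_sub a b
  rw [h, sub_self] at h3
  have h4 : Real.sin ((a - b) / 2) ≠ 0 := by
    rcases lt_or_gt_of_ne (abs_pos.mp h1) with h5 | h5
    · exact (sin_neg_of (by rw [abs_of_neg h5] at h2; linarith) h5).ne
    · exact (sin_pos_of h5 (by rwa [abs_of_pos h5] at h2)).ne'
  have h5 : cir ((a + b) / 2) * (2 * I * (Real.sin ((a - b) / 2) : ℝ)) ≠ 0 :=
    mul_ne_zero (cir_ne _) (mul_ne_zero (mul_ne_zero (by norm_num) Complex.I_ne_zero)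
      (by exact_mod_cast h4))
  exact h5 h3.symm

/-- the constant -/
noncomputable def lam (c : ℂ) (p0 p1 p2 p3 : ℝ) : ℂ :=
  -c / (16 * cir ((p0 + p1 + p2 + p3) / 2))

theorem lam_ne (h : SC A B f g c p0 p1 p2 p3) : lam c p0 p1 p2 p3 ≠ 0 :=
  div_ne_zero (neg_ne_zero.mpr h.c0) (mul_ne_zero (by norm_num) (cir_ne _))

theorem SC.der' (h : SC A B f g c p0 p1 p2 p3) {t : ℝ} (h0 : cir t ≠ cir p0)
    (h1 : cir t ≠ cir p1) (h2 : cir t ≠ cir p2) (h3 : cir t ≠ cir p3) :
    HasDerivAt (fun t => f (cir t)) (g (cir t) * (cir t * I)) t ∧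
      (g (cir t) * (cir t * I)) ^ 2 * (qs p0 p1 p2 p3 t : ℝ) = lam c p0 p1 p2 p3 := by
  obtain ⟨d1, d2⟩ := h.der (cir t) (cir_mem t) h0 h1 h2 h3
  constructor
  · have e1 : HasDerivWithinAt (fun t => f (cir t)) (g (cir t) * (cir t * I)) Set.univ t := by
      have := (d1.hasFDerivWithinAt.restrictScalars ℝ).comp_hasDerivWithinAt t
        (cir_der t).hasDerivWithinAt (s := Set.univ) (fun x _ => cir_mem x)
      refine this.congr_deriv ?_
      simp [mul_comm]
    exact e1.hasDerivAt Filter.univ_mem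
  · rw [cir_sub, cir_sub, cir_sub, cir_sub] at d2
    have e1 : cir ((t + p0) / 2) * cir ((t + p1) / 2) * cir ((t + p2) / 2) * cir ((t + p3) / 2) =
        cir t ^ 2 * cir ((p0 + p1 + p2 + p3) / 2) := by
      rw [pow_two, ← cir_add, ← cir_add, ← cir_add, ← cir_add, ← cir_add]
      congr 1
      ring
    have e2 : g (cir t) ^ 2 * (cir ((t + p0) / 2) * cir ((t + p1) / 2) * cir ((t + p2) / 2) *
        cir ((t + p3) / 2)) * (16 * (qs p0 p1 p2 p3 t : ℝ)) = c := by
      rw [← d2]
      unfold qs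
      push_cast
      have : I ^ 4 = 1 := Complex.I_pow_four
      linear_combination (-(16 * g (cir t) ^ 2 * (cir ((t + p0) / 2) * cir ((t + p1) / 2) *
        cir ((t + p2) / 2) * cir ((t + p3) / 2)) * (Complex.sin ((t - p0) / 2) *
        Complex.sin ((t - p1) / 2) * Complex.sin ((t - p2) / 2) * Complex.sin ((t - p3) / 2)))) *
        this
    rw [e1] at e2
    unfold lam
    rw [eq_div_iff (mul_ne_zero (by norm_num) (cir_ne _)), ← e2]
    have := Complex.I_sq
    linear_combination (16 * g (cir t) ^ 2 * cir t ^ 2 * (qs p0 p1 p2 p3 t : ℝ) *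
      cir ((p0 + p1 + p2 + p3) / 2)) * this

end corner

end Pool.Agent.R966.RG
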