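import Pool.Agent.R966.RC.Geo

/-!
Schwarz-Christoffel maps onto rectangles: the boundary near a corner.
-/

set_option autoImplicit false

namespace Pool.Agent.R966.RG

open Complex (I)

/-- the boundary coordinate near the first corner -/
noncomputable def tau (f : ℂ → ℂ) (t : ℝ) : ℝ := (f (cir t)).re - (f (cir t)).im

/-- signed square -/
noncomputable def sqr (x : ℝ) : ℝ := x * |x|

/-- the boundary of the quadrant -/
noncomputable def ft (x : ℝ) : ℂ := ⟨max x 0, max (-x) 0⟩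

theorem ft_le (x y : ℝ) : ‖ft x - ft y‖ ≤ |x - y| := by
  refine (Complex.norm_le_abs_re_add_abs_im _).trans ?_
  unfold ft
  simp only [Complex.sub_re, Complex.sub_im]
  rcases le_total x 0 with h1 | h1 <;> rcases le_total y 0 with h2 | h2
  · rw [max_eq_right h1, max_eq_right h2, max_eq_left (by linarith), max_eq_left (by linarith),
      sub_self, abs_zero, zero_add, ← abs_neg]
    exact le_of_eq (congrArg _ (by ring))
  · rw [max_eq_right h1, max_eq_left h2, max_eq_left (by linarith), max_eq_right (by linarith),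
      abs_of_nonpos (by linarith : 0 - y ≤ 0), abs_of_nonneg (by linarith : 0 ≤ -x - 0),
      abs_of_nonpos (by linarith : x - y ≤ 0)]
    linarith
  · rw [max_eq_left h1, max_eq_right h2, max_eq_right (by linarith), max_eq_left (by linarith),
      abs_of_nonneg (by linarith : 0 ≤ x - 0), abs_of_nonpos (by linarith : 0 - -y ≤ 0),
      abs_of_nonneg (by linarith : 0 ≤ x - y)]
    linarith
  · rw [max_eq_left h1, max_eq_left h2, max_eq_right (by linarith), max_eq_right (by linarith),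
      sub_self, abs_zero, add_zero]

theorem le_ft (x y : ℝ) : |x - y| ≤ 2 * ‖ft x - ft y‖ := by
  have h1 := Complex.abs_re_le_norm (ft x - ft y)
  have h2 := Complex.abs_im_le_norm (ft x - ft y)
  have h3 : |x - y| ≤ |(ft x - ft y).re| + |(ft x - ft y).im| := by
    have : x - y = (ft x - ft y).re - (ft x - ft y).im := by
      unfold ft
      simp only [Complex.sub_re, Complex.sub_im]
      have e : ∀ z : ℝ, max z 0 - max (-z) 0 = z := by
        intro z
        rcases le_total z 0 with h | h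
        · rw [max_eq_right h, max_eq_left (by linarith)]; ring
        · rw [max_eq_left h, max_eq_right (by linarith)]; ring
      have := e x
      have := e y
      linarith
    rw [this]
    exact abs_sub _ _
  linarith

theorem sin_bd {x : ℝ} (h0 : 0 ≤ x) (h1 : x ≤ Real.pi) :
    2 / Real.pi * min x (Real.pi - x) ≤ Real.sin x := by
  rcases le_total x (Real.pi / 2) with h | h
  · rw [min_eq_left (by linarith)]
    exact Real.mul_le_sin h0 h
  · rw [min_eq_right (by linarith), ← Real.sin_pi_sub x]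
    exact Real.mul_le_sin (by linarith) (by linarith)

theorem abs_sin_bd {y s : ℝ} (hs : 0 < s) (h1 : |y| ≤ 2 * Real.pi - s) :
    s / (2 * Real.pi ^ 2) * |y| ≤ |Real.sin (y / 2)| := by
  have hpi := Real.pi_pos
  have e : |Real.sin (y / 2)| = Real.sin (|y| / 2) := by
    rcases le_total 0 y with h | h
    · rw [abs_of_nonneg h, abs_of_nonneg]
      exact Real.sin_nonneg_of_nonneg_of_le_pi (by linarith) (by
        rw [abs_of_nonneg h] at h1; linarith)
    · rw [abs_of_nonpos h, abs_of_nonpos, ← Real.sin_neg]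
      · congr 1; ring
      · exact Real.sin_nonpos_of_nonpos_of_neg_pi_le (by linarith) (by
          rw [abs_of_nonpos h] at h1; linarith)
  rw [e]
  have h0 := abs_nonneg y
  refine le_trans ?_ (sin_bd (by linarith) (by linarith))
  have h2 : s * |y| / (4 * Real.pi) ≤ min (|y| / 2) (Real.pi - |y| / 2) := by
    apply le_min
    · rw [div_le_div_iff₀ (by positivity) (by norm_num)]
      nlinarith
    · have h3 : s * |y| / (4 * Real.pi) ≤ s / 2 := by
        rw [div_le_div_iff₀ (by positivity) (by norm_num)]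
        nlinarith
      linarith
  calc s / (2 * Real.pi ^ 2) * |y| = 2 / Real.pi * (s * |y| / (4 * Real.pi)) := by
        field_simp; ring
    _ ≤ _ := mul_le_mul_of_nonneg_left h2 (by positivity)

section corner
variable {A B : ℝ} {f g : ℂ → ℂ} {c : ℂ} {p0 p1 p2 p3 : ℝ}

theorem SC.fc (h : SC A B f g c p0 p1 p2 p3) : Continuous (fun t => f (cir t)) :=
  h.cont.comp_continuous cir_cont cir_mem

theorem SC.tauc (h : SC A B f g c p0 p1 p2 p3) : Continuous (tau f) :=
  (Complex.continuous_re.comp h.fc).sub (Complex.continuous_im.comp h.fc)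

/-- the boundary near the first corner -/
theorem corner (h : SC A B f g c p0 p1 p2 p3) : ∃ Λ : ℝ, 0 < Λ ∧
    (∀ t ∈ Set.Icc p0 p1, (f (cir t)).im = 0) ∧
    (∀ t ∈ Set.Icc (p3 - 2 * Real.pi) p0, (f (cir t)).re = 0) ∧
    (∀ t ∈ Set.Ioo p0 p1, HasDerivAt (tau f) (Λ / √|qs p0 p1 p2 p3 t|) t) ∧
    ∀ t ∈ Set.Ioo (p3 - 2 * Real.pi) p0, HasDerivAt (tau f) (Λ / √|qs p0 p1 p2 p3 t|) t := by
  obtain ⟨o1, o2, o3, o4⟩ := h.ord
  have hne1 : ∀ t ∈ Set.Ioo p0 p1, HasDerivAt (fun t => f (cir t)) (g (cir t) * (cir t * I)) t ∧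
      (g (cir t) * (cir t * I)) ^ 2 * (qs p0 p1 p2 p3 t : ℝ) = lam c p0 p1 p2 p3 := by
    intro t ht
    apply h.der' <;> apply cir_ne_of
    · rw [abs_of_pos (by linarith [ht.1])]; linarith [ht.1]
    · rw [abs_of_pos (by linarith [ht.1])]; linarith [ht.2]
    · rw [abs_of_neg (by linarith [ht.2])]; linarith [ht.2]
    · rw [abs_of_neg (by linarith [ht.2])]; linarith [ht.1]
    · rw [abs_of_neg (by linarith [ht.2])]; linarith [ht.2]
    · rw [abs_of_neg (by linarith [ht.2])]; linarith [ht.1]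
    · rw [abs_of_neg (by linarith [ht.2])]; linarith [ht.2]
    · rw [abs_of_neg (by linarith [ht.2])]; linarith [ht.1]
  have hne2 : ∀ t ∈ Set.Ioo (p3 - 2 * Real.pi) p0,
      HasDerivAt (fun t => f (cir t)) (g (cir t) * (cir t * I)) t ∧
      (g (cir t) * (cir t * I)) ^ 2 * (qs p0 p1 p2 p3 t : ℝ) = lam c p0 p1 p2 p3 := by
    intro t ht
    apply h.der' <;> apply cir_ne_of
    · rw [abs_of_neg (by linarith [ht.2])]; linarith [ht.2]
    · rw [abs_of_neg (by linarith [ht.2])]; linarith [ht.1]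
    · rw [abs_of_neg (by linarith [ht.2])]; linarith [ht.2]
    · rw [abs_of_neg (by linarith [ht.2])]; linarith [ht.1]
    · rw [abs_of_neg (by linarith [ht.2])]; linarith [ht.2]
    · rw [abs_of_neg (by linarith [ht.2])]; linarith [ht.1]
    · rw [abs_of_neg (by linarith [ht.2])]; linarith [ht.2]
    · rw [abs_of_neg (by linarith [ht.2])]; linarith [ht.1]
  have hl := lam_ne h
  have sq_s : ∀ q : ℝ, q ≠ 0 → (((1 / √|q| : ℝ)) : ℂ) ^ 2 = 1 / ((|q| : ℝ) : ℂ) := by
    intro q hq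
    have h1 : (1 / √|q|) ^ 2 = 1 / |q| := by
      rw [div_pow, one_pow, Real.sq_sqrt (abs_nonneg q)]
    rw [← Complex.ofReal_pow, h1]
    push_cast
    rfl
  have s_pos : ∀ q : ℝ, q ≠ 0 → 0 < 1 / √|q| := fun q hq =>
    one_div_pos.mpr (Real.sqrt_pos.mpr (abs_pos.mpr hq))
  obtain ⟨Λ, hΛ, hw, him, hre⟩ := side1 o1 h.hA (G := fun t => f (cir t))
    (G' := fun t => g (cir t) * (cir t * I)) (s := fun t => 1 / √|qs p0 p1 p2 p3 t|)
    (w := -lam c p0 p1 p2 p3) h.fc.continuousOn (fun t ht => (hne1 t ht).1)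
    (fun t ht => s_pos _ (qs_neg h ht.1 ht.2).ne)
    (fun t ht => by
      have hq := qs_neg h ht.1 ht.2
      have hq' : ((qs p0 p1 p2 p3 t : ℝ) : ℂ) ≠ 0 := by exact_mod_cast hq.ne
      have h1 := (hne1 t ht).2
      rw [sq_s _ hq.ne, abs_of_neg hq, ← h1]
      push_cast
      field_simp)
    (neg_ne_zero.mpr hl) h.v0 h.v1
  have hB0 : f (cir (p3 - 2 * Real.pi)) = B * I := by
    rw [← h.v3, ← cir_per (p3 - 2 * Real.pi)]
    congr 2
    ring
  obtain ⟨Λ2, hΛ2, hw2, him2, hre2⟩ := side1 (a := p3 - 2 * Real.pi) (b := p0) (by linarith) h.hB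
    (G := fun t => I * f (cir t) + B)
    (G' := fun t => I * (g (cir t) * (cir t * I))) (s := fun t => 1 / √|qs p0 p1 p2 p3 t|)
    (w := -lam c p0 p1 p2 p3) ((continuous_const.mul h.fc).add continuous_const).continuousOn
    (fun t ht => ((hne2 t ht).1.const_mul I).add_const _)
    (fun t ht => s_pos _ (qs_pos h ht.1 ht.2).ne')
    (fun t ht => by
      have hq := qs_pos h ht.1 ht.2
      have hq' : ((qs p0 p1 p2 p3 t : ℝ) : ℂ) ≠ 0 := by exact_mod_cast hq.ne'
      have h1 := (hne2 t ht).2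
      rw [sq_s _ hq.ne', abs_of_pos hq, ← h1, mul_pow, Complex.I_sq]
      field_simp)
    (neg_ne_zero.mpr hl)
    (by
      simp only [hB0]
      have := Complex.I_sq
      linear_combination (B : ℂ) * this)
    (by simp only [h.v0]; ring)
  have hΛe : Λ2 = Λ := by
    have h1 : (Λ2 : ℂ) ^ 2 = (Λ : ℂ) ^ 2 := by rw [← hw, ← hw2]
    have h2 : Λ2 ^ 2 = Λ ^ 2 := by exact_mod_cast h1
    exact (pow_left_inj₀ hΛ2.le hΛ.le (by norm_num)).mp h2
  have hre0 : ∀ t ∈ Set.Icc (p3 - 2 * Real.pi) p0, (f (cir t)).re = 0 := by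
    intro t ht
    have h1 := him2 t ht
    simpa using h1
  refine ⟨Λ, hΛ, him, hre0, ?_, ?_⟩
  · intro t ht
    have h1 := hre t ht
    have h2 : tau f =ᶠ[nhds t] fun t => (f (cir t)).re := by
      filter_upwards [Ioo_mem_nhds ht.1 ht.2] with x hx
      unfold tau
      have h3 := him x ⟨hx.1.le, hx.2.le⟩
      rw [h3, sub_zero]
    have h3 := h1.congr_of_eventuallyEq h2
    refine h3.congr_deriv ?_
    ring
  · intro t ht
    have h1 := (hre2 t ht).sub_const B
    have h2 : tau f =ᶠ[nhds t] fun t => (I * f (cir t) + B).re - B := by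
      filter_upwards [Ioo_mem_nhds ht.1 ht.2] with x hx
      unfold tau
      rw [hre0 x ⟨hx.1.le, hx.2.le⟩]
      simp
    have h3 := h1.congr_of_eventuallyEq h2
    refine h3.congr_deriv ?_
    rw [hΛe]
    ring

/-- the product of the sines near the first corner -/
theorem qs_bd (h : SC A B f g c p0 p1 p2 p3) {s : ℝ} (hs : 0 < s) : ∃ k : ℝ, 0 < k ∧
    ∀ t : ℝ, p3 - 2 * Real.pi + s ≤ t → t ≤ p1 - s →
      k * |t - p0| ≤ |qs p0 p1 p2 p3 t| ∧ |qs p0 p1 p2 p3 t| ≤ |t - p0| := by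
  obtain ⟨o1, o2, o3, o4⟩ := h.ord
  have hpi := Real.pi_pos
  set k0 := s / (2 * Real.pi ^ 2) with hk0
  have k00 : 0 < k0 := by positivity
  refine ⟨k0 * (k0 * s) * (k0 * s) * (k0 * s), by positivity, fun t t1 t2 => ?_⟩
  have a0 : k0 * |t - p0| ≤ |Real.sin ((t - p0) / 2)| :=
    abs_sin_bd hs (by rw [abs_le]; constructor <;> linarith)
  have aj : ∀ p : ℝ, p1 ≤ p → p ≤ p3 → k0 * s ≤ |Real.sin ((t - p) / 2)| := by
    intro p h1 h2
    refine le_trans ?_ (abs_sin_bd (y := t - p) hs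
      (by rw [abs_le]; constructor <;> linarith))
    apply mul_le_mul_of_nonneg_left _ k00.le
    rw [abs_of_neg (by linarith)]
    linarith
  have a1 := aj p1 le_rfl (by linarith)
  have a2 := aj p2 (by linarith) (by linarith)
  have a3 := aj p3 (by linarith) le_rfl
  unfold qs
  rw [abs_mul, abs_mul, abs_mul]
  have n0 := abs_nonneg (t - p0)
  have u0 : |Real.sin ((t - p0) / 2)| ≤ |t - p0| := by
    have h1 := Real.abs_sin_le_abs (x := (t - p0) / 2)
    rw [abs_div, abs_two] at h1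
    linarith
  have u : ∀ p : ℝ, |Real.sin ((t - p) / 2)| ≤ 1 := fun p => Real.abs_sin_le_one _
  have ks : 0 ≤ k0 * s := by positivity
  constructor
  · calc k0 * (k0 * s) * (k0 * s) * (k0 * s) * |t - p0| =
        k0 * |t - p0| * (k0 * s) * (k0 * s) * (k0 * s) := by ring
      _ ≤ _ := by
        apply mul_le_mul _ a3 ks (by positivity)
        apply mul_le_mul _ a2 ks (by positivity)
        exact mul_le_mul a0 a1 ks (by positivity)
  · calc |Real.sin ((t - p0) / 2)| * |Real.sin ((t - p1) / 2)| * |Real.sin ((t - p2) / 2)| *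
        |Real.sin ((t - p3) / 2)| ≤ |t - p0| * 1 * 1 * 1 := by
          apply mul_le_mul _ (u p3) (abs_nonneg _) (by positivity)
          apply mul_le_mul _ (u p2) (abs_nonneg _) (by positivity)
          exact mul_le_mul u0 (u p1) (abs_nonneg _) n0
      _ = _ := by ring

theorem sqr_nonneg {x : ℝ} (h : 0 ≤ x) : sqr x = x ^ 2 := by
  unfold sqr
  rw [abs_of_nonneg h]
  ring

theorem sqr_nonpos {x : ℝ} (h : x ≤ 0) : sqr x = -x ^ 2 := by
  unfold sqr
  rw [abs_of_nonpos h]
  ring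

/-- **the boundary coordinate near a corner** -/
theorem window (h : SC A B f g c p0 p1 p2 p3) {s : ℝ} (hs : 0 < s) (hs1 : s < p1 - p0)
    (hs2 : s < p0 - (p3 - 2 * Real.pi)) : ∃ κ K m : ℝ, 0 < κ ∧ 0 < K ∧ 0 < m ∧
    (∀ θ : ℝ, p3 - 2 * Real.pi + s ≤ θ → θ ≤ p1 - s →
      f (cir θ) = ft (tau f θ) ∧ -(B - m) ≤ tau f θ ∧ tau f θ ≤ A - m) ∧
    ∀ θ θ' : ℝ, p3 - 2 * Real.pi + s ≤ θ → θ ≤ θ' → θ' ≤ p1 - s →
      κ * (θ' - θ) ≤ sqr (tau f θ') - sqr (tau f θ) ∧
      sqr (tau f θ') - sqr (tau f θ) ≤ K * (θ' - θ) := by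
  obtain ⟨o1, o2, o3, o4⟩ := h.ord
  obtain ⟨Λ, hΛ, him, hre, d1, d2⟩ := corner h
  obtain ⟨k, hk, hq⟩ := qs_bd h hs
  have t0 : tau f p0 = 0 := by unfold tau; rw [h.v0]; simp
  have tA : tau f p1 = A := by unfold tau; rw [h.v1]; simp
  have tB : tau f (p3 - 2 * Real.pi) = -B := by
    unfold tau
    have : f (cir (p3 - 2 * Real.pi)) = B * I := by
      rw [← h.v3, ← cir_per (p3 - 2 * Real.pi)]
      congr 2
      ring
    rw [this]
    simp
  have pos1 : ∀ t ∈ Set.Ioo p0 p1, 0 < Λ / √|qs p0 p1 p2 p3 t| := fun t ht =>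
    div_pos hΛ (Real.sqrt_pos.mpr (abs_pos.mpr (qs_neg h ht.1 ht.2).ne))
  have pos2 : ∀ t ∈ Set.Ioo (p3 - 2 * Real.pi) p0, 0 < Λ / √|qs p0 p1 p2 p3 t| := fun t ht =>
    div_pos hΛ (Real.sqrt_pos.mpr (abs_pos.mpr (qs_pos h ht.1 ht.2).ne'))
  have mo1 : StrictMonoOn (tau f) (Set.Icc p0 p1) := by
    apply strictMonoOn_of_deriv_pos (convex_Icc _ _) h.tauc.continuousOn
    rw [interior_Icc]
    intro t ht
    rw [(d1 t ht).deriv]
    exact pos1 t ht
  have mo2 : StrictMonoOn (tau f) (Set.Icc (p3 - 2 * Real.pi) p0) := by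
    apply strictMonoOn_of_deriv_pos (convex_Icc _ _) h.tauc.continuousOn
    rw [interior_Icc]
    intro t ht
    rw [(d2 t ht).deriv]
    exact pos2 t ht
  -- bounds for the derivative
  have dlo : ∀ t : ℝ, t ≠ p0 → p3 - 2 * Real.pi + s ≤ t → t ≤ p1 - s →
      Λ / √|t - p0| ≤ Λ / √|qs p0 p1 p2 p3 t| ∧
      Λ / √|qs p0 p1 p2 p3 t| ≤ Λ / √k / √|t - p0| := by
    intro t ht h1 h2
    obtain ⟨q1, q2⟩ := hq t h1 h2
    have n0 : 0 < |t - p0| := abs_pos.mpr (sub_ne_zero.mpr ht)
    have n1 : 0 < |qs p0 p1 p2 p3 t| := lt_of_lt_of_le (by positivity) q1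
    constructor
    · exact div_le_div_of_nonneg_left hΛ.le (Real.sqrt_pos.mpr n1) (Real.sqrt_le_sqrt q2)
    · rw [div_div, ← Real.sqrt_mul hk.le]
      exact div_le_div_of_nonneg_left hΛ.le (Real.sqrt_pos.mpr (by positivity))
        (Real.sqrt_le_sqrt q1)
  have hC1 : 0 < Λ / √k := div_pos hΛ (Real.sqrt_pos.mpr hk)
  -- the two halves
  have H1 := half (T := fun t => tau f (p0 + t)) (T' := fun t => Λ / √|qs p0 p1 p2 p3 (p0 + t)|)
    (b := p1 - s - p0) hΛ hC1 (by simpa using t0)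
    (h.tauc.comp (continuous_const.add continuous_id)).continuousOn
    (fun t ht => by
      have h1 := (d1 (p0 + t) ⟨by linarith [ht.1], by linarith [ht.2]⟩)
      have h2 : HasDerivAt (fun t : ℝ => p0 + t) 1 t := (hasDerivAt_id t).const_add p0
      have h3 : HasDerivAt (fun t => tau f (p0 + t)) _ t := h1.scomp t h2
      exact h3.congr_deriv (by simp))
    (fun t ht => by
      have h1 := (dlo (p0 + t) (by linarith [ht.1] : p0 + t > p0).ne' (by linarith [ht.1])
        (by linarith [ht.2])).1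
      rwa [add_sub_cancel_left, abs_of_pos ht.1] at h1)
    (fun t ht => by
      have h1 := (dlo (p0 + t) (by linarith [ht.1] : p0 + t > p0).ne' (by linarith [ht.1])
        (by linarith [ht.2])).2
      rwa [add_sub_cancel_left, abs_of_pos ht.1] at h1)
  have H2 := half (T := fun t => -tau f (p0 - t)) (T' := fun t => Λ / √|qs p0 p1 p2 p3 (p0 - t)|)
    (b := p0 - (p3 - 2 * Real.pi + s)) hΛ hC1 (by simpa using t0)
    (h.tauc.comp (continuous_const.sub continuous_id)).neg.continuousOn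
    (fun t ht => by
      have h1 := (d2 (p0 - t) ⟨by linarith [ht.2], by linarith [ht.1]⟩)
      have h2 : HasDerivAt (fun t : ℝ => p0 - t) (-1) t := (hasDerivAt_id t).const_sub p0
      have h3 : HasDerivAt (fun t => -tau f (p0 - t)) _ t := (h1.scomp t h2).neg
      exact h3.congr_deriv (by simp))
    (fun t ht => by
      have h1 := (dlo (p0 - t) (by linarith [ht.1] : p0 - t < p0).ne (by linarith [ht.2])
        (by linarith [ht.1])).1
      rwa [sub_sub_cancel_left, abs_neg, abs_of_pos ht.1] at h1)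
    (fun t ht => by
      have h1 := (dlo (p0 - t) (by linarith [ht.1] : p0 - t < p0).ne (by linarith [ht.2])
        (by linarith [ht.1])).2
      rwa [sub_sub_cancel_left, abs_neg, abs_of_pos ht.1] at h1)
  -- signs
  have sg1 : ∀ θ, p0 ≤ θ → θ ≤ p1 - s → 0 ≤ tau f θ := by
    intro θ h1 h2
    have := mo1.monotoneOn (Set.left_mem_Icc.mpr o1.le) ⟨h1, by linarith⟩ h1
    rwa [t0] at this
  have sg2 : ∀ θ, p3 - 2 * Real.pi + s ≤ θ → θ ≤ p0 → tau f θ ≤ 0 := by
    intro θ h1 h2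
    have := mo2.monotoneOn ⟨by linarith, h2⟩ (Set.right_mem_Icc.mpr (by linarith)) h2
    rwa [t0] at this
  set K := 4 * (Λ / √k) ^ 2 with hK
  have K0 : 0 < K := by positivity
  have B1 : ∀ θ θ' : ℝ, p0 ≤ θ → θ ≤ θ' → θ' ≤ p1 - s →
      4 * Λ ^ 2 * (θ' - θ) ≤ sqr (tau f θ') - sqr (tau f θ) ∧
      sqr (tau f θ') - sqr (tau f θ) ≤ K * (θ' - θ) := by
    intro θ θ' h1 h2 h3
    obtain ⟨-, e1, e2⟩ := H1 (θ - p0) (θ' - p0) (by linarith) (by linarith) (by linarith)
    simp only [add_sub_cancel, sub_sub_sub_cancel_right] at e1 e2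
    rw [sqr_nonneg (sg1 θ h1 (by linarith)), sqr_nonneg (sg1 θ' (by linarith) h3)]
    exact ⟨e1, e2⟩
  have B2 : ∀ θ θ' : ℝ, p3 - 2 * Real.pi + s ≤ θ → θ ≤ θ' → θ' ≤ p0 →
      4 * Λ ^ 2 * (θ' - θ) ≤ sqr (tau f θ') - sqr (tau f θ) ∧
      sqr (tau f θ') - sqr (tau f θ) ≤ K * (θ' - θ) := by
    intro θ θ' h1 h2 h3
    obtain ⟨-, e1, e2⟩ := H2 (p0 - θ') (p0 - θ) (by linarith) (by linarith) (by linarith)
    simp only [sub_sub_cancel, neg_sq, sub_sub_sub_cancel_left] at e1 e2
    rw [sqr_nonpos (sg2 θ h1 (by linarith)), sqr_nonpos (sg2 θ' (by linarith) h3)]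
    constructor <;> linarith
  -- the margin
  have mA : tau f (p1 - s) < A := by
    have := mo1 (a := p1 - s) (b := p1) ⟨by linarith, by linarith⟩ (Set.right_mem_Icc.mpr o1.le)
      (by linarith)
    rwa [tA] at this
  have mB : -B < tau f (p3 - 2 * Real.pi + s) := by
    have := mo2 (a := p3 - 2 * Real.pi) (b := p3 - 2 * Real.pi + s)
      (Set.left_mem_Icc.mpr (by linarith)) ⟨by linarith, by linarith⟩ (by linarith)
    rwa [tB] at this
  have mon : ∀ θ θ' : ℝ, p3 - 2 * Real.pi + s ≤ θ → θ ≤ θ' → θ' ≤ p1 - s →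
      tau f θ ≤ tau f θ' := by
    intro θ θ' h1 h2 h3
    rcases le_total p0 θ with h4 | h4
    · exact mo1.monotoneOn ⟨h4, by linarith⟩ ⟨by linarith, by linarith⟩ h2
    · rcases le_total p0 θ' with h5 | h5
      · exact (sg2 θ h1 h4).trans (sg1 θ' h5 h3)
      · exact mo2.monotoneOn ⟨by linarith, h4⟩ ⟨by linarith, h5⟩ h2
  refine ⟨4 * Λ ^ 2, K, min (A - tau f (p1 - s)) (B + tau f (p3 - 2 * Real.pi + s)),
    by positivity, K0, lt_min (by linarith) (by linarith), ?_, ?_⟩
  · intro θ h1 h2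
    have m1 := mon _ _ le_rfl h1 h2
    have m2 := mon _ _ h1 h2 le_rfl
    have m3 := min_le_left (A - tau f (p1 - s)) (B + tau f (p3 - 2 * Real.pi + s))
    have m4 := min_le_right (A - tau f (p1 - s)) (B + tau f (p3 - 2 * Real.pi + s))
    refine ⟨?_, by linarith, by linarith⟩
    rcases le_total p0 θ with h3 | h3
    · have e1 := him θ ⟨h3, by linarith⟩
      have e2 := sg1 θ h3 h2
      unfold ft
      rw [max_eq_left e2, max_eq_right (by linarith)]
      unfold tau
      apply Complex.ext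
      · simp [e1]
      · simp [e1]
    · have e1 := hre θ ⟨by linarith, h3⟩
      have e2 := sg2 θ h1 h3
      unfold ft
      rw [max_eq_right e2, max_eq_left (by linarith)]
      unfold tau
      apply Complex.ext
      · simp [e1]
      · simp [e1]
  · intro θ θ' h1 h2 h3
    rcases le_total p0 θ with h4 | h4
    · exact B1 θ θ' h4 h2 h3
    · rcases le_total p0 θ' with h5 | h5
      · have b1 := B1 p0 θ' le_rfl h5 h3
        have b2 := B2 θ p0 h1 h4 le_rfl
        constructor <;> linarith [b1.1, b1.2, b2.1, b2.2]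
      · exact B2 θ θ' h1 h2 h5

end corner

end Pool.Agent.R966.RG
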