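import Pool.Agent.R966.RC.Chart
import Pool.Agent.R966.RC.Geo2

/-!
Schwarz-Christoffel maps onto rectangles: the boundary near all points, and the lattice charts.
-/

set_option autoImplicit false

namespace Pool.Agent.R966.RG

open Complex (I)
open H974 Pool.Agent.H160R2.CV TH976 TH976.QC Pool.Agent.R966.RC
open Pool.Agent.H160R2.CV.Quad

/-- The position of the vertex `v` of the lattice `ε ℤ²`. -/
noncomputable def pos (ε : ℝ) (v : Vtx) : ℂ := ⟨ε * v.1, ε * v.2⟩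

/-- the lattice charts match the map `fk` -/
def Al (A B A' B' : ℝ) (f fk : ℂ → ℂ) : Prop := ∀ ε : ℝ, 0 < ε →
  ∃ c : Chart ⌊A / ε⌋ ⌊B / ε⌋ ⌊A' / ε⌋ ⌊B' / ε⌋, ∀ (z : ℂ) (v : Vtx),
    ‖pos ε v - f z‖ ≤ ‖pos ε (c.g.ψ v) - fk z‖ + 3 / 2 * ε

theorem fl_bd {ε A : ℝ} (hε : 0 < ε) : |ε * (⌊A / ε⌋ : ℝ) - A| ≤ ε := by
  have h1 := Int.floor_le (A / ε)
  have h2 := Int.lt_floor_add_one (A / ε)
  rw [le_div_iff₀ hε] at h1
  rw [div_lt_iff₀ hε] at h2
  rw [abs_le]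
  constructor <;> nlinarith

theorem al0 (A B : ℝ) (f : ℂ → ℂ) : Al A B A B f f := by
  intro ε hε
  refine ⟨ch0 _ _, fun z v => ?_⟩
  have : (ch0 ⌊A / ε⌋ ⌊B / ε⌋).g.ψ v = v := rfl
  rw [this]
  linarith

theorem al_of {ε : ℝ} {x y x' y' ρ e : ℂ} (hρ : ‖ρ‖ = 1) (he : ‖e‖ ≤ 3 / 2 * ε)
    (h : x' - y' = ρ * (x - y) + e) : ‖x - y‖ ≤ ‖x' - y'‖ + 3 / 2 * ε := by
  have h1 : ‖x - y‖ = ‖ρ * (x - y)‖ := by rw [norm_mul, hρ, one_mul]
  have h2 : ρ * (x - y) = (x' - y') - e := by rw [h]; ring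
  rw [h1, h2]
  exact (norm_sub_le _ _).trans (by linarith)

theorem al1 (A B : ℝ) (f : ℂ → ℂ) : Al A B B A f (fun z => -I * f z + A * I) := by
  intro ε hε
  refine ⟨ch1 _ _, fun z v => ?_⟩
  have e1 : (ch1 ⌊A / ε⌋ ⌊B / ε⌋).g.ψ v = (v.2, ⌊A / ε⌋ - v.1) := rfl
  refine al_of (ρ := -I) (e := ((ε * (⌊A / ε⌋ : ℝ) - A : ℝ) : ℂ) * I) (by simp) ?_ ?_
  · rw [norm_mul, Complex.norm_I, mul_one, Complex.norm_real, Real.norm_eq_abs]
    have := fl_bd (A := A) hε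
    linarith
  · rw [e1]
    unfold pos
    apply Complex.ext
    · simp
    · simp
      ring

theorem al2 (A B : ℝ) (f : ℂ → ℂ) :
    Al A B A B f (fun z => -I * (-I * f z + A * I) + B * I) := by
  intro ε hε
  refine ⟨ch2 _ _, fun z v => ?_⟩
  have e1 : (ch2 ⌊A / ε⌋ ⌊B / ε⌋).g.ψ v = (⌊A / ε⌋ - v.1, ⌊B / ε⌋ - v.2) := rfl
  refine al_of (ρ := -1) (e := ⟨ε * (⌊A / ε⌋ : ℝ) - A, ε * (⌊B / ε⌋ : ℝ) - B⟩) (by simp) ?_ ?_
  · have h1 := abs_le.mp (fl_bd (A := A) hε)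
    have h2 := abs_le.mp (fl_bd (A := B) hε)
    set x := ε * (⌊A / ε⌋ : ℝ) - A
    set y := ε * (⌊B / ε⌋ : ℝ) - B
    have h3 : ‖(⟨x, y⟩ : ℂ)‖ ^ 2 = x * x + y * y := by
      rw [Complex.sq_norm, Complex.normSq_mk]
    by_contra hcon
    push Not at hcon
    have hx : x * x ≤ ε * ε := by nlinarith
    have hy : y * y ≤ ε * ε := by nlinarith
    nlinarith
  · rw [e1]
    unfold pos
    apply Complex.ext
    · simp
      ring
    · simp
      ring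

theorem al3 (A B : ℝ) (f : ℂ → ℂ) :
    Al A B B A f (fun z => -I * (-I * (-I * f z + A * I) + B * I) + A * I) := by
  intro ε hε
  refine ⟨ch3 _ _, fun z v => ?_⟩
  have e1 : (ch3 ⌊A / ε⌋ ⌊B / ε⌋).g.ψ v = (⌊B / ε⌋ - v.2, v.1) := rfl
  refine al_of (ρ := I) (e := ((ε * (⌊B / ε⌋ : ℝ) - B : ℝ) : ℂ)) (by simp) ?_ ?_
  · rw [Complex.norm_real, Real.norm_eq_abs]
    have := fl_bd (A := B) hε
    linarith
  · rw [e1]
    unfold pos
    apply Complex.ext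
    · simp
      ring
    · simp

/-- local description of the boundary near the point of argument `θ0` -/
structure Win (A B : ℝ) (f : ℂ → ℂ) (s κ K m θ0 A' B' : ℝ) (fk : ℂ → ℂ) (τ : ℝ → ℝ) :
    Prop where
  side : (A' = A ∧ B' = B) ∨ (A' = B ∧ B' = A)
  al : Al A B A' B' f fk
  iso : ∀ z w, ‖fk z - fk w‖ = ‖f z - f w‖
  cont : Continuous τ
  loc : ∀ θ, θ0 - s ≤ θ → θ ≤ θ0 + s →
    fk (cir θ) = ft (τ θ) ∧ -(B' - m) ≤ τ θ ∧ τ θ ≤ A' - m
  bl : ∀ θ θ', θ0 - s ≤ θ → θ ≤ θ' → θ' ≤ θ0 + s →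
    κ * (θ' - θ) ≤ sqr (τ θ') - sqr (τ θ) ∧ sqr (τ θ') - sqr (τ θ) ≤ K * (θ' - θ)

theorem cir_perz (θ : ℝ) (j : ℤ) : cir (θ - j * (2 * Real.pi)) = cir θ := by
  have h : Function.Periodic cir (2 * Real.pi) := cir_per
  have h1 := (h.int_mul j) (θ - j * (2 * Real.pi))
  rw [sub_add_cancel] at h1
  exact h1.symm

theorem win_of {A B A' B' : ℝ} {f fk gk : ℂ → ℂ} {c : ℂ} {q0 q1 q2 q3 : ℝ}
    (h : SC A' B' fk gk c q0 q1 q2 q3) (hside : (A' = A ∧ B' = B) ∨ (A' = B ∧ B' = A))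
    (hal : Al A B A' B' f fk) (hiso : ∀ z w, ‖fk z - fk w‖ = ‖f z - f w‖) {s : ℝ} (hs : 0 < s)
    (hs1 : s < q1 - q0) (hs2 : s < q0 - (q3 - 2 * Real.pi)) : ∃ κ K m : ℝ, 0 < κ ∧ 0 < K ∧ 0 < m ∧
      ∀ (κ' K' m' θ0 : ℝ) (j : ℤ), κ' ≤ κ → K ≤ K' → m' ≤ m →
        q3 - 2 * Real.pi + s ≤ θ0 - j * (2 * Real.pi) - s →
        θ0 - j * (2 * Real.pi) + s ≤ q1 - s → Win A B f s κ' K' m' θ0 A' B' fk (tau fk) := by
  obtain ⟨κ, K, m, hκ, hK, hm, h1, h2⟩ := window h hs hs1 hs2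
  refine ⟨κ, K, m, hκ, hK, hm, fun κ' K' m' θ0 j hκ' hK' hm' j1 j2 => ?_⟩
  have tp : ∀ θ, tau fk θ = tau fk (θ - j * (2 * Real.pi)) := by
    intro θ
    unfold tau
    rw [cir_perz]
  refine ⟨hside, hal, hiso, h.tauc, ?_, ?_⟩
  · intro θ t1 t2
    obtain ⟨e1, e2, e3⟩ := h1 (θ - j * (2 * Real.pi)) (by linarith) (by linarith)
    rw [cir_perz] at e1
    rw [tp θ]
    exact ⟨e1, by linarith, by linarith⟩
  · intro θ θ' t1 t2 t3
    obtain ⟨e1, e2⟩ := h2 (θ - j * (2 * Real.pi)) (θ' - j * (2 * Real.pi)) (by linarith)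
      (by linarith) (by linarith)
    rw [tp θ, tp θ']
    rw [sub_sub_sub_cancel_right] at e1 e2
    have h3 : 0 ≤ θ' - θ := by linarith
    exact ⟨(mul_le_mul_of_nonneg_right hκ' h3).trans e1,
      e2.trans (mul_le_mul_of_nonneg_right hK' h3)⟩

theorem iso_rot {A : ℝ} {f : ℂ → ℂ} (z w : ℂ) :
    ‖(-I * f z + A * I) - (-I * f w + A * I)‖ = ‖f z - f w‖ := by
  have : (-I * f z + A * I) - (-I * f w + A * I) = -I * (f z - f w) := by ring
  rw [this, norm_mul]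
  simp

/-- points far apart on the circle -/
theorem far {f : ℂ → ℂ} (hc : ContinuousOn f disc) (hi : Set.InjOn f disc) {s : ℝ} (hs : 0 < s)
    (hs1 : s < Real.pi) : ∃ m : ℝ, 0 < m ∧ ∀ θ0 θ : ℝ, θ0 + s ≤ θ → θ ≤ θ0 + 2 * Real.pi - s →
      m ≤ ‖f (cir θ) - f (cir θ0)‖ := by
  have hpi := Real.pi_pos
  have fc : Continuous (fun t => f (cir t)) := hc.comp_continuous cir_cont cir_mem
  have hcomp : IsCompact (Set.Icc (0 : ℝ) (2 * Real.pi) ×ˢ Set.Icc s (2 * Real.pi - s)) :=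
    isCompact_Icc.prod isCompact_Icc
  have hne : (Set.Icc (0 : ℝ) (2 * Real.pi) ×ˢ Set.Icc s (2 * Real.pi - s)).Nonempty :=
    ⟨(0, s), ⟨by simp only; constructor <;> linarith, by simp only; constructor <;> linarith⟩⟩
  have hcont : Continuous (fun q : ℝ × ℝ => ‖f (cir (q.1 + q.2)) - f (cir q.1)‖) :=
    ((fc.comp (continuous_fst.add continuous_snd)).sub (fc.comp continuous_fst)).norm
  obtain ⟨q, hq, hmin⟩ := hcomp.exists_isMinOn hne hcont.continuousOn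
  refine ⟨‖f (cir (q.1 + q.2)) - f (cir q.1)‖, ?_, ?_⟩
  · rw [norm_pos_iff, sub_ne_zero]
    intro h
    have h1 := hi (cir_mem _) (cir_mem _) h
    refine cir_ne_of ?_ ?_ h1
    · rw [add_sub_cancel_left, abs_of_pos (by linarith [hq.2.1])]
      linarith [hq.2.1]
    · rw [add_sub_cancel_left, abs_of_pos (by linarith [hq.2.1])]
      linarith [hq.2.2]
  · intro θ0 θ h1 h2
    set j : ℤ := ⌊θ0 / (2 * Real.pi)⌋ with hj
    have f1 := Int.floor_le (θ0 / (2 * Real.pi))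
    have f2 := Int.lt_floor_add_one (θ0 / (2 * Real.pi))
    rw [← hj, le_div_iff₀ (by positivity)] at f1
    rw [← hj, div_lt_iff₀ (by positivity)] at f2
    have h3 := hmin (a := (θ0 - j * (2 * Real.pi), θ - θ0))
      (show (θ0 - j * (2 * Real.pi), θ - θ0) ∈ Set.Icc (0 : ℝ) (2 * Real.pi) ×ˢ
        Set.Icc s (2 * Real.pi - s) from
        ⟨⟨by simp only; linarith, by simp only; linarith⟩,
          ⟨by simp only; linarith, by simp only; linarith⟩⟩)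
    simp only [Set.mem_setOf_eq] at h3
    have e1 : θ0 - j * (2 * Real.pi) + (θ - θ0) = θ - j * (2 * Real.pi) := by ring
    rw [e1, cir_perz, cir_perz] at h3
    exact h3

/-- **the local description at all points** -/
theorem loc {A B : ℝ} {f g : ℂ → ℂ} {c : ℂ} {p0 p1 p2 p3 : ℝ} (h : SC A B f g c p0 p1 p2 p3)
    (hi : Set.InjOn f disc) : ∃ s κ K m : ℝ, 0 < s ∧ s < 1 ∧ 0 < κ ∧ 0 < K ∧ 0 < m ∧
    m ≤ A ∧ m ≤ B ∧
    (∀ θ0 : ℝ, ∃ (A' B' : ℝ) (fk : ℂ → ℂ) (τ : ℝ → ℝ), Win A B f s κ K m θ0 A' B' fk τ) ∧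
    ∀ θ0 θ : ℝ, θ0 + s ≤ θ → θ ≤ θ0 + 2 * Real.pi - s → m ≤ ‖f (cir θ) - f (cir θ0)‖ := by
  obtain ⟨o1, o2, o3, o4⟩ := h.ord
  have hpi := Real.pi_pos
  have hpi3 := Real.pi_gt_three
  obtain ⟨s, hs, hs1, g1, g2, g3, g4⟩ : ∃ s : ℝ, 0 < s ∧ s < 1 ∧ 8 * s ≤ p1 - p0 ∧
      8 * s ≤ p2 - p1 ∧ 8 * s ≤ p3 - p2 ∧ 8 * s ≤ p0 + 2 * Real.pi - p3 := by
    refine ⟨min (min (p1 - p0) (p2 - p1)) (min (p3 - p2) (p0 + 2 * Real.pi - p3)) / 8, ?_, ?_,
      ?_, ?_, ?_, ?_⟩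
    · have : 0 < min (min (p1 - p0) (p2 - p1)) (min (p3 - p2) (p0 + 2 * Real.pi - p3)) :=
        lt_min (lt_min (by linarith) (by linarith)) (lt_min (by linarith) (by linarith))
      linarith
    · have a1 := min_le_left (min (p1 - p0) (p2 - p1)) (min (p3 - p2) (p0 + 2 * Real.pi - p3))
      have a2 := min_le_right (min (p1 - p0) (p2 - p1)) (min (p3 - p2) (p0 + 2 * Real.pi - p3))
      have a3 := min_le_left (p1 - p0) (p2 - p1)
      have a4 := min_le_right (p1 - p0) (p2 - p1)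
      have a5 := min_le_left (p3 - p2) (p0 + 2 * Real.pi - p3)
      have a6 := min_le_right (p3 - p2) (p0 + 2 * Real.pi - p3)
      have := Real.pi_lt_four
      linarith
    · have a1 := min_le_left (min (p1 - p0) (p2 - p1)) (min (p3 - p2) (p0 + 2 * Real.pi - p3))
      have a3 := min_le_left (p1 - p0) (p2 - p1)
      linarith
    · have a1 := min_le_left (min (p1 - p0) (p2 - p1)) (min (p3 - p2) (p0 + 2 * Real.pi - p3))
      have a4 := min_le_right (p1 - p0) (p2 - p1)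
      linarith
    · have a2 := min_le_right (min (p1 - p0) (p2 - p1)) (min (p3 - p2) (p0 + 2 * Real.pi - p3))
      have a5 := min_le_left (p3 - p2) (p0 + 2 * Real.pi - p3)
      linarith
    · have a2 := min_le_right (min (p1 - p0) (p2 - p1)) (min (p3 - p2) (p0 + 2 * Real.pi - p3))
      have a6 := min_le_right (p3 - p2) (p0 + 2 * Real.pi - p3)
      linarith
  have h1 := h.rot
  have h2 := h1.rot
  have h3 := h2.rot
  have i1 : ∀ z w, ‖(fun z => -I * f z + A * I) z - (fun z => -I * f z + A * I) w‖ =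
      ‖f z - f w‖ := fun z w => iso_rot z w
  have i2 : ∀ z w, ‖(fun z => -I * (-I * f z + A * I) + B * I) z -
      (fun z => -I * (-I * f z + A * I) + B * I) w‖ = ‖f z - f w‖ :=
    fun z w => (iso_rot (f := fun z => -I * f z + A * I) z w).trans (i1 z w)
  have i3 : ∀ z w, ‖(fun z => -I * (-I * (-I * f z + A * I) + B * I) + A * I) z -
      (fun z => -I * (-I * (-I * f z + A * I) + B * I) + A * I) w‖ = ‖f z - f w‖ :=
    fun z w => (iso_rot (f := fun z => -I * (-I * f z + A * I) + B * I) z w).trans (i2 z w)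
  obtain ⟨κ0, K0, m0, hκ0, hK0, hm0, W0⟩ := win_of h (Or.inl ⟨rfl, rfl⟩) (al0 A B f)
    (fun _ _ => rfl) hs (by linarith) (by linarith)
  obtain ⟨κ1, K1, m1, hκ1, hK1, hm1, W1⟩ := win_of h1 (Or.inr ⟨rfl, rfl⟩) (al1 A B f)
    i1 hs (by linarith) (by linarith)
  obtain ⟨κ2, K2, m2, hκ2, hK2, hm2, W2⟩ := win_of h2 (Or.inl ⟨rfl, rfl⟩) (al2 A B f)
    i2 hs (by linarith) (by linarith)
  obtain ⟨κ3, K3, m3, hκ3, hK3, hm3, W3⟩ := win_of h3 (Or.inr ⟨rfl, rfl⟩) (al3 A B f)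
    i3 hs (by linarith) (by linarith)
  obtain ⟨mf, hmf, hfar⟩ := far h.cont hi hs (by linarith)
  set κ := min (min κ0 κ1) (min κ2 κ3) with hκ
  set K := max (max K0 K1) (max K2 K3) with hK
  set m := min (min (min (min m0 m1) (min m2 m3)) mf) (min A B) with hm
  have mb : m ≤ min (min (min m0 m1) (min m2 m3)) mf := min_le_left _ _
  have k0 : κ ≤ κ0 := (min_le_left _ _).trans (min_le_left _ _)
  have k1 : κ ≤ κ1 := (min_le_left _ _).trans (min_le_right _ _)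
  have k2 : κ ≤ κ2 := (min_le_right _ _).trans (min_le_left _ _)
  have k3 : κ ≤ κ3 := (min_le_right _ _).trans (min_le_right _ _)
  have l0 : K0 ≤ K := (le_max_left _ _).trans (le_max_left _ _)
  have l1 : K1 ≤ K := (le_max_right _ _).trans (le_max_left _ _)
  have l2 : K2 ≤ K := (le_max_left _ _).trans (le_max_right _ _)
  have l3 : K3 ≤ K := (le_max_right _ _).trans (le_max_right _ _)
  have n0 : m ≤ m0 := mb.trans ((min_le_left _ _).trans ((min_le_left _ _).trans (min_le_left _ _)))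
  have n1 : m ≤ m1 := mb.trans ((min_le_left _ _).trans ((min_le_left _ _).trans (min_le_right _ _)))
  have n2 : m ≤ m2 := mb.trans ((min_le_left _ _).trans ((min_le_right _ _).trans (min_le_left _ _)))
  have n3 : m ≤ m3 := mb.trans ((min_le_left _ _).trans ((min_le_right _ _).trans (min_le_right _ _)))
  refine ⟨s, κ, K, m, hs, hs1, lt_min (lt_min hκ0 hκ1) (lt_min hκ2 hκ3), by linarith,
    lt_min (lt_min (lt_min (lt_min hm0 hm1) (lt_min hm2 hm3)) hmf) (lt_min h.hA h.hB),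
    (min_le_right _ _).trans (min_le_left _ _), (min_le_right _ _).trans (min_le_right _ _), ?_, ?_⟩
  · intro θ0
    obtain ⟨j, j1, j2⟩ : ∃ j : ℤ, (p3 - 2 * Real.pi + p0) / 2 ≤ θ0 - j * (2 * Real.pi) ∧
        θ0 - j * (2 * Real.pi) ≤ (p3 - 2 * Real.pi + p0) / 2 + 2 * Real.pi := by
      refine ⟨⌊(θ0 - (p3 - 2 * Real.pi + p0) / 2) / (2 * Real.pi)⌋, ?_, ?_⟩
      · have f1 := Int.floor_le ((θ0 - (p3 - 2 * Real.pi + p0) / 2) / (2 * Real.pi))
        rw [le_div_iff₀ (by positivity)] at f1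
        linarith
      · have f2 := Int.lt_floor_add_one ((θ0 - (p3 - 2 * Real.pi + p0) / 2) / (2 * Real.pi))
        rw [div_lt_iff₀ (by positivity)] at f2
        linarith
    rcases le_total (θ0 - j * (2 * Real.pi)) ((p0 + p1) / 2) with c1 | c1
    · exact ⟨_, _, _, _, W0 κ K m θ0 j k0 l0 n0 (by linarith) (by linarith)⟩
    rcases le_total (θ0 - j * (2 * Real.pi)) ((p1 + p2) / 2) with c2 | c2
    · exact ⟨_, _, _, _, W1 κ K m θ0 j k1 l1 n1 (by linarith) (by linarith)⟩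
    rcases le_total (θ0 - j * (2 * Real.pi)) ((p2 + p3) / 2) with c3 | c3
    · exact ⟨_, _, _, _, W2 κ K m θ0 j k2 l2 n2 (by linarith) (by linarith)⟩
    · exact ⟨_, _, _, _, W3 κ K m θ0 j k3 l3 n3 (by linarith) (by linarith)⟩
  · intro θ0 θ t1 t2
    exact (mb.trans (min_le_right _ _)).trans (hfar θ0 θ t1 t2)

end Pool.Agent.R966.RG
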