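import Pool.Agent.R966.RC.Chart

/-!
Rectangles: four crossings along the sides.
-/

set_option autoImplicit false

namespace Pool.Agent.R966.RC
open Finset H974 Pool.Agent.H160R2.CV TH976 TH976.QC
open Pool.Agent.H160R2.CV.Quad

/-- crossings of the four strips of width `m` along the sides -/
def Ring (W H m : ℤ) (F : Finset Edg) : Prop :=
  (LRc 0 W 0 m F ∧ LRc 0 W (H - m) H F) ∧ (TBc 0 m 0 H F ∧ TBc (W - m) W 0 H F)

theorem Ring_incr (S : Finset Edg) (W H m : ℤ) : IncrE S (Ring W H m) :=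
  fun _ _ h _ hF => ⟨⟨hF.1.1.mono h, hF.1.2.mono h⟩, hF.2.1.mono h, hF.2.2.mono h⟩

theorem reach_inR {F : Finset Edg} {a b c d : ℤ} {u v : Vtx} (hu : inR a b c d u)
    (h : Reach ((↑F : Set Edg) ∩ ↑(RE a b c d)) u v) : inR a b c d v := by
  induction h with
  | refl => exact hu
  | tail _ hs ih =>
    obtain ⟨e, ⟨-, he⟩, hc⟩ := hs
    have := H731C.RE_ends (Finset.mem_coe.mp he)
    rcases hc with ⟨-, h2⟩ | ⟨h2, -⟩
    · rw [← h2]; exact this.2
    · rw [← h2]; exact this.1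

theorem hpath {F : Finset Edg} {W c d x : ℤ} {u v : Vtx} (hu : inR 0 W c d u)
    (h : Reach ((↑F : Set Edg) ∩ ↑(RE 0 W c d)) u v) (hu1 : u.1 = 0) (hv1 : v.1 = W)
    (hx : 0 ≤ x ∧ x ≤ W) : ∃ w : Vtx, w.1 = x ∧ (c ≤ w.2 ∧ w.2 ≤ d) ∧ Reach (↑F) u w := by
  obtain ⟨w, h1, h2, h3⟩ := first_exit (a := -1) (b := x) (c := c - 1) (d := d + 1)
    (by unfold inR at hu ⊢; omega) h (by omega)
  have h4 := reach_inR hu (h3.mono Set.inter_subset_left)
  refine ⟨w, ?_, h4.2, h3.mono (Set.inter_subset_left.trans Set.inter_subset_left)⟩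
  unfold inR at h4 h1
  omega

theorem vpath {F : Finset Edg} {H a b y : ℤ} {u v : Vtx} (hu : inR a b 0 H u)
    (h : Reach ((↑F : Set Edg) ∩ ↑(RE a b 0 H)) u v) (hu1 : u.2 = 0) (hv1 : v.2 = H)
    (hy : 0 ≤ y ∧ y ≤ H) : ∃ w : Vtx, w.2 = y ∧ (a ≤ w.1 ∧ w.1 ≤ b) ∧ Reach (↑F) u w := by
  obtain ⟨w, h1, h2, h3⟩ := first_exit (a := a - 1) (b := b + 1) (c := -1) (d := y)
    (by unfold inR at hu ⊢; omega) h (by omega)
  have h4 := reach_inR hu (h3.mono Set.inter_subset_left)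
  refine ⟨w, ?_, h4.1, h3.mono (Set.inter_subset_left.trans Set.inter_subset_left)⟩
  unfold inR at h4 h1
  omega

/-- a boundary vertex of the rectangle -/
def Bd (W H : ℤ) (p : Vtx) : Prop :=
  inR 0 W 0 H p ∧ (p.1 = 0 ∨ p.1 = W ∨ p.2 = 0 ∨ p.2 = H)

theorem ring_meet {W H m : ℤ} {k n : ℕ} (hm : 1 ≤ m) (hmk : m ≤ k) (hW : 2 * (n : ℤ) ≤ W)
    (hH : 2 * (n : ℤ) ≤ H) (hmW : m ≤ W) (hmH : m ≤ H) {F : Finset Edg}
    (hR : Ring W H m F) : ∃ z : Vtx, ∀ p : Vtx, Bd W H p →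
      ∃ u v : Vtx, inR 0 W 0 H u ∧ sd u p ≤ k ∧ n ≤ sd v p ∧ Reach (↑F) u v ∧
        Reach (↑F) u z := by
  obtain ⟨⟨⟨y1, y1', k1, k1', r1⟩, ⟨y2, y2', k2, k2', r2⟩⟩,
    ⟨⟨x3, x3', k3, k3', r3⟩, ⟨x4, x4', k4, k4', r4⟩⟩⟩ := hR
  have l1 := r1.mono (Set.inter_subset_inter_right (↑F : Set Edg)
    (by exact_mod_cast LRE_subset_RE : (↑(LRE 0 W 0 m) : Set Edg) ⊆ ↑(RE 0 W 0 m)))
  have l2 := r2.mono (Set.inter_subset_inter_right (↑F : Set Edg)
    (by exact_mod_cast LRE_subset_RE : (↑(LRE 0 W (H - m) H) : Set Edg) ⊆ ↑(RE 0 W (H - m) H)))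
  have l3 := r3.mono (Set.inter_subset_inter_right (↑F : Set Edg)
    (by exact_mod_cast TBE_subset_RE : (↑(TBE 0 m 0 H) : Set Edg) ⊆ ↑(RE 0 m 0 H)))
  have l4 := r4.mono (Set.inter_subset_inter_right (↑F : Set Edg)
    (by exact_mod_cast TBE_subset_RE : (↑(TBE (W - m) W 0 H) : Set Edg) ⊆ ↑(RE (W - m) W 0 H)))
  have m13 : Reach (↑F : Set Edg) (0, y1) (x3, 0) :=
    (cross_meet (A := 0) (B := W) (C := 0) (D := H) (a := 0) (b := m) (c := 0) (d := m)
      le_rfl (by omega) (by omega) le_rfl (by omega) (by omega) l1 le_rfl (by simpa using hmW)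
      l3 le_rfl (by simpa using hmH)).mono Set.inter_subset_left
  have m14 : Reach (↑F : Set Edg) (0, y1) (x4, 0) :=
    (cross_meet (A := 0) (B := W) (C := 0) (D := H) (a := W - m) (b := W) (c := 0) (d := m)
      (by omega) (by omega) (by omega) le_rfl (by omega) (by omega) l1 (by simp only; omega)
      le_rfl l4 le_rfl (by simpa using hmH)).mono Set.inter_subset_left
  have m23 : Reach (↑F : Set Edg) (0, y2) (x3, 0) :=
    (cross_meet (A := 0) (B := W) (C := 0) (D := H) (a := 0) (b := m) (c := H - m) (d := H)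
      le_rfl (by omega) (by omega) (by omega) (by omega) (by omega) l2 le_rfl
      (by simpa using hmW) l3 (by simp only; omega) le_rfl).mono Set.inter_subset_left
  refine ⟨(0, y1), fun p hp => ?_⟩
  obtain ⟨hpR, hpb⟩ := hp
  have hpR' := hpR
  unfold inR at hpR'
  rcases hpb with h | h | h | h
  · -- left side
    obtain ⟨w, w1, w2, w3⟩ := vpath (y := p.2) (by unfold inR; simp only; omega) l3 rfl rfl
      (by omega)
    have hwR : inR 0 W 0 H w := by unfold inR; omega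
    have hz : Reach (↑F : Set Edg) w (0, y1) := w3.symm.trans m13.symm
    by_cases hc : (n : ℤ) ≤ p.2
    · exact ⟨w, (x3, 0), hwR, by unfold sd; omega, by unfold sd; simp only; omega,
        w3.symm, hz⟩
    · refine ⟨w, (x3', H), hwR, by unfold sd; omega, by unfold sd; simp only; omega,
        w3.symm.trans (l3.mono Set.inter_subset_left), hz⟩
  · -- right side
    obtain ⟨w, w1, w2, w3⟩ := vpath (y := p.2) (by unfold inR; simp only; omega) l4 rfl rfl
      (by omega)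
    have hwR : inR 0 W 0 H w := by unfold inR; omega
    have hz : Reach (↑F : Set Edg) w (0, y1) := w3.symm.trans m14.symm
    by_cases hc : (n : ℤ) ≤ p.2
    · exact ⟨w, (x4, 0), hwR, by unfold sd; omega, by unfold sd; simp only; omega,
        w3.symm, hz⟩
    · refine ⟨w, (x4', H), hwR, by unfold sd; omega, by unfold sd; simp only; omega,
        w3.symm.trans (l4.mono Set.inter_subset_left), hz⟩
  · -- bottom
    obtain ⟨w, w1, w2, w3⟩ := hpath (x := p.1) (by unfold inR; simp only; omega) l1 rfl rfl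
      (by omega)
    have hwR : inR 0 W 0 H w := by unfold inR; omega
    by_cases hc : (n : ℤ) ≤ p.1
    · exact ⟨w, (0, y1), hwR, by unfold sd; omega, by unfold sd; simp only; omega,
        w3.symm, w3.symm⟩
    · refine ⟨w, (W, y1'), hwR, by unfold sd; omega, by unfold sd; simp only; omega,
        w3.symm.trans (l1.mono Set.inter_subset_left), w3.symm⟩
  · -- top
    obtain ⟨w, w1, w2, w3⟩ := hpath (x := p.1) (by unfold inR; simp only; omega) l2 rfl rfl
      (by omega)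
    have hwR : inR 0 W 0 H w := by unfold inR; omega
    have hz : Reach (↑F : Set Edg) w (0, y1) := w3.symm.trans (m23.trans m13.symm)
    by_cases hc : (n : ℤ) ≤ p.1
    · exact ⟨w, (0, y2), hwR, by unfold sd; omega, by unfold sd; simp only; omega,
        w3.symm, hz⟩
    · refine ⟨w, (W, y2'), hwR, by unfold sd; omega, by unfold sd; simp only; omega,
        w3.symm.trans (l2.mono Set.inter_subset_left), hz⟩

/-- the probability of the four crossings -/
theorem pr_Ring (κ : ℕ) : ∃ c : ℝ, 0 < c ∧ ∀ W H m : ℤ, 1 ≤ m → m ≤ W → m ≤ H → W ≤ κ * m →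
    H ≤ κ * m → c ≤ Pr P (RE 0 W 0 H) (Ring W H m) := by
  obtain ⟨c, hc, h⟩ := Pool.Agent.TH966.CC.rsw_all κ
  refine ⟨(c * c) * (c * c), by positivity, fun W H m hm hW hH hWκ hHκ => ?_⟩
  have e1 : c ≤ Pr P (RE 0 W 0 H) (LRc 0 W 0 m) := by
    have e : Pr P (RE 0 W 0 H) (LRc 0 W 0 m) = hh (1 / 2) (W - 0) (m - 0) :=
      pr_LRc (1 / 2) (LRE_subset_RE.trans (RE_subset le_rfl le_rfl le_rfl hH))
    rw [e, sub_zero, sub_zero]
    exact h W m hm (by omega) hWκ
  have e2 : c ≤ Pr P (RE 0 W 0 H) (LRc 0 W (H - m) H) := by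
    have e : Pr P (RE 0 W 0 H) (LRc 0 W (H - m) H) = hh (1 / 2) (W - 0) (H - (H - m)) :=
      pr_LRc (1 / 2) (LRE_subset_RE.trans (RE_subset le_rfl le_rfl (by omega) le_rfl))
    rw [e, sub_zero, sub_sub_cancel]
    exact h W m hm (by omega) hWκ
  have e3 : c ≤ Pr P (RE 0 W 0 H) (TBc 0 m 0 H) := by
    have e : Pr P (RE 0 W 0 H) (TBc 0 m 0 H) = hh (1 / 2) (H - 0) (m - 0) :=
      pr_TBc (1 / 2) (TBE_subset_RE.trans (RE_subset le_rfl hW le_rfl le_rfl))
    rw [e, sub_zero, sub_zero]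
    exact h H m hm (by omega) hHκ
  have e4 : c ≤ Pr P (RE 0 W 0 H) (TBc (W - m) W 0 H) := by
    have e : Pr P (RE 0 W 0 H) (TBc (W - m) W 0 H) = hh (1 / 2) (H - 0) (W - (W - m)) :=
      pr_TBc (1 / 2) (TBE_subset_RE.trans (RE_subset (by omega) le_rfl le_rfl le_rfl))
    rw [e, sub_zero, sub_sub_cancel]
    exact h H m hm (by omega) hHκ
  have i1 : IncrE (RE 0 W 0 H) (LRc 0 W 0 m) := LRc_incr _ _ _ _ _
  have i2 : IncrE (RE 0 W 0 H) (LRc 0 W (H - m) H) := LRc_incr _ _ _ _ _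
  have i3 : IncrE (RE 0 W 0 H) (TBc 0 m 0 H) := TBc_incr _ _ _ _ _
  have i4 : IncrE (RE 0 W 0 H) (TBc (W - m) W 0 H) := TBc_incr _ _ _ _ _
  have q1 := fkg i1 i2 hc.le e1 e2
  have q2 := fkg i3 i4 hc.le e3 e4
  exact fkg (incr_and i1 i2) (incr_and i3 i4) (by positivity) q1 q2

/-- **lower bound for two boundary intervals at macroscopic distance** -/
theorem mac_low (hA : Pool.Agent.H389R2.CD.ArS) (κ : ℕ) : ∃ c : ℝ, 0 < c ∧
    ∀ (W H W' H' W'' H'' : ℤ) (ch : Chart W H W' H') (ch' : Chart W H W'' H'')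
      (a b t a' b' t' : ℤ) (r r' n : ℕ), 1 ≤ r → 1 ≤ r' → (r : ℤ) = b - a + 1 →
      (r' : ℤ) = b' - a' + 1 → a ≤ t → t ≤ b → a' ≤ t' → t' ≤ b' → r ≤ n → r' ≤ n →
      W ≤ κ * n → H ≤ κ * n → 6 * (n : ℤ) ≤ W → 6 * (n : ℤ) ≤ H →
      Bd W H (ch.g.ψ.symm (bt t)) → Bd W H (ch'.g.ψ.symm (bt t')) →
      qb (bt t) (9 * n) ⊆ RE 0 W' 0 H' → qb (bt t') (9 * n) ⊆ RE 0 W'' 0 H'' →
      c * (((Mf t r / Mf t n) ^ ((1 : ℝ) / 3)) * ((Mf t' r' / Mf t' n) ^ ((1 : ℝ) / 3))) ≤
        Pr P (RE 0 W 0 H) (fun F => ∃ x y : ℤ, (a ≤ x ∧ x ≤ b) ∧ (a' ≤ y ∧ y ≤ b') ∧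
          Reach (↑F) (ch.g.ψ.symm (bt x)) (ch'.g.ψ.symm (bt y))) := by
  obtain ⟨c1, hc1, hI⟩ := IA_low
  obtain ⟨K, hK⟩ := ratio_cmp hA
  obtain ⟨c2, hc2, hR⟩ := pr_Ring κ
  have hK1 : 1 ≤ K := (hK 0 1 1 le_rfl le_rfl).hk
  have hK0 : 0 < K := by linarith
  have k40 := k4_pos
  have kd0 := kd_pos
  refine ⟨(c1 * (kd * K⁻¹)) * (c1 * (kd * K⁻¹)) * (k4 * k4) * c2, by positivity, ?_⟩
  intro W H W' H' W'' H'' ch ch' a b t a' b' t' r r' n hr hr' hrr hrr' hat htb hat' htb' hrn hrn'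
    hWκ hHκ hW6 hH6 hB hB' hq hq'
  have hn : 1 ≤ n := hr.trans hrn
  have arm : ∀ {W' H' : ℤ} (ch : Chart W H W' H') (a b t : ℤ) (r : ℕ), 1 ≤ r →
      (r : ℤ) = b - a + 1 → a ≤ t → t ≤ b → r ≤ n → qb (bt t) (9 * n) ⊆ RE 0 W' 0 H' →
      c1 * (kd * K⁻¹) * ((Mf t r / Mf t n) ^ ((1 : ℝ) / 3)) ≤
        Pr P (RE 0 W 0 H) (IAR ch a b (ch.g.ψ.symm (bt t)) (3 * n)) := by
    intro W' H' ch a b t r hr hrr hat htb hrn hq
    have h1 := hI a b t r (3 * n) hr hrr hat htb (by omega) (RE 0 W' 0 H')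
      (by have := ch.inQ; rwa [ch.img] at this)
      ((qb_mono (by omega)).trans hq)
    have h2 := aq_dbl (bt_in t) n
    have h3 := aq_pos (bt_in t) r
    have g1 := hK t r n hr hn
    have h4 : kd * K⁻¹ * ((Mf t r / Mf t n) ^ ((1 : ℝ) / 3)) ≤ aq (bt t) (3 * n) / aq (bt t) r := by
      have l1 : K⁻¹ * (Mf t r / Mf t n) ^ ((1 : ℝ) / 3) ≤ aq (bt t) n / aq (bt t) r := by
        rw [inv_mul_eq_div, div_le_iff₀ hK0, mul_comm]
        exact g1.r
      calc kd * K⁻¹ * ((Mf t r / Mf t n) ^ ((1 : ℝ) / 3)) =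
          kd * (K⁻¹ * (Mf t r / Mf t n) ^ ((1 : ℝ) / 3)) := by ring
        _ ≤ kd * (aq (bt t) n / aq (bt t) r) := mul_le_mul_of_nonneg_left l1 kd0.le
        _ = (kd * aq (bt t) n) / aq (bt t) r := by ring
        _ ≤ _ := div_le_div_of_nonneg_right h2 h3.le
    apply pr_IAR
    rw [Equiv.apply_symm_apply]
    refine le_trans ?_ h1
    rw [mul_assoc]
    exact mul_le_mul_of_nonneg_left h4 hc1.le
  set p := ch.g.ψ.symm (bt t) with hp
  set p' := ch'.g.ψ.symm (bt t') with hp'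
  have P1 := arm ch a b t r hr hrr hat htb hrn hq
  have P2 := arm ch' a' b' t' r' hr' hrr' hat' htb' hrn' hq'
  rw [← hp] at P1
  rw [← hp'] at P2
  have P3 : k4 ≤ Pr P (RE 0 W 0 H) (CQR ch p n) := pr_CQR ch hB.1 hn (by
    rw [hp, Equiv.apply_symm_apply]; exact (qb_mono (by omega)).trans hq)
  have P4 : k4 ≤ Pr P (RE 0 W 0 H) (CQR ch' p' n) := pr_CQR ch' hB'.1 hn (by
    rw [hp', Equiv.apply_symm_apply]; exact (qb_mono (by omega)).trans hq')
  have P5 := hR W H n (by exact_mod_cast hn) (by omega) (by omega) hWκ hHκ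
  have e1 : 0 ≤ Mf t r / Mf t n :=
    div_nonneg (Mf_pos t (by exact_mod_cast hr)).le (Mf_pos t (by exact_mod_cast hn)).le
  have e2 : 0 ≤ Mf t' r' / Mf t' n :=
    div_nonneg (Mf_pos t' (by exact_mod_cast hr')).le (Mf_pos t' (by exact_mod_cast hn)).le
  have i1 := IAR_incr (RE 0 W 0 H) ch a b p (3 * n)
  have i2 := IAR_incr (RE 0 W 0 H) ch' a' b' p' (3 * n)
  have i3 := CQR_incr (RE 0 W 0 H) ch p n
  have i4 := CQR_incr (RE 0 W 0 H) ch' p' n
  have i5 := Ring_incr (RE 0 W 0 H) W H n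
  have q1 := fkg i1 i2 (by positivity) P1 P2
  have q2 := fkg i3 i4 k40.le P3 P4
  have q3 := fkg (incr_and i1 i2) (incr_and i3 i4) (by positivity) q1 q2
  have q4 := fkg (incr_and (incr_and i1 i2) (incr_and i3 i4)) i5 hc2.le q3 P5
  refine le_trans (le_of_eq ?_) (q4.trans (Pr_mono okP ?_))
  · ring
  · rintro F hF ⟨⟨⟨A1, A2⟩, A3, A4⟩, A5⟩
    obtain ⟨z, hz⟩ := ring_meet (k := n) (n := 3 * n) (by exact_mod_cast hn) le_rfl
      (by push_cast; omega) (by push_cast; omega) (by omega) (by omega) A5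
    obtain ⟨z1, hz1⟩ := CQR_meet ch hB.1 hn hF A3
    obtain ⟨z2, hz2⟩ := CQR_meet ch' hB'.1 hn hF A4
    obtain ⟨u, v, u1, u2, u3, u4, u5⟩ := hz p hB
    obtain ⟨u', v', u1', u2', u3', u4', u5'⟩ := hz p' hB'
    obtain ⟨x, w, x1, x2, x3⟩ := A1
    obtain ⟨y, w', y1, y2, y3⟩ := A2
    have hx : inR 0 W 0 H (ch.g.ψ.symm (bt x)) ∧ sd (ch.g.ψ.symm (bt x)) p ≤ n := by
      have h1 : sd (ch.g.ψ.symm (bt x)) p = sd (bt x) (bt t) := by
        rw [← ch.iso, Equiv.apply_symm_apply, hp, Equiv.apply_symm_apply]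
      refine ⟨?_, ?_⟩
      · rw [← ch.inr, Equiv.apply_symm_apply]
        have hb := bt_in x
        have hb2 := (qb_ends (c := bt t) (m := 9 * n) (e := (0, 0, true)))
        have hs : sd (bt x) (bt t) ≤ n := sd_bt_le (by omega) (by omega)
        have hsub : bt x ∈ {w : Vtx | inR 0 W' 0 H' w} := by
          have hRt : inR 0 W' 0 H' (bt t) := by
            have := (ch.inr p).mpr hB.1
            rwa [hp, Equiv.apply_symm_apply] at this
          have hW' : (bt t).1 + 9 * n ≤ W' := by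
            have hm : ((bt t).1 + 9 * n - 1, (bt t).2, true) ∈ qb (bt t) (9 * n) := by
              unfold qb
              rw [mem_RE_true]
              have := bt_in t
              unfold InV at this
              push_cast
              omega
            have := hq hm
            rw [mem_RE_true] at this
            omega
          have hH' : (bt t).2 + 9 * n ≤ H' := by
            have hm : ((bt t).1, (bt t).2 + 9 * n - 1, false) ∈ qb (bt t) (9 * n) := by
              unfold qb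
              rw [mem_RE_false]
              have := bt_in t
              unfold InV at this
              push_cast
              omega
            have := hq hm
            rw [mem_RE_false] at this
            omega
          unfold sd at hs
          unfold InV at hb
          show inR 0 W' 0 H' (bt x)
          unfold inR
          omega
        exact hsub
      · rw [h1]
        exact sd_bt_le (by omega) (by omega)
    have hy : inR 0 W 0 H (ch'.g.ψ.symm (bt y)) ∧ sd (ch'.g.ψ.symm (bt y)) p' ≤ n := by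
      have h1 : sd (ch'.g.ψ.symm (bt y)) p' = sd (bt y) (bt t') := by
        rw [← ch'.iso, Equiv.apply_symm_apply, hp', Equiv.apply_symm_apply]
      refine ⟨?_, ?_⟩
      · rw [← ch'.inr, Equiv.apply_symm_apply]
        have hb := bt_in y
        have hs : sd (bt y) (bt t') ≤ n := sd_bt_le (by omega) (by omega)
        have hW' : (bt t').1 + 9 * n ≤ W'' := by
          have hm : ((bt t').1 + 9 * n - 1, (bt t').2, true) ∈ qb (bt t') (9 * n) := by
            unfold qb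
            rw [mem_RE_true]
            have := bt_in t'
            unfold InV at this
            push_cast
            omega
          have := hq' hm
          rw [mem_RE_true] at this
          omega
        have hH' : (bt t').2 + 9 * n ≤ H'' := by
          have hm : ((bt t').1, (bt t').2 + 9 * n - 1, false) ∈ qb (bt t') (9 * n) := by
            unfold qb
            rw [mem_RE_false]
            have := bt_in t'
            unfold InV at this
            push_cast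
            omega
          have := hq' hm
          rw [mem_RE_false] at this
          omega
        unfold sd at hs
        unfold InV at hb
        show inR 0 W'' 0 H'' (bt y)
        unfold inR
        omega
      · rw [h1]
        exact sd_bt_le (by omega) (by omega)
    have j1 := hz1 _ _ hx.1 hx.2 x2 x3
    have j2 := hz2 _ _ hy.1 hy.2 y2 y3
    have j3 := hz1 u v u1 u2 u3 u4
    have j4 := hz2 u' v' u1' u2' u3' u4'
    exact ⟨x, y, x1, y1, j1.trans (j3.symm.trans (u5.trans (u5'.symm.trans (j4.trans j2.symm))))⟩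

end Pool.Agent.R966.RC
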