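import Pool.Agent.R966.RC.Up2
import Pool.Agent.R966.RC.Ring

/-!
Rectangles: tools for the lower bound.
-/

set_option autoImplicit false

namespace Pool.Agent.R966.RG

open Complex (I)
open Finset H974 Pool.Agent.H160R2.CV TH976 TH976.QC Pool.Agent.R966.RC
open Pool.Agent.H160R2.CV.Quad

section
variable {A B : ℝ} {f : ℂ → ℂ} {s κ K m θ0 A' B' : ℝ} {fk : ℂ → ℂ} {τ : ℝ → ℝ}

theorem Win.mr (w : Win A B f s κ K m θ0 A' B' fk τ) (hκ : 0 < κ) {θ θ' : ℝ}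
    (h1 : θ0 - s ≤ θ) (h2 : θ < θ') (h3 : θ' ≤ θ0 + s) :
    κ * (θ' - θ) / 3 ≤ MR (τ θ) (τ θ' - τ θ) ∧ MR (τ θ) (τ θ' - τ θ) ≤ 2 * K * (θ' - θ) ∧
    κ * (θ' - θ) / 3 ≤ MR (τ θ') (τ θ' - τ θ) ∧ MR (τ θ') (τ θ' - τ θ) ≤ 2 * K * (θ' - θ) := by
  have h0 := w.lt hκ h1 h2 h3
  obtain ⟨a1, a2⟩ := w.bl θ θ' h1 h2.le h3
  have b := sqr_add (τ θ) (n := τ θ' - τ θ) (by linarith)
  have c := sqr_sub (τ θ') (n := τ θ' - τ θ) (by linarith)
  rw [add_sub_cancel] at b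
  rw [sub_sub_cancel] at c
  refine ⟨?_, ?_, ?_, ?_⟩ <;> linarith [b.1, b.2, c.1, c.2]

/-- integers between two boundary points -/
theorem Win.ivl (w : Win A B f s κ K m θ0 A' B' fk τ) {ε : ℝ} (hε : 0 < ε) {θ θ' : ℝ} (x : ℤ)
    (h : θ ≤ θ') (h1 : round (τ θ / ε) ≤ x) (h2 : x ≤ round (τ θ' / ε)) :
    ∃ t, θ ≤ t ∧ t ≤ θ' ∧ |ε * x - τ t| ≤ ε / 2 := by
  have r1 := abs_le.mp (rnd hε (τ θ))
  have r2 := abs_le.mp (rnd hε (τ θ'))
  have x1 : ε * (round (τ θ / ε) : ℝ) ≤ ε * x :=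
    mul_le_mul_of_nonneg_left (by exact_mod_cast h1) hε.le
  have x2 : ε * x ≤ ε * (round (τ θ' / ε) : ℝ) :=
    mul_le_mul_of_nonneg_left (by exact_mod_cast h2) hε.le
  rcases le_total (ε * x) (τ θ) with h3 | h3
  · exact ⟨θ, le_rfl, h, by rw [abs_le]; constructor <;> linarith⟩
  · rcases le_total (τ θ') (ε * x) with h4 | h4
    · exact ⟨θ', h, le_rfl, by rw [abs_le]; constructor <;> linarith⟩
    · obtain ⟨t, ht, ht2⟩ := intermediate_value_Icc h w.cont.continuousOn ⟨h3, h4⟩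
      exact ⟨t, ht.1, ht.2, by rw [ht2, sub_self, abs_zero]; linarith⟩

theorem le_floor' {ε A : ℝ} (hε : 0 < ε) {x : ℤ} (h : ε * x ≤ A) : x ≤ ⌊A / ε⌋ := by
  rw [Int.le_floor, le_div_iff₀ hε]
  linarith

/-- boxes around boundary vertices -/
theorem box_in {ε : ℝ} (hε : 0 < ε) (hA' : m ≤ A') (hB' : m ≤ B') (hεm : ε ≤ m / 4)
    {y : ℝ} (y1 : -(B' - m) ≤ y) (y2 : y ≤ A' - m) {x : ℤ} (hx : |ε * x - y| ≤ ε / 2) :
    inR 0 ⌊A' / ε⌋ 0 ⌊B' / ε⌋ (bt x) ∧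
    ∀ k : ℕ, ε * k ≤ m / 2 → qb (bt x) k ⊆ RE 0 ⌊A' / ε⌋ 0 ⌊B' / ε⌋ := by
  rw [abs_le] at hx
  have b1 : ((bt x).1 : ℝ) = max (x : ℝ) 0 := by unfold bt; push_cast; rfl
  have b2 : ((bt x).2 : ℝ) = max (-(x : ℝ)) 0 := by unfold bt; push_cast; rfl
  have c1 : ε * ((bt x).1 : ℝ) ≤ A' - m + ε / 2 := by
    rw [b1, mul_max_of_nonneg _ _ hε.le, mul_zero]
    apply max_le <;> linarith
  have c2 : ε * ((bt x).2 : ℝ) ≤ B' - m + ε / 2 := by
    rw [b2, mul_max_of_nonneg _ _ hε.le, mul_zero]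
    apply max_le <;> linarith
  have hin := bt_in x
  unfold InV at hin
  have key : ∀ k : ℕ, ε * k ≤ m / 2 → (bt x).1 + k ≤ ⌊A' / ε⌋ ∧ (bt x).2 + k ≤ ⌊B' / ε⌋ := by
    intro k hk
    constructor
    · apply le_floor' hε
      push_cast
      linarith
    · apply le_floor' hε
      push_cast
      linarith
  constructor
  · have := key 0 (by push_cast; linarith)
    unfold inR
    push_cast at this
    omega
  · intro k hk
    have := key k hk
    unfold qb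
    exact RE_subset (by omega) this.1 (by omega) this.2

end

/-- boundary vertices in a chart -/
theorem bdr {W H W' H' : ℤ} (c : Chart W H W' H') {x : ℤ} (h : inR 0 W' 0 H' (bt x)) :
    Bd W H (c.g.ψ.symm (bt x)) := by
  have h1 : inR 0 W 0 H (c.g.ψ.symm (bt x)) := by
    rw [← c.inr, Equiv.apply_symm_apply]
    exact h
  obtain ⟨q, hq1, hq2⟩ : ∃ q : Vtx, sd q (bt x) ≤ 1 ∧ ¬ inR 0 W' 0 H' q := by
    rcases le_total 0 x with h2 | h2
    · refine ⟨(x, -1), ?_, ?_⟩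
      · unfold sd bt
        simp only
        omega
      · unfold inR
        simp only
        omega
    · refine ⟨(-1, -x), ?_, ?_⟩
      · unfold sd bt
        simp only
        omega
      · unfold inR
        simp only
        omega
  have h3 : ¬ inR 0 W 0 H (c.g.ψ.symm q) := by
    rw [← c.inr, Equiv.apply_symm_apply]
    exact hq2
  have h4 : sd (c.g.ψ.symm q) (c.g.ψ.symm (bt x)) ≤ 1 := by
    rw [← c.iso, Equiv.apply_symm_apply, Equiv.apply_symm_apply]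
    exact hq1
  refine ⟨h1, ?_⟩
  unfold inR at h1 h3
  unfold sd at h4
  omega

/-- an arc against a gap -/
theorem arcf {ε κ K σ y a d x z : ℝ} {t : ℤ} {r g : ℕ} (hε : 0 < ε) (hκ : 0 < κ) (hK : 0 < K)
    (hσ : 0 < σ) (ha : 0 < a) (hd : 0 < d) (hdσ : d ≤ σ) (ht : |ε * t - y| ≤ ε / 2) (hr : 1 ≤ r)
    (hg : 1 ≤ g) (hx : 0 < x) (hz : 0 < z) (hxr : x ≤ ε * r) (hzg : 2 ≤ g → ε * g ≤ 2 * z)
    (h1 : κ * min a σ / 3 ≤ MR y x) (h2 : MR y z ≤ 2 * K * d) :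
    ea a d ≤ (1 + 96 * K / κ) * qf t r g := by
  have ea0 : 0 < ea a d := by unfold ea; positivity
  have ea1 : ea a d ≤ 1 := by
    unfold ea
    rw [div_le_one (by positivity)]
    linarith
  have hr1 : (1 : ℝ) ≤ r := by exact_mod_cast hr
  have hg1 : (1 : ℝ) ≤ g := by exact_mod_cast hg
  have m3 : 0 < Mf t r := Mf_pos t (by linarith)
  have m4 : 0 < Mf t g := Mf_pos t (by linarith)
  have q0 : 0 ≤ 96 * K / κ := by positivity
  have hqf : ea a d ≤ (1 + 96 * K / κ) * 1 := by linarith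
  unfold qf
  rcases Nat.lt_or_ge 1 g with h | h
  · have hz2 := hzg (by omega)
    rw [mul_min_of_nonneg _ _ (by positivity)]
    refine le_min hqf ?_
    have e1 : κ * min a σ ≤ 6 * (ε ^ 2 * Mf t r) := by
      have l1 := (Mf_MR (t := t) hε hr1 ht).2
      have l2 := MR_mono y hx.le hxr
      linarith
    have e2 : ε ^ 2 * Mf t g ≤ 16 * K * d := by
      have l1 := (Mf_MR (t := t) hε hg1 ht).1
      have l2 := MR_mono y (by positivity) hz2
      have l3 := MR_scale y (x := z) (k := 2) hz.le (by norm_num)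
      linarith
    have e3 : ea a d * d ≤ min a σ := by
      unfold ea
      have h3 : a / (a + d) * d = a * (d / (a + d)) := by ring
      apply le_min
      · rw [h3]
        apply mul_le_of_le_one_right ha.le
        rw [div_le_one (by positivity)]
        linarith
      · calc a / (a + d) * d ≤ 1 * d := mul_le_mul_of_nonneg_right ea1 hd.le
          _ ≤ σ := by linarith
    have e4 : ea a d * Mf t g ≤ 96 * K / κ * Mf t r := by
      refine le_of_mul_le_mul_left ?_ (by positivity : 0 < ε ^ 2)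
      calc ε ^ 2 * (ea a d * Mf t g) = ea a d * (ε ^ 2 * Mf t g) := by ring
        _ ≤ ea a d * (16 * K * d) := mul_le_mul_of_nonneg_left e2 ea0.le
        _ = 16 * K * (ea a d * d) := by ring
        _ ≤ 16 * K * min a σ := mul_le_mul_of_nonneg_left e3 (by positivity)
        _ = 16 * K / κ * (κ * min a σ) := by field_simp
        _ ≤ 16 * K / κ * (6 * (ε ^ 2 * Mf t r)) := mul_le_mul_of_nonneg_left e1 (by positivity)
        _ = ε ^ 2 * (96 * K / κ * Mf t r) := by ring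
    rw [mul_div_assoc', le_div_iff₀ m4]
    refine e4.trans ?_
    rw [add_mul, one_mul]
    linarith
  · have : g = 1 := by omega
    subst this
    have e1 : Mf t (1 : ℕ) ≤ Mf t r := Mf_mono t (by positivity) (by exact_mod_cast hr)
    rw [min_eq_left ((one_le_div m4).mpr e1)]
    exact hqf

/-- the relative size of an arc, for a macroscopic gap -/
theorem ea_mac {a d σ : ℝ} (ha : 0 < a) (hσ : 0 < σ) (hd : σ ≤ d) :
    ea a d ≤ 2 / σ * min a σ := by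
  unfold ea
  have hd0 : 0 < d := by linarith
  rw [mul_min_of_nonneg _ _ (by positivity)]
  apply le_min
  · rw [div_le_iff₀ (by positivity)]
    have h1 : 1 ≤ 2 / σ * (a + d) := by
      rw [div_mul_eq_mul_div, le_div_iff₀ hσ]
      linarith
    calc a = a * 1 := (mul_one a).symm
      _ ≤ a * (2 / σ * (a + d)) := mul_le_mul_of_nonneg_left h1 ha.le
      _ = _ := by ring
  · rw [div_mul_cancel₀ _ hσ.ne']
    have : a / (a + d) ≤ 1 := by
      rw [div_le_one (by positivity)]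
      linarith
    linarith

/-- the small distance -/
theorem small {y x K σ η : ℝ} (hx : 0 ≤ x) (hη : 0 ≤ η) (h1 : MR y x ≤ 2 * K * σ)
    (h2 : 2 * K * σ ≤ η ^ 2) : x ≤ η := by
  have h3 := le_MR y hx
  exact (pow_le_pow_iff_left₀ hx hη (by norm_num)).mp (h3.trans (h1.trans h2))

section
variable {A B : ℝ} {f : ℂ → ℂ} {s κ K m θ0 A' B' : ℝ} {fk : ℂ → ℂ} {τ : ℝ → ℝ}

/-- a boundary vertex near an arc -/
theorem Win.nr (w : Win A B f s κ K m θ0 A' B' fk τ) {ε : ℝ} (hε : 0 < ε) (hA' : m ≤ A')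
    (hB' : m ≤ B') (hεm : ε ≤ m / 4) {c : Chart ⌊A / ε⌋ ⌊B / ε⌋ ⌊A' / ε⌋ ⌊B' / ε⌋}
    (hc : ∀ (t : ℤ) (θ : ℝ), θ0 - s ≤ θ → θ ≤ θ0 + s →
      ‖pos ε (c.g.ψ.symm (bt t)) - f (cir θ)‖ ≤ |ε * t - τ θ| + 3 / 2 * ε) {θ θ' : ℝ}
    (h1 : θ0 - s ≤ θ) (h2 : θ ≤ θ') (h3 : θ' ≤ θ0 + s) {x : ℤ}
    (h4 : round (τ θ / ε) ≤ x) (h5 : x ≤ round (τ θ' / ε)) :
    inR 0 ⌊A / ε⌋ 0 ⌊B / ε⌋ (c.g.ψ.symm (bt x)) ∧
    ∃ t, θ ≤ t ∧ t ≤ θ' ∧ ‖pos ε (c.g.ψ.symm (bt x)) - f (cir t)‖ ≤ 2 * ε := by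
  obtain ⟨t, t1, t2, t3⟩ := w.ivl hε x h2 h4 h5
  obtain ⟨-, l1, l2⟩ := w.loc t (by linarith) (by linarith)
  constructor
  · rw [← c.inr, Equiv.apply_symm_apply]
    exact (box_in hε hA' hB' hεm l1 l2 t3).1
  · refine ⟨t, t1, t2, ?_⟩
    have := hc x t (by linarith) (by linarith)
    linarith

end

end Pool.Agent.R966.RG
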