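import Pool.Agent.R966.RC.Low

/-!
Rectangles: the lower bound for arcs at small distance.
-/

set_option autoImplicit false

namespace Pool.Agent.R966.RG

open Complex (I)
open Finset H974 Pool.Agent.H160R2.CV TH976 TH976.QC Pool.Agent.R966.RC
open Pool.Agent.H160R2.CV.Quad

theorem rnd_mono {ε x y : ℝ} (hε : 0 < ε) (h : x ≤ y) : round (x / ε) ≤ round (y / ε) := by
  rw [round_eq, round_eq]
  apply Int.floor_mono
  have : x / ε ≤ y / ε := div_le_div_of_nonneg_right h hε.le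
  linarith

theorem low_loc (hA : Pool.Agent.H389R2.CD.ArS) {A B : ℝ} {f : ℂ → ℂ} {s κ K m σ : ℝ}
    (hκ : 0 < κ) (hK : 0 < K) (hm : 0 < m) (hmA : m ≤ A) (hmB : m ≤ B)
    (hσ : 0 < σ) (hσs : σ ≤ s / 2) (hσm : 2 * K * σ ≤ (m / 200) ^ 2) :
    ∃ c : ℝ, 0 < c ∧ ∀ (ε θ1 θ2 θ3 θ4 A' B' : ℝ) (fk : ℂ → ℂ) (τ : ℝ → ℝ),
      Win A B f s κ K m θ2 A' B' fk τ → 0 < ε → ε ≤ m / 200 → θ1 < θ2 → θ2 < θ3 → θ3 < θ4 →
      θ3 - θ2 ≤ σ →
      c * (ea (θ2 - θ1) (θ3 - θ2) * ea (θ4 - θ3) (θ3 - θ2)) ^ ((1 : ℝ) / 3) ≤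
        Pr P (RE 0 ⌊A / ε⌋ 0 ⌊B / ε⌋) (EV A B f ε θ1 θ2 θ3 θ4) := by
  obtain ⟨c1, hc1, hL⟩ := low_exp hA
  obtain ⟨C, hC⟩ : ∃ C, C = 1 + 96 * K / κ := ⟨_, rfl⟩
  have C0 : 0 < C := by rw [hC]; positivity
  have CC : 0 < (C * C) ^ ((1 : ℝ) / 3) := by positivity
  refine ⟨min 1 (c1 / (C * C) ^ ((1 : ℝ) / 3)), lt_min one_pos (by positivity), ?_⟩
  intro ε θ1 θ2 θ3 θ4 A' B' fk τ w hε hεm t1 t2 t3 hdσ
  have hA' : m ≤ A' ∧ m ≤ B' := by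
    rcases w.side with ⟨h1, h2⟩ | ⟨h1, h2⟩ <;> rw [h1, h2]
    · exact ⟨hmA, hmB⟩
    · exact ⟨hmB, hmA⟩
  obtain ⟨c, hc⟩ := w.ps hε
  obtain ⟨φ1, hφ1⟩ : ∃ φ, φ = θ2 - min (θ2 - θ1) σ := ⟨_, rfl⟩
  obtain ⟨φ4, hφ4⟩ : ∃ φ, φ = θ3 + min (θ4 - θ3) σ := ⟨_, rfl⟩
  have ma : 0 < min (θ2 - θ1) σ := lt_min (by linarith) hσ
  have mb : 0 < min (θ4 - θ3) σ := lt_min (by linarith) hσ
  have ma1 : min (θ2 - θ1) σ ≤ θ2 - θ1 := min_le_left _ _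
  have ma2 : min (θ2 - θ1) σ ≤ σ := min_le_right _ _
  have mb1 : min (θ4 - θ3) σ ≤ θ4 - θ3 := min_le_left _ _
  have mb2 : min (θ4 - θ3) σ ≤ σ := min_le_right _ _
  have o1 : θ2 - s ≤ φ1 := by linarith
  have o2 : φ1 < θ2 := by linarith
  have o3 : θ3 < φ4 := by linarith
  have o4 : φ4 ≤ θ2 + s := by linarith
  have o5 : θ1 ≤ φ1 := by linarith
  have o6 : φ4 ≤ θ4 := by linarith
  have hεm4 : ε ≤ m / 4 := by linarith
  obtain ⟨ai, hai⟩ : ∃ x, x = round (τ φ1 / ε) := ⟨_, rfl⟩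
  obtain ⟨bi, hbi⟩ : ∃ x, x = round (τ θ2 / ε) := ⟨_, rfl⟩
  obtain ⟨ci, hci⟩ : ∃ x, x = round (τ θ3 / ε) := ⟨_, rfl⟩
  obtain ⟨di, hdi⟩ : ∃ x, x = round (τ φ4 / ε) := ⟨_, rfl⟩
  have ra := abs_le.mp (rnd hε (τ φ1))
  have rb' := rnd hε (τ θ2)
  have rb := abs_le.mp rb'
  have rc' := rnd hε (τ θ3)
  have rc := abs_le.mp rc'
  have rd := abs_le.mp (rnd hε (τ φ4))
  rw [← hai] at ra
  rw [← hbi] at rb rb'
  rw [← hci] at rc rc'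
  rw [← hdi] at rd
  have l12 := w.lt hκ (θ := φ1) (θ' := θ2) o1 o2 (by linarith)
  have l23 := w.lt hκ (θ := θ2) (θ' := θ3) (by linarith) t2 (by linarith)
  have l34 := w.lt hκ (θ := θ3) (θ' := φ4) (by linarith) o3 o4
  have iab : ai ≤ bi := by rw [hai, hbi]; exact rnd_mono hε l12.le
  have ibc : bi ≤ ci := by rw [hbi, hci]; exact rnd_mono hε l23.le
  have icd : ci ≤ di := by rw [hci, hdi]; exact rnd_mono hε l34.le
  have N1 : ∀ x : ℤ, ai ≤ x → x ≤ bi → inR 0 ⌊A / ε⌋ 0 ⌊B / ε⌋ (c.g.ψ.symm (bt x)) ∧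
      ∃ t, θ1 ≤ t ∧ t ≤ θ2 ∧ ‖pos ε (c.g.ψ.symm (bt x)) - f (cir t)‖ ≤ 2 * ε := by
    intro x h1 h2
    obtain ⟨h3, t, h4, h5, h6⟩ := w.nr hε hA'.1 hA'.2 hεm4 hc (θ := φ1) (θ' := θ2) o1 o2.le
      (by linarith) (x := x) (by rw [← hai]; exact h1) (by rw [← hbi]; exact h2)
    exact ⟨h3, t, by linarith, h5, h6⟩
  have N2 : ∀ x : ℤ, ci ≤ x → x ≤ di → inR 0 ⌊A / ε⌋ 0 ⌊B / ε⌋ (c.g.ψ.symm (bt x)) ∧
      ∃ t, θ3 ≤ t ∧ t ≤ θ4 ∧ ‖pos ε (c.g.ψ.symm (bt x)) - f (cir t)‖ ≤ 2 * ε := by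
    intro x h1 h2
    obtain ⟨h3, t, h4, h5, h6⟩ := w.nr hε hA'.1 hA'.2 hεm4 hc (θ := θ3) (θ' := φ4)
      (by linarith) o3.le o4 (x := x) (by rw [← hci]; exact h1) (by rw [← hdi]; exact h2)
    exact ⟨h3, t, h4, by linarith, h6⟩
  have ea0 : 0 < ea (θ2 - θ1) (θ3 - θ2) := by
    have h1 : 0 < θ2 - θ1 := by linarith
    have h2 : 0 < θ3 - θ2 := by linarith
    unfold ea; positivity
  have eb0 : 0 < ea (θ4 - θ3) (θ3 - θ2) := by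
    have h1 : 0 < θ4 - θ3 := by linarith
    have h2 : 0 < θ3 - θ2 := by linarith
    unfold ea; positivity
  have ea1 : ea (θ2 - θ1) (θ3 - θ2) ≤ 1 := by
    unfold ea; rw [div_le_one (by linarith)]; linarith
  have eb1 : ea (θ4 - θ3) (θ3 - θ2) ≤ 1 := by
    unfold ea; rw [div_le_one (by linarith)]; linarith
  rcases ibc.lt_or_eq with hlt | heq
  · -- a positive gap
    obtain ⟨r, hr⟩ : ∃ r : ℕ, (r : ℤ) = bi - ai + 1 :=
      ⟨(bi - ai + 1).toNat, Int.toNat_of_nonneg (by omega)⟩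
    obtain ⟨q, hq⟩ : ∃ q : ℕ, (q : ℤ) = di - ci + 1 :=
      ⟨(di - ci + 1).toNat, Int.toNat_of_nonneg (by omega)⟩
    obtain ⟨g, hg⟩ : ∃ g : ℕ, (g : ℤ) = ci - bi :=
      ⟨(ci - bi).toNat, Int.toNat_of_nonneg (by omega)⟩
    have hr1 : 1 ≤ r := by omega
    have hq1 : 1 ≤ q := by omega
    have hg1 : 1 ≤ g := by omega
    have er : (r : ℝ) = bi - ai + 1 := by exact_mod_cast hr
    have eq' : (q : ℝ) = di - ci + 1 := by exact_mod_cast hq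
    have eg : (g : ℝ) = ci - bi := by exact_mod_cast hg
    have hgz : ε * g ≤ (τ θ3 - τ θ2) + ε := by
      rw [eg, mul_sub]
      linarith
    have hzg : 2 ≤ g → ε * g ≤ 2 * (τ θ3 - τ θ2) := by
      intro h
      have h1 : (2 : ℝ) ≤ g := by exact_mod_cast h
      have h2 : ε * 2 ≤ ε * g := mul_le_mul_of_nonneg_left h1 hε.le
      linarith
    have m12 := w.mr hκ (θ := φ1) (θ' := θ2) o1 o2 (by linarith)
    have m23 := w.mr hκ (θ := θ2) (θ' := θ3) (by linarith) t2 (by linarith)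
    have m34 := w.mr hκ (θ := θ3) (θ' := φ4) (by linarith) o3 o4
    have e12 : θ2 - φ1 = min (θ2 - θ1) σ := by rw [hφ1]; ring
    have e34 : φ4 - θ3 = min (θ4 - θ3) σ := by rw [hφ4]; ring
    rw [e12] at m12
    rw [e34] at m34
    have F1 := arcf (t := bi) (r := r) (g := g) (x := τ θ2 - τ φ1) (z := τ θ3 - τ θ2)
      (y := τ θ2) (a := θ2 - θ1) (d := θ3 - θ2) (σ := σ) hε hκ hK hσ
      (by linarith) (by linarith) hdσ rb' hr1 hg1 (by linarith) (by linarith)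
      (by rw [er, mul_add, mul_sub]; linarith) hzg m12.2.2.1 m23.2.1
    have F2 := arcf (t := ci) (r := q) (g := g) (x := τ φ4 - τ θ3) (z := τ θ3 - τ θ2)
      (y := τ θ3) (a := θ4 - θ3) (d := θ3 - θ2) (σ := σ) hε hκ hK hσ
      (by linarith) (by linarith) hdσ rc' hq1 hg1 (by linarith) (by linarith)
      (by rw [eq', mul_add, mul_sub]; linarith) hzg m34.1 m23.2.2.2
    rw [← hC] at F1 F2
    have hz : τ θ3 - τ θ2 ≤ m / 200 := by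
      refine small (y := τ θ2) (K := K) (σ := σ) (by linarith) (by linarith) ?_ hσm
      refine m23.2.1.trans ?_
      exact mul_le_mul_of_nonneg_left hdσ (by positivity)
    obtain ⟨-, w1, w2⟩ := w.loc θ2 (by linarith) (by linarith)
    have hbox := (box_in hε hA'.1 hA'.2 hεm4 w1 w2 rb').2 (40 * g) (by
      push_cast
      linarith)
    have hin : InQ (RE 0 ⌊A' / ε⌋ 0 ⌊B' / ε⌋) := by
      have := c.inQ
      rwa [c.img] at this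
    have h1 := hL ai bi ci di r q g hr1 hq1 hg1 hr hq hg _ hin hbox
    rw [c.pr] at h1
    have h2 : Pr P (RE 0 ⌊A / ε⌋ 0 ⌊B / ε⌋) (fun F => CNq ai bi ci di (c.g.mp F)) ≤
        Pr P (RE 0 ⌊A / ε⌋ 0 ⌊B / ε⌋) (EV A B f ε θ1 θ2 θ3 θ4) := by
      apply Pr_mono okP
      rintro F - ⟨x, y, ⟨x1, x2⟩, ⟨y1, y2⟩, hxy⟩
      obtain ⟨u1, u2⟩ := N1 x x1 x2
      obtain ⟨v1, v2⟩ := N2 y y1 y2
      refine ⟨_, _, u1, v1, u2, v2, ?_⟩
      rw [← c.reach, Equiv.apply_symm_apply, Equiv.apply_symm_apply]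
      exact hxy
    refine le_trans ?_ (h1.trans h2)
    have q1 : 0 < qf bi r g := qf_pos _ (by exact_mod_cast hr1) (by exact_mod_cast hg1)
    have q2 : 0 < qf ci q g := qf_pos _ (by exact_mod_cast hq1) (by exact_mod_cast hg1)
    have h3 : (ea (θ2 - θ1) (θ3 - θ2) * ea (θ4 - θ3) (θ3 - θ2)) ^ ((1 : ℝ) / 3) ≤
        (C * C) ^ ((1 : ℝ) / 3) * (qf bi r g * qf ci q g) ^ ((1 : ℝ) / 3) := by
      rw [← Real.mul_rpow (by positivity) (by positivity)]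
      apply Real.rpow_le_rpow (by positivity) _ (by norm_num)
      calc ea (θ2 - θ1) (θ3 - θ2) * ea (θ4 - θ3) (θ3 - θ2) ≤
          (C * qf bi r g) * (C * qf ci q g) := mul_le_mul F1 F2 eb0.le (by positivity)
        _ = _ := by ring
    calc min 1 (c1 / (C * C) ^ ((1 : ℝ) / 3)) *
        (ea (θ2 - θ1) (θ3 - θ2) * ea (θ4 - θ3) (θ3 - θ2)) ^ ((1 : ℝ) / 3) ≤
        c1 / (C * C) ^ ((1 : ℝ) / 3) *
          ((C * C) ^ ((1 : ℝ) / 3) * (qf bi r g * qf ci q g) ^ ((1 : ℝ) / 3)) :=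
          mul_le_mul (min_le_right _ _) h3 (by positivity) (by positivity)
      _ = c1 * (qf bi r g * qf ci q g) ^ ((1 : ℝ) / 3) := by
          field_simp
  · -- the arcs share a lattice point
    have h1 : Pr P (RE 0 ⌊A / ε⌋ 0 ⌊B / ε⌋) (EV A B f ε θ1 θ2 θ3 θ4) = 1 := by
      apply Pr_true
      intro F _
      obtain ⟨u1, u2⟩ := N1 bi iab le_rfl
      obtain ⟨v1, v2⟩ := N2 bi heq.ge (by rw [heq]; exact icd)
      exact ⟨_, _, u1, v1, u2, v2, Relation.ReflTransGen.refl⟩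
    rw [h1]
    have h2 : (ea (θ2 - θ1) (θ3 - θ2) * ea (θ4 - θ3) (θ3 - θ2)) ^ ((1 : ℝ) / 3) ≤ 1 :=
      Real.rpow_le_one (by positivity) (mul_le_one₀ ea1 eb0.le eb1) (by norm_num)
    calc min 1 (c1 / (C * C) ^ ((1 : ℝ) / 3)) *
        (ea (θ2 - θ1) (θ3 - θ2) * ea (θ4 - θ3) (θ3 - θ2)) ^ ((1 : ℝ) / 3) ≤ 1 * 1 :=
          mul_le_mul (min_le_left _ _) h2 (by positivity) zero_le_one
      _ = 1 := one_mul 1

end Pool.Agent.R966.RG
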