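import Pool.Agent.R966.RC.Low2

/-!
Rectangles: the lower bound for arcs at macroscopic distance.
-/

set_option autoImplicit false

namespace Pool.Agent.R966.RG

open Complex (I)
open Finset H974 Pool.Agent.H160R2.CV TH976 TH976.QC Pool.Agent.R966.RC
open Pool.Agent.H160R2.CV.Quad

/-- an arc against the macroscopic scale -/
theorem macf {ε κ σ y a d x D : ℝ} {t : ℤ} {r n : ℕ} (hε : 0 < ε) (hκ : 0 < κ)
    (hσ : 0 < σ) (ha : 0 < a) (hd : σ ≤ d) (ht : |ε * t - y| ≤ ε / 2) (hr : 1 ≤ r)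
    (hn : 1 ≤ n) (hx : 0 < x) (hxr : x ≤ ε * r) (h1 : κ * min a σ / 3 ≤ MR y x)
    (hD : 0 < D) (hy : |y| ≤ D) (hnD : ε * n ≤ D) :
    ea a d ≤ 24 * D ^ 2 / (σ * κ) * (Mf t r / Mf t n) := by
  have hr1 : (1 : ℝ) ≤ r := by exact_mod_cast hr
  have hn1 : (1 : ℝ) ≤ n := by exact_mod_cast hn
  have m3 : 0 < Mf t r := Mf_pos t (by linarith)
  have m4 : 0 < Mf t n := Mf_pos t (by linarith)
  have e1 : κ * min a σ ≤ 6 * (ε ^ 2 * Mf t r) := by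
    have l1 := (Mf_MR (t := t) hε hr1 ht).2
    have l2 := MR_mono y hx.le hxr
    linarith
  have e2 : ε ^ 2 * Mf t n ≤ 2 * D ^ 2 := by
    have l1 := (Mf_MR (t := t) hε hn1 ht).1
    have l2 : MR y (ε * n) ≤ D * D := by
      unfold MR
      exact mul_le_mul hnD (max_le hy hnD) ((abs_nonneg y).trans (le_max_left _ _)) hD.le
    linarith [pow_two D]
  have e3 := ea_mac ha hσ hd
  have ea0 : 0 < ea a d := by
    have : 0 < d := by linarith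
    unfold ea; positivity
  rw [mul_div_assoc', le_div_iff₀ m4]
  refine le_of_mul_le_mul_left ?_ (by positivity : 0 < ε ^ 2)
  calc ε ^ 2 * (ea a d * Mf t n) = ea a d * (ε ^ 2 * Mf t n) := by ring
    _ ≤ ea a d * (2 * D ^ 2) := mul_le_mul_of_nonneg_left e2 ea0.le
    _ ≤ (2 / σ * min a σ) * (2 * D ^ 2) := mul_le_mul_of_nonneg_right e3 (by positivity)
    _ = 4 * D ^ 2 / (σ * κ) * (κ * min a σ) := by field_simp; ring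
    _ ≤ 4 * D ^ 2 / (σ * κ) * (6 * (ε ^ 2 * Mf t r)) :=
        mul_le_mul_of_nonneg_left e1 (by positivity)
    _ = ε ^ 2 * (24 * D ^ 2 / (σ * κ) * Mf t r) := by ring

theorem low_mac (hA : Pool.Agent.H389R2.CD.ArS) {A B : ℝ} {f : ℂ → ℂ} {s κ K m σ : ℝ}
    (hκ : 0 < κ) (hK : 0 < K) (hm : 0 < m) (hmA : m ≤ A) (hmB : m ≤ B)
    (hσ : 0 < σ) (hσs : σ ≤ s / 2) (hσm : 2 * K * σ ≤ (m / 200) ^ 2) :
    ∃ c : ℝ, 0 < c ∧ ∀ (ε θ1 θ2 θ3 θ4 A' B' A'' B'' : ℝ) (fk fk' : ℂ → ℂ) (τ τ' : ℝ → ℝ),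
      Win A B f s κ K m θ2 A' B' fk τ → Win A B f s κ K m θ3 A'' B'' fk' τ' →
      0 < ε → ε ≤ m / 400 → θ1 < θ2 → θ2 < θ3 → θ3 < θ4 → σ ≤ θ3 - θ2 →
      c * (ea (θ2 - θ1) (θ3 - θ2) * ea (θ4 - θ3) (θ3 - θ2)) ^ ((1 : ℝ) / 3) ≤
        Pr P (RE 0 ⌊A / ε⌋ 0 ⌊B / ε⌋) (EV A B f ε θ1 θ2 θ3 θ4) := by
  obtain ⟨N, hN⟩ : ∃ N : ℕ, 2 * (A + B) / (m / 20) ≤ N := exists_nat_ge _
  obtain ⟨c1, hc1, hL⟩ := mac_low hA N
  have hAB : 0 < A + B := by linarith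
  obtain ⟨C, hC⟩ : ∃ C, C = 24 * (A + B) ^ 2 / (σ * κ) := ⟨_, rfl⟩
  have C0 : 0 < C := by rw [hC]; positivity
  have CC : 0 < C ^ ((1 : ℝ) / 3) := by positivity
  refine ⟨c1 / (C ^ ((1 : ℝ) / 3) * C ^ ((1 : ℝ) / 3)), by positivity, ?_⟩
  intro ε θ1 θ2 θ3 θ4 A' B' A'' B'' fk fk' τ τ' w w' hε hεm t1 t2 t3 hdσ
  have hA' : (m ≤ A' ∧ m ≤ B') ∧ (A' ≤ A + B ∧ B' ≤ A + B) := by
    rcases w.side with ⟨h1, h2⟩ | ⟨h1, h2⟩ <;> rw [h1, h2] <;>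
      refine ⟨⟨?_, ?_⟩, ?_, ?_⟩ <;> linarith
  have hA'' : (m ≤ A'' ∧ m ≤ B'') ∧ (A'' ≤ A + B ∧ B'' ≤ A + B) := by
    rcases w'.side with ⟨h1, h2⟩ | ⟨h1, h2⟩ <;> rw [h1, h2] <;>
      refine ⟨⟨?_, ?_⟩, ?_, ?_⟩ <;> linarith
  obtain ⟨c, hc⟩ := w.ps hε
  obtain ⟨c', hc'⟩ := w'.ps hε
  obtain ⟨φ1, hφ1⟩ : ∃ φ, φ = θ2 - min (θ2 - θ1) σ := ⟨_, rfl⟩
  obtain ⟨φ4, hφ4⟩ : ∃ φ, φ = θ3 + min (θ4 - θ3) σ := ⟨_, rfl⟩
  have ma : 0 < min (θ2 - θ1) σ := lt_min (by linarith) hσ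
  have mb : 0 < min (θ4 - θ3) σ := lt_min (by linarith) hσ
  have ma1 : min (θ2 - θ1) σ ≤ θ2 - θ1 := min_le_left _ _
  have ma2 : min (θ2 - θ1) σ ≤ σ := min_le_right _ _
  have mb1 : min (θ4 - θ3) σ ≤ θ4 - θ3 := min_le_left _ _
  have mb2 : min (θ4 - θ3) σ ≤ σ := min_le_right _ _
  have o1 : θ2 - s ≤ φ1 := by linarith
  have o2 : φ1 < θ2 := by linarith
  have o3 : θ3 < φ4 := by linarith
  have o4 : φ4 ≤ θ3 + s := by linarith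
  have o5 : θ1 ≤ φ1 := by linarith
  have o6 : φ4 ≤ θ4 := by linarith
  have hεm4 : ε ≤ m / 4 := by linarith
  obtain ⟨ai, hai⟩ : ∃ x, x = round (τ φ1 / ε) := ⟨_, rfl⟩
  obtain ⟨bi, hbi⟩ : ∃ x, x = round (τ θ2 / ε) := ⟨_, rfl⟩
  obtain ⟨ci, hci⟩ : ∃ x, x = round (τ' θ3 / ε) := ⟨_, rfl⟩
  obtain ⟨di, hdi⟩ : ∃ x, x = round (τ' φ4 / ε) := ⟨_, rfl⟩
  have ra := abs_le.mp (rnd hε (τ φ1))
  have rb' := rnd hε (τ θ2)
  have rb := abs_le.mp rb'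
  have rc' := rnd hε (τ' θ3)
  have rc := abs_le.mp rc'
  have rd := abs_le.mp (rnd hε (τ' φ4))
  rw [← hai] at ra
  rw [← hbi] at rb rb'
  rw [← hci] at rc rc'
  rw [← hdi] at rd
  have l12 := w.lt hκ (θ := φ1) (θ' := θ2) o1 o2 (by linarith)
  have l34 := w'.lt hκ (θ := θ3) (θ' := φ4) (by linarith) o3 o4
  have iab : ai ≤ bi := by rw [hai, hbi]; exact rnd_mono hε l12.le
  have icd : ci ≤ di := by rw [hci, hdi]; exact rnd_mono hε l34.le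
  have N1 : ∀ x : ℤ, ai ≤ x → x ≤ bi → inR 0 ⌊A / ε⌋ 0 ⌊B / ε⌋ (c.g.ψ.symm (bt x)) ∧
      ∃ t, θ1 ≤ t ∧ t ≤ θ2 ∧ ‖pos ε (c.g.ψ.symm (bt x)) - f (cir t)‖ ≤ 2 * ε := by
    intro x h1 h2
    obtain ⟨h3, t, h4, h5, h6⟩ := w.nr hε hA'.1.1 hA'.1.2 hεm4 hc (θ := φ1) (θ' := θ2) o1 o2.le
      (by linarith) (x := x) (by rw [← hai]; exact h1) (by rw [← hbi]; exact h2)
    exact ⟨h3, t, by linarith, h5, h6⟩
  have N2 : ∀ x : ℤ, ci ≤ x → x ≤ di → inR 0 ⌊A / ε⌋ 0 ⌊B / ε⌋ (c'.g.ψ.symm (bt x)) ∧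
      ∃ t, θ3 ≤ t ∧ t ≤ θ4 ∧ ‖pos ε (c'.g.ψ.symm (bt x)) - f (cir t)‖ ≤ 2 * ε := by
    intro x h1 h2
    obtain ⟨h3, t, h4, h5, h6⟩ := w'.nr hε hA''.1.1 hA''.1.2 hεm4 hc' (θ := θ3) (θ' := φ4)
      (by linarith) o3.le o4 (x := x) (by rw [← hci]; exact h1) (by rw [← hdi]; exact h2)
    exact ⟨h3, t, h4, by linarith, h6⟩
  have m12 := w.mr hκ (θ := φ1) (θ' := θ2) o1 o2 (by linarith)
  have m34 := w'.mr hκ (θ := θ3) (θ' := φ4) (by linarith) o3 o4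
  have e12 : θ2 - φ1 = min (θ2 - θ1) σ := by rw [hφ1]; ring
  have e34 : φ4 - θ3 = min (θ4 - θ3) σ := by rw [hφ4]; ring
  rw [e12] at m12
  rw [e34] at m34
  have z12 : τ θ2 - τ φ1 ≤ m / 200 := by
    refine small (y := τ φ1) (K := K) (σ := σ) (by linarith) (by linarith) ?_ hσm
    exact m12.2.1.trans (mul_le_mul_of_nonneg_left ma2 (by positivity))
  have z34 : τ' φ4 - τ' θ3 ≤ m / 200 := by
    refine small (y := τ' θ3) (K := K) (σ := σ) (by linarith) (by linarith) ?_ hσm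
    exact m34.2.1.trans (mul_le_mul_of_nonneg_left mb2 (by positivity))
  obtain ⟨r, hr⟩ : ∃ r : ℕ, (r : ℤ) = bi - ai + 1 :=
    ⟨(bi - ai + 1).toNat, Int.toNat_of_nonneg (by omega)⟩
  obtain ⟨q, hq⟩ : ∃ q : ℕ, (q : ℤ) = di - ci + 1 :=
    ⟨(di - ci + 1).toNat, Int.toNat_of_nonneg (by omega)⟩
  have hr1 : 1 ≤ r := by omega
  have hq1 : 1 ≤ q := by omega
  have er : (r : ℝ) = bi - ai + 1 := by exact_mod_cast hr
  have eq' : (q : ℝ) = di - ci + 1 := by exact_mod_cast hq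
  obtain ⟨n, hn⟩ : ∃ n : ℕ, n = ⌊m / 20 / ε⌋₊ := ⟨_, rfl⟩
  have n1 : (n : ℝ) ≤ m / 20 / ε := by rw [hn]; exact Nat.floor_le (by positivity)
  have n2 : m / 20 / ε < n + 1 := by rw [hn]; exact Nat.lt_floor_add_one _
  rw [le_div_iff₀ hε] at n1
  rw [div_lt_iff₀ hε] at n2
  have xr1 : ε * r ≤ (τ θ2 - τ φ1) + 2 * ε := by rw [er, mul_add, mul_sub]; linarith
  have xr2 : τ θ2 - τ φ1 ≤ ε * r := by rw [er, mul_add, mul_sub]; linarith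
  have xq1 : ε * q ≤ (τ' φ4 - τ' θ3) + 2 * ε := by rw [eq', mul_add, mul_sub]; linarith
  have xq2 : τ' φ4 - τ' θ3 ≤ ε * q := by rw [eq', mul_add, mul_sub]; linarith
  have hrn : r ≤ n := by
    have : (r : ℝ) ≤ n := by
      refine le_of_mul_le_mul_left ?_ hε
      linarith
    exact_mod_cast this
  have hqn : q ≤ n := by
    have : (q : ℝ) ≤ n := by
      refine le_of_mul_le_mul_left ?_ hε
      linarith
    exact_mod_cast this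
  have hn1 : 1 ≤ n := hr1.trans hrn
  have big : A + B ≤ ε * (N * n) := by
    have h1 : 2 * (A + B) / (m / 20) * (m / 20) ≤ N * (m / 20) :=
      mul_le_mul_of_nonneg_right hN (by positivity)
    rw [div_mul_cancel₀ _ (by positivity)] at h1
    have h2 : m / 20 ≤ 2 * (n * ε) := by linarith
    have h3 : N * (m / 20) ≤ N * (2 * (n * ε)) := mul_le_mul_of_nonneg_left h2 (by positivity)
    linarith
  have fl : ∀ X : ℝ, X ≤ A + B → ⌊X / ε⌋ ≤ (N : ℤ) * n := by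
    intro X hX
    have h1 := Int.floor_le (X / ε)
    rw [le_div_iff₀ hε] at h1
    have h2 : (⌊X / ε⌋ : ℝ) ≤ N * n := by
      refine le_of_mul_le_mul_left ?_ hε
      linarith
    exact_mod_cast h2
  have fl6 : ∀ X : ℝ, m ≤ X → 6 * (n : ℤ) ≤ ⌊X / ε⌋ := by
    intro X hX
    apply le_floor' hε
    push_cast
    linarith
  obtain ⟨-, w1, w2⟩ := w.loc θ2 (by linarith) (by linarith)
  obtain ⟨-, w1', w2'⟩ := w'.loc θ3 (by linarith) (by linarith)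
  have box1 := box_in hε hA'.1.1 hA'.1.2 hεm4 w1 w2 rb'
  have box2 := box_in hε hA''.1.1 hA''.1.2 hεm4 w1' w2' rc'
  have h9 : ε * ((9 * n : ℕ) : ℝ) ≤ m / 2 := by
    push_cast
    linarith
  have h1 := hL _ _ _ _ _ _ c c' ai bi bi ci di ci r q n hr1 hq1 hr hq iab le_rfl le_rfl icd
    hrn hqn (fl A (by linarith)) (fl B (by linarith)) (fl6 A hmA) (fl6 B hmB)
    (bdr c box1.1) (bdr c' box2.1) (box1.2 _ h9) (box2.2 _ h9)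
  have h2 : Pr P (RE 0 ⌊A / ε⌋ 0 ⌊B / ε⌋) (fun F => ∃ x y : ℤ, (ai ≤ x ∧ x ≤ bi) ∧
      (ci ≤ y ∧ y ≤ di) ∧ Reach (↑F) (c.g.ψ.symm (bt x)) (c'.g.ψ.symm (bt y))) ≤
      Pr P (RE 0 ⌊A / ε⌋ 0 ⌊B / ε⌋) (EV A B f ε θ1 θ2 θ3 θ4) := by
    apply Pr_mono okP
    rintro F - ⟨x, y, ⟨x1, x2⟩, ⟨y1, y2⟩, hxy⟩
    obtain ⟨u1, u2⟩ := N1 x x1 x2
    obtain ⟨v1, v2⟩ := N2 y y1 y2
    exact ⟨_, _, u1, v1, u2, v2, hxy⟩
  refine le_trans ?_ (h1.trans h2)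
  have y1 : |τ θ2| ≤ A + B := by rw [abs_le]; constructor <;> linarith [hA'.2.1, hA'.2.2]
  have y2 : |τ' θ3| ≤ A + B := by rw [abs_le]; constructor <;> linarith [hA''.2.1, hA''.2.2]
  have F1 := macf (t := bi) (r := r) (n := n) (x := τ θ2 - τ φ1) (y := τ θ2) (a := θ2 - θ1)
    (d := θ3 - θ2) (σ := σ) (D := A + B) hε hκ hσ (by linarith) hdσ rb' hr1 hn1 (by linarith) xr2
    m12.2.2.1 hAB y1 (by linarith)
  have F2 := macf (t := ci) (r := q) (n := n) (x := τ' φ4 - τ' θ3) (y := τ' θ3) (a := θ4 - θ3)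
    (d := θ3 - θ2) (σ := σ) (D := A + B) hε hκ hσ (by linarith) hdσ rc' hq1 hn1 (by linarith) xq2
    m34.1 hAB y2 (by linarith)
  rw [← hC] at F1 F2
  have ea0 : 0 < ea (θ2 - θ1) (θ3 - θ2) := by
    have h1 : 0 < θ2 - θ1 := by linarith
    have h2 : 0 < θ3 - θ2 := by linarith
    unfold ea; positivity
  have eb0 : 0 < ea (θ4 - θ3) (θ3 - θ2) := by
    have h1 : 0 < θ4 - θ3 := by linarith
    have h2 : 0 < θ3 - θ2 := by linarith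
    unfold ea; positivity
  have p1 : 0 < Mf bi r / Mf bi n :=
    div_pos (Mf_pos _ (by exact_mod_cast hr1)) (Mf_pos _ (by exact_mod_cast hn1))
  have p2 : 0 < Mf ci q / Mf ci n :=
    div_pos (Mf_pos _ (by exact_mod_cast hq1)) (Mf_pos _ (by exact_mod_cast hn1))
  have G1 : ea (θ2 - θ1) (θ3 - θ2) ^ ((1 : ℝ) / 3) ≤
      C ^ ((1 : ℝ) / 3) * (Mf bi r / Mf bi n) ^ ((1 : ℝ) / 3) := by
    rw [← Real.mul_rpow C0.le p1.le]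
    exact Real.rpow_le_rpow ea0.le F1 (by norm_num)
  have G2 : ea (θ4 - θ3) (θ3 - θ2) ^ ((1 : ℝ) / 3) ≤
      C ^ ((1 : ℝ) / 3) * (Mf ci q / Mf ci n) ^ ((1 : ℝ) / 3) := by
    rw [← Real.mul_rpow C0.le p2.le]
    exact Real.rpow_le_rpow eb0.le F2 (by norm_num)
  rw [Real.mul_rpow ea0.le eb0.le, div_mul_eq_mul_div, div_le_iff₀ (by positivity)]
  have G3 := mul_le_mul G1 G2 (by positivity) (by positivity)
  calc c1 * (ea (θ2 - θ1) (θ3 - θ2) ^ ((1 : ℝ) / 3) * ea (θ4 - θ3) (θ3 - θ2) ^ ((1 : ℝ) / 3)) ≤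
      c1 * (C ^ ((1 : ℝ) / 3) * (Mf bi r / Mf bi n) ^ ((1 : ℝ) / 3) *
        (C ^ ((1 : ℝ) / 3) * (Mf ci q / Mf ci n) ^ ((1 : ℝ) / 3))) :=
        mul_le_mul_of_nonneg_left G3 hc1.le
    _ = _ := by ring

end Pool.Agent.R966.RG
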