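import Pool.Agent.R966.RC.Geo3

/-!
Sizes of boundary intervals near a corner.
-/

set_option autoImplicit false

namespace Pool.Agent.R966.RG

open Complex (I)
open H974 Pool.Agent.H160R2.CV TH976 TH976.QC Pool.Agent.R966.RC
open Pool.Agent.H160R2.CV.Quad

/-- the size of the boundary interval of length `x` at `τ`, after `z ↦ z ^ 2` -/
noncomputable def MR (τ x : ℝ) : ℝ := x * max |τ| x

theorem MR_pos (τ : ℝ) {x : ℝ} (hx : 0 < x) : 0 < MR τ x :=
  mul_pos hx (lt_of_lt_of_le hx (le_max_right _ _))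

theorem MR_mono (τ : ℝ) {x y : ℝ} (hx : 0 ≤ x) (h : x ≤ y) : MR τ x ≤ MR τ y := by
  unfold MR
  exact mul_le_mul h (max_le_max le_rfl h) (hx.trans (le_max_right _ _)) (hx.trans h)

theorem MR_scale (τ : ℝ) {x k : ℝ} (hx : 0 ≤ x) (hk : 1 ≤ k) : MR τ (k * x) ≤ k ^ 2 * MR τ x := by
  have h0 : 0 ≤ max |τ| x := hx.trans (le_max_right _ _)
  have h1 : max |τ| (k * x) ≤ k * max |τ| x := by
    apply max_le
    · calc |τ| ≤ max |τ| x := le_max_left _ _
        _ = 1 * max |τ| x := (one_mul _).symm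
        _ ≤ _ := mul_le_mul_of_nonneg_right hk h0
    · exact mul_le_mul_of_nonneg_left (le_max_right _ _) (by linarith)
  unfold MR
  calc k * x * max |τ| (k * x) ≤ k * x * (k * max |τ| x) :=
        mul_le_mul_of_nonneg_left h1 (by positivity)
    _ = _ := by ring

theorem MR_half (τ : ℝ) {x k : ℝ} (hx : 0 ≤ x) (hk : 0 < k) (hk1 : k ≤ 1) :
    k ^ 2 * MR τ x ≤ MR τ (k * x) := by
  have h := MR_scale τ (x := k * x) (k := k⁻¹) (by positivity) ((one_le_inv₀ hk).mpr hk1)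
  have e : k⁻¹ * (k * x) = x := by field_simp
  rw [e] at h
  calc k ^ 2 * MR τ x ≤ k ^ 2 * (k⁻¹ ^ 2 * MR τ (k * x)) :=
        mul_le_mul_of_nonneg_left h (by positivity)
    _ = _ := by field_simp

theorem le_MR (τ : ℝ) {x : ℝ} (hx : 0 ≤ x) : x ^ 2 ≤ MR τ x := by
  unfold MR
  rw [pow_two]
  exact mul_le_mul_of_nonneg_left (le_max_right _ _) hx

theorem sqr_neg (t : ℝ) : sqr (-t) = -sqr t := by
  unfold sqr
  rw [abs_neg]
  ring

theorem sqr_add (t : ℝ) {n : ℝ} (hn : 0 < n) :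
    1 / 2 * MR t n ≤ sqr (t + n) - sqr t ∧ sqr (t + n) - sqr t ≤ 3 * MR t n := by
  unfold sqr MR
  rcases le_total 0 t with h | h
  · rw [abs_of_nonneg h, abs_of_nonneg (by linarith : 0 ≤ t + n)]
    rcases le_total t n with h2 | h2
    · rw [max_eq_right h2]
      constructor <;> nlinarith
    · rw [max_eq_left h2]
      constructor <;> nlinarith
  · rw [abs_of_nonpos h]
    rcases le_total (t + n) 0 with h2 | h2
    · rw [abs_of_nonpos h2, max_eq_left (by linarith : n ≤ -t)]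
      constructor <;> nlinarith
    · rw [abs_of_nonneg h2, max_eq_right (by linarith : -t ≤ n)]
      constructor
      · nlinarith [sq_nonneg (t + (t + n))]
      · nlinarith

theorem sqr_sub (t : ℝ) {n : ℝ} (hn : 0 < n) :
    1 / 2 * MR t n ≤ sqr t - sqr (t - n) ∧ sqr t - sqr (t - n) ≤ 3 * MR t n := by
  have h := sqr_add (-t) hn
  have e0 : MR (-t) n = MR t n := by unfold MR; rw [abs_neg]
  rw [e0] at h
  have e1 : sqr (-t + n) = -sqr (t - n) := by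
    rw [← sqr_neg]
    congr 1
    ring
  rw [e1, sqr_neg] at h
  constructor <;> linarith [h.1, h.2]

theorem sqr_lt {x y : ℝ} (h : sqr x < sqr y) : x < y := by
  by_contra hc
  push Not at hc
  rcases hc.lt_or_eq with h1 | h1
  · have h2 := (sqr_add y (n := x - y) (by linarith)).1
    have h3 := MR_pos y (x := x - y) (by linarith)
    rw [add_sub_cancel] at h2
    linarith
  · rw [h1] at h
    exact lt_irrefl _ h

theorem Mf_MR {ε τ n : ℝ} {t : ℤ} (hε : 0 < ε) (hn : 1 ≤ n) (h : |ε * t - τ| ≤ ε / 2) :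
    ε ^ 2 * Mf t n ≤ 2 * MR τ (ε * n) ∧ MR τ (ε * n) ≤ 2 * (ε ^ 2 * Mf t n) := by
  have hn0 : 0 < n := by linarith
  have e : ε ^ 2 * Mf t n = (ε * n) * max |ε * t| (ε * n) := by
    unfold Mf
    rw [abs_mul, abs_of_pos hε, ← mul_max_of_nonneg _ _ hε.le]
    ring
  have hεn : ε ≤ ε * n := by nlinarith
  have a1 : |ε * t| ≤ |τ| + ε / 2 := by
    calc |ε * t| = |τ + (ε * t - τ)| := by congr 1; ring
      _ ≤ |τ| + |ε * t - τ| := abs_add_le _ _
      _ ≤ _ := by linarith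
  have a2 : |τ| ≤ |ε * t| + ε / 2 := by
    calc |τ| = |ε * t - (ε * t - τ)| := by congr 1; ring
      _ ≤ |ε * t| + |ε * t - τ| := abs_sub _ _
      _ ≤ _ := by linarith
  have b1 := le_max_left |τ| (ε * n)
  have b2 := le_max_right |τ| (ε * n)
  have b3 := le_max_left |ε * t| (ε * n)
  have b4 := le_max_right |ε * t| (ε * n)
  rw [e]
  unfold MR
  constructor
  · calc (ε * n) * max |ε * t| (ε * n) ≤ (ε * n) * (2 * max |τ| (ε * n)) := by
          apply mul_le_mul_of_nonneg_left _ (by positivity)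
          apply max_le <;> linarith
      _ = _ := by ring
  · calc (ε * n) * max |τ| (ε * n) ≤ (ε * n) * (2 * max |ε * t| (ε * n)) := by
          apply mul_le_mul_of_nonneg_left _ (by positivity)
          apply max_le <;> linarith
      _ = _ := by ring

theorem sd_pos {ε : ℝ} (hε : 0 < ε) (u v : Vtx) : ε * (sd u v : ℝ) ≤ ‖pos ε u - pos ε v‖ := by
  have h1 := Complex.abs_re_le_norm (pos ε u - pos ε v)
  have h2 := Complex.abs_im_le_norm (pos ε u - pos ε v)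
  have e1 : |(pos ε u - pos ε v).re| = ε * ((u.1 - v.1).natAbs : ℝ) := by
    unfold pos
    simp only [Complex.sub_re]
    rw [← mul_sub, abs_mul, abs_of_pos hε, Nat.cast_natAbs]
    push_cast
    rfl
  have e2 : |(pos ε u - pos ε v).im| = ε * ((u.2 - v.2).natAbs : ℝ) := by
    unfold pos
    simp only [Complex.sub_im]
    rw [← mul_sub, abs_mul, abs_of_pos hε, Nat.cast_natAbs]
    push_cast
    rfl
  rw [e1] at h1
  rw [e2] at h2
  unfold sd
  push_cast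
  rw [mul_max_of_nonneg _ _ hε.le]
  exact max_le h1 h2

theorem pos_sd {ε : ℝ} (hε : 0 < ε) (u v : Vtx) :
    ‖pos ε u - pos ε v‖ ≤ 2 * (ε * (sd u v : ℝ)) := by
  refine (Complex.norm_le_abs_re_add_abs_im _).trans ?_
  have e1 : |(pos ε u - pos ε v).re| = ε * ((u.1 - v.1).natAbs : ℝ) := by
    unfold pos
    simp only [Complex.sub_re]
    rw [← mul_sub, abs_mul, abs_of_pos hε, Nat.cast_natAbs]
    push_cast
    rfl
  have e2 : |(pos ε u - pos ε v).im| = ε * ((u.2 - v.2).natAbs : ℝ) := by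
    unfold pos
    simp only [Complex.sub_im]
    rw [← mul_sub, abs_mul, abs_of_pos hε, Nat.cast_natAbs]
    push_cast
    rfl
  rw [e1, e2]
  have h1 : ((u.1 - v.1).natAbs : ℝ) ≤ (sd u v : ℝ) := by
    unfold sd
    exact_mod_cast le_max_left _ _
  have h2 : ((u.2 - v.2).natAbs : ℝ) ≤ (sd u v : ℝ) := by
    unfold sd
    exact_mod_cast le_max_right _ _
  have h3 := mul_le_mul_of_nonneg_left h1 hε.le
  have h4 := mul_le_mul_of_nonneg_left h2 hε.le
  linarith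

/-- the nearest integer -/
theorem rnd {ε : ℝ} (hε : 0 < ε) (τ : ℝ) : |ε * (round (τ / ε) : ℝ) - τ| ≤ ε / 2 := by
  have h := abs_sub_round (τ / ε)
  have e : ε * (round (τ / ε) : ℝ) - τ = -(ε * (τ / ε - round (τ / ε))) := by
    field_simp
    ring
  rw [e, abs_neg, abs_mul, abs_of_pos hε]
  nlinarith

theorem pos_bt (ε : ℝ) (hε : 0 < ε) (t : ℤ) : pos ε (bt t) = ft (ε * t) := by
  unfold pos bt ft
  have e1 : ((max t 0 : ℤ) : ℝ) = max (t : ℝ) 0 := by push_cast; rfl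
  have e2 : ((max (-t) 0 : ℤ) : ℝ) = max (-(t : ℝ)) 0 := by push_cast; rfl
  apply Complex.ext
  · simp only [e1]
    rw [mul_max_of_nonneg _ _ hε.le, mul_zero]
  · simp only [e2]
    rw [mul_max_of_nonneg _ _ hε.le, mul_zero]
    congr 1
    ring

section
variable {A B : ℝ} {f : ℂ → ℂ} {s κ K m θ0 A' B' : ℝ} {fk : ℂ → ℂ} {τ : ℝ → ℝ}

/-- strict monotonicity in a window -/
theorem Win.lt (w : Win A B f s κ K m θ0 A' B' fk τ) (hκ : 0 < κ) {θ θ' : ℝ}
    (h1 : θ0 - s ≤ θ) (h2 : θ < θ') (h3 : θ' ≤ θ0 + s) : τ θ < τ θ' := by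
  apply sqr_lt
  have := (w.bl θ θ' h1 h2.le h3).1
  have : 0 < κ * (θ' - θ) := mul_pos hκ (by linarith)
  linarith

theorem Win.le (w : Win A B f s κ K m θ0 A' B' fk τ) (hκ : 0 < κ) {θ θ' : ℝ}
    (h1 : θ0 - s ≤ θ) (h2 : θ ≤ θ') (h3 : θ' ≤ θ0 + s) : τ θ ≤ τ θ' := by
  rcases h2.lt_or_eq with h | h
  · exact (w.lt hκ h1 h h3).le
  · rw [h]

theorem Win.nle (w : Win A B f s κ K m θ0 A' B' fk τ) {θ θ' : ℝ}
    (h1 : θ0 - s ≤ θ) (h2 : θ ≤ θ0 + s) (h3 : θ0 - s ≤ θ') (h4 : θ' ≤ θ0 + s) :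
    ‖f (cir θ) - f (cir θ')‖ ≤ |τ θ - τ θ'| := by
  rw [← w.iso, (w.loc θ h1 h2).1, (w.loc θ' h3 h4).1]
  exact ft_le _ _

theorem Win.len (w : Win A B f s κ K m θ0 A' B' fk τ) {θ θ' : ℝ}
    (h1 : θ0 - s ≤ θ) (h2 : θ ≤ θ0 + s) (h3 : θ0 - s ≤ θ') (h4 : θ' ≤ θ0 + s) :
    |τ θ - τ θ'| ≤ 2 * ‖f (cir θ) - f (cir θ')‖ := by
  rw [← w.iso, (w.loc θ h1 h2).1, (w.loc θ' h3 h4).1]
  exact le_ft _ _

/-- positions of the boundary vertices -/
theorem Win.ps (w : Win A B f s κ K m θ0 A' B' fk τ) {ε : ℝ} (hε : 0 < ε) :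
    ∃ c : Chart ⌊A / ε⌋ ⌊B / ε⌋ ⌊A' / ε⌋ ⌊B' / ε⌋, ∀ (t : ℤ) (θ : ℝ), θ0 - s ≤ θ → θ ≤ θ0 + s →
      ‖pos ε (c.g.ψ.symm (bt t)) - f (cir θ)‖ ≤ |ε * t - τ θ| + 3 / 2 * ε := by
  obtain ⟨c, hc⟩ := w.al ε hε
  refine ⟨c, fun t θ h1 h2 => ?_⟩
  refine (hc (cir θ) (c.g.ψ.symm (bt t))).trans ?_
  rw [Equiv.apply_symm_apply, (w.loc θ h1 h2).1, pos_bt ε hε]
  have := ft_le (ε * t) (τ θ)
  linarith

end

end Pool.Agent.R966.RG
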