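import Pool.Agent.R966.RC.Mr

/-!
Rectangles: upper bounds for the crossing probability between two boundary arcs.
-/

set_option autoImplicit false

namespace Pool.Agent.R966.RG

open Complex (I)
open Finset H974 Pool.Agent.H160R2.CV TH976 TH976.QC Pool.Agent.R966.RC
open Pool.Agent.H160R2.CV.Quad

/-- an annulus around an end point of an arc -/
theorem endp {A B : ℝ} {f : ℂ → ℂ} {s κ K m : ℝ} (hA : 0 < A) (hB : 0 < B)
    (hκ : 0 < κ) (hK : 0 < K) (hm : 0 < m) :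
    ∃ c0 C : ℝ, 0 < c0 ∧ c0 ≤ 1 ∧ 0 < C ∧ ∀ (θ0 a d ε A' B' : ℝ) (fk : ℂ → ℂ) (τ : ℝ → ℝ),
      Win A B f s κ K m θ0 A' B' fk τ →
      (∀ θ : ℝ, θ0 + s ≤ θ → θ ≤ θ0 + 2 * Real.pi - s → m ≤ ‖f (cir θ) - f (cir θ0)‖) →
      0 < ε → 0 < a → a ≤ c0 * d → d ≤ s →
      (∃ θ, θ0 - a ≤ θ ∧ θ ≤ θ0 + a ∧ ε ≤ ‖f (cir θ) - f (cir θ0)‖) →
      ∃ (c : Chart ⌊A / ε⌋ ⌊B / ε⌋ ⌊A' / ε⌋ ⌊B' / ε⌋) (t : ℤ) (r n : ℕ), 1 ≤ r ∧ r ≤ n ∧
        Mf t r / Mf t n ≤ C * (a / d) ∧
        ‖pos ε (c.g.ψ.symm (bt t)) - f (cir θ0)‖ ≤ 2 * ε ∧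
        (∀ (u : Vtx) (θ : ℝ), θ0 - a ≤ θ → θ ≤ θ0 + a → ‖pos ε u - f (cir θ)‖ ≤ 2 * ε →
          sd u (c.g.ψ.symm (bt t)) ≤ r) ∧
        ∀ θ : ℝ, θ0 + d ≤ θ → θ ≤ θ0 + 2 * Real.pi - d →
          8 * (ε * n) ≤ ‖f (cir θ) - f (cir θ0)‖ ∧ 56 * ε ≤ ‖f (cir θ) - f (cir θ0)‖ ∧
          ∀ v : Vtx, ‖pos ε v - f (cir θ)‖ ≤ 2 * ε → n ≤ sd v (c.g.ψ.symm (bt t)) := by
  obtain ⟨k, hk⟩ : ∃ k, k = min 1 (m / (A + B)) := ⟨_, rfl⟩
  have hk0 : 0 < k := by rw [hk]; exact lt_min one_pos (by positivity)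
  have hk1 : k ≤ 1 := by rw [hk]; exact min_le_left _ _
  have hkm : k * (A + B) ≤ m := by
    have : k ≤ m / (A + B) := by rw [hk]; exact min_le_right _ _
    rwa [le_div_iff₀ (by positivity)] at this
  obtain ⟨c0, hc0⟩ : ∃ c0, c0 = min 1 (k ^ 2 * κ / (80000 * K)) := ⟨_, rfl⟩
  have c00 : 0 < c0 := by rw [hc0]; exact lt_min one_pos (by positivity)
  have c01 : c0 ≤ 1 := by rw [hc0]; exact min_le_left _ _
  have c0K : 80000 * K * c0 ≤ k ^ 2 * κ := by
    have : c0 ≤ k ^ 2 * κ / (80000 * K) := by rw [hc0]; exact min_le_right _ _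
    rw [le_div_iff₀ (by positivity)] at this
    linarith
  refine ⟨c0, 900000 * K / (k ^ 2 * κ), c00, c01, by positivity, ?_⟩
  intro θ0 a d ε A' B' fk τ w hfar hε ha had hds ⟨θx, x1, x2, x3⟩
  have hd0 : 0 < d := by
    by_contra hcon
    push Not at hcon
    have := mul_nonpos_of_nonneg_of_nonpos c00.le hcon
    linarith
  have had1 : a ≤ d := had.trans (mul_le_of_le_one_left hd0.le c01)
  have hs0 : 0 < s := by linarith
  have hAB : A' + B' = A + B := by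
    rcases w.side with ⟨h1, h2⟩ | ⟨h1, h2⟩ <;> rw [h1, h2]
    ring
  obtain ⟨τ0, hτ0⟩ : ∃ y, y = τ θ0 := ⟨_, rfl⟩
  obtain ⟨xp, hxp⟩ : ∃ y, y = τ (θ0 + d) - τ0 := ⟨_, rfl⟩
  obtain ⟨xm, hxm⟩ : ∃ y, y = τ0 - τ (θ0 - d) := ⟨_, rfl⟩
  obtain ⟨δp, hδp⟩ : ∃ y, y = τ (θ0 + a) - τ0 := ⟨_, rfl⟩
  obtain ⟨δm, hδm⟩ : ∃ y, y = τ0 - τ (θ0 - a) := ⟨_, rfl⟩
  have xp0 : 0 < xp := by
    have := w.lt hκ (θ := θ0) (θ' := θ0 + d) (by linarith) (by linarith) (by linarith)
    linarith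
  have xm0 : 0 < xm := by
    have := w.lt hκ (θ := θ0 - d) (θ' := θ0) (by linarith) (by linarith) (by linarith)
    linarith
  have δp0 : 0 < δp := by
    have := w.lt hκ (θ := θ0) (θ' := θ0 + a) (by linarith) (by linarith) (by linarith)
    linarith
  have δm0 : 0 < δm := by
    have := w.lt hκ (θ := θ0 - a) (θ' := θ0) (by linarith) (by linarith) (by linarith)
    linarith
  have Mxp : κ * d / 3 ≤ MR τ0 xp := by
    have h1 := (w.bl θ0 (θ0 + d) (by linarith) (by linarith) (by linarith)).1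
    have h2 := (sqr_add τ0 xp0).2
    have e : τ0 + xp = τ (θ0 + d) := by rw [hxp]; ring
    rw [e] at h2
    rw [← hτ0] at h1
    have e2 : θ0 + d - θ0 = d := by ring
    rw [e2] at h1
    linarith
  have Mxm : κ * d / 3 ≤ MR τ0 xm := by
    have h1 := (w.bl (θ0 - d) θ0 (by linarith) (by linarith) (by linarith)).1
    have h2 := (sqr_sub τ0 xm0).2
    have e : τ0 - xm = τ (θ0 - d) := by rw [hxm]; ring
    rw [e] at h2
    rw [← hτ0] at h1
    have e2 : θ0 - (θ0 - d) = d := by ring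
    rw [e2] at h1
    linarith
  have Mδp : MR τ0 δp ≤ 2 * K * a := by
    have h1 := (w.bl θ0 (θ0 + a) (by linarith) (by linarith) (by linarith)).2
    have h2 := (sqr_add τ0 δp0).1
    have e : τ0 + δp = τ (θ0 + a) := by rw [hδp]; ring
    rw [e] at h2
    rw [← hτ0] at h1
    have e2 : θ0 + a - θ0 = a := by ring
    rw [e2] at h1
    linarith
  have Mδm : MR τ0 δm ≤ 2 * K * a := by
    have h1 := (w.bl (θ0 - a) θ0 (by linarith) (by linarith) (by linarith)).2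
    have h2 := (sqr_sub τ0 δm0).1
    have e : τ0 - δm = τ (θ0 - a) := by rw [hδm]; ring
    rw [e] at h2
    rw [← hτ0] at h1
    have e2 : θ0 - (θ0 - a) = a := by ring
    rw [e2] at h1
    linarith
  -- the small radius
  obtain ⟨δ, hδ⟩ : ∃ y, y = max δp δm := ⟨_, rfl⟩
  have δ0 : 0 < δ := by rw [hδ]; exact lt_max_of_lt_left δp0
  have Mδ : MR τ0 δ ≤ 2 * K * a := by
    rcases max_choice δp δm with h | h <;> rw [hδ, h] <;> assumption
  have near : ∀ θ, θ0 - a ≤ θ → θ ≤ θ0 + a → ‖f (cir θ) - f (cir θ0)‖ ≤ δ := by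
    intro θ h1 h2
    refine (w.nle (by linarith) (by linarith) (by linarith) (by linarith)).trans ?_
    rw [← hτ0]
    rcases le_total θ0 θ with h3 | h3
    · have h4 := w.le hκ (θ := θ0) (θ' := θ) (by linarith) h3 (by linarith)
      have h5 := w.le hκ (θ := θ) (θ' := θ0 + a) (by linarith) h2 (by linarith)
      rw [abs_of_nonneg (by linarith)]
      calc τ θ - τ0 ≤ δp := by linarith
        _ ≤ δ := by rw [hδ]; exact le_max_left _ _
    · have h4 := w.le hκ (θ := θ) (θ' := θ0) (by linarith) h3 (by linarith)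
      have h5 := w.le hκ (θ := θ0 - a) (θ' := θ) (by linarith) h1 (by linarith)
      rw [abs_of_nonpos (by linarith)]
      calc -(τ θ - τ0) ≤ δm := by linarith
        _ ≤ δ := by rw [hδ]; exact le_max_right _ _
  have hεδ : ε ≤ δ := x3.trans (near θx x1 x2)
  -- the large radius
  obtain ⟨ρ0, hρ0⟩ : ∃ y, y = min xp xm := ⟨_, rfl⟩
  have ρ00 : 0 < ρ0 := by rw [hρ0]; exact lt_min xp0 xm0
  have Mρ0 : κ * d / 3 ≤ MR τ0 ρ0 := by
    rcases min_choice xp xm with h | h <;> rw [hρ0, h] <;> assumption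
  obtain ⟨ρ, hρ⟩ : ∃ y, y = k / 2 * ρ0 := ⟨_, rfl⟩
  have ρpos : 0 < ρ := by rw [hρ]; positivity
  have Mρ : k ^ 2 * κ * d / 12 ≤ MR τ0 ρ := by
    have h1 := MR_half τ0 (x := ρ0) (k := k / 2) ρ00.le (by positivity) (by linarith)
    rw [hρ]
    refine le_trans ?_ h1
    calc k ^ 2 * κ * d / 12 = (k / 2) ^ 2 * (κ * d / 3) := by ring
      _ ≤ _ := mul_le_mul_of_nonneg_left Mρ0 (by positivity)
  have ρxp : ρ ≤ xp / 2 := by
    have : ρ0 ≤ xp := by rw [hρ0]; exact min_le_left _ _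
    rw [hρ]
    have h1 : k / 2 * ρ0 ≤ 1 / 2 * xp := mul_le_mul (by linarith) this ρ00.le (by norm_num)
    linarith
  have ρxm : ρ ≤ xm / 2 := by
    have : ρ0 ≤ xm := by rw [hρ0]; exact min_le_right _ _
    rw [hρ]
    have h1 : k / 2 * ρ0 ≤ 1 / 2 * xm := mul_le_mul (by linarith) this ρ00.le (by norm_num)
    linarith
  have ρm : ρ ≤ m := by
    have h1 := (w.loc (θ0 + d) (by linarith) (by linarith)).2.2
    have h2 := (w.loc θ0 (by linarith) (by linarith)).2.1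
    have h3 : xp ≤ A + B := by rw [← hτ0] at h2; linarith
    rw [hρ]
    have h4 : ρ0 ≤ xp := by rw [hρ0]; exact min_le_left _ _
    have h5 : k / 2 * ρ0 ≤ k * (A + B) := mul_le_mul (by linarith) (h4.trans h3) ρ00.le hk0.le
    linarith
  have fr : ∀ θ, θ0 + d ≤ θ → θ ≤ θ0 + 2 * Real.pi - d → ρ ≤ ‖f (cir θ) - f (cir θ0)‖ := by
    intro θ h1 h2
    rcases le_total θ (θ0 + s) with h3 | h3
    · have h4 := w.len (θ := θ) (θ' := θ0) (by linarith) h3 (by linarith) (by linarith)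
      have h5 := w.le hκ (θ := θ0 + d) (θ' := θ) (by linarith) h1 (by linarith)
      rw [← hτ0, abs_of_nonneg (by linarith)] at h4
      linarith
    · rcases le_total θ (θ0 + 2 * Real.pi - s) with h6 | h6
      · exact ρm.trans (hfar θ h3 h6)
      · have e : cir θ = cir (θ - 2 * Real.pi) := by
          rw [← cir_per (θ - 2 * Real.pi), sub_add_cancel]
        rw [e]
        have h4 := w.len (θ := θ - 2 * Real.pi) (θ' := θ0) (by linarith) (by linarith)
          (by linarith) (by linarith)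
        have h5 := w.le hκ (θ := θ - 2 * Real.pi) (θ' := θ0 - d) (by linarith) (by linarith)
          (by linarith)
        rw [← hτ0, abs_of_nonpos (by linarith)] at h4
        linarith
  have δρ : 56 * δ ≤ ρ := by
    by_contra hcon
    push Not at hcon
    have h1 : MR τ0 ρ ≤ MR τ0 (56 * δ) := MR_mono τ0 ρpos.le hcon.le
    have h2 := MR_scale τ0 (x := δ) (k := 56) δ0.le (by norm_num)
    have h3 : k ^ 2 * κ * d / 12 ≤ 56 ^ 2 * (2 * K * (c0 * d)) := by
      calc k ^ 2 * κ * d / 12 ≤ 56 ^ 2 * MR τ0 δ := Mρ.trans (h1.trans h2)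
        _ ≤ 56 ^ 2 * (2 * K * a) := by linarith
        _ ≤ _ := mul_le_mul_of_nonneg_left (mul_le_mul_of_nonneg_left had (by positivity))
            (by norm_num)
    have h4 : 80000 * K * c0 * d ≤ k ^ 2 * κ * d := mul_le_mul_of_nonneg_right c0K hd0.le
    have h5 : 0 < K * c0 * d := by positivity
    linarith
  -- integers
  obtain ⟨c, hc⟩ := w.ps hε
  obtain ⟨t, ht⟩ : ∃ t : ℤ, t = round (τ0 / ε) := ⟨_, rfl⟩
  have ht2 : |ε * t - τ0| ≤ ε / 2 := by rw [ht]; exact rnd hε τ0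
  obtain ⟨r, hr⟩ : ∃ r : ℕ, r = ⌈(δ + 4 * ε) / ε⌉₊ := ⟨_, rfl⟩
  obtain ⟨n, hn⟩ : ∃ n : ℕ, n = ⌊ρ / (8 * ε)⌋₊ := ⟨_, rfl⟩
  have r1 : (δ + 4 * ε) / ε ≤ r := by rw [hr]; exact Nat.le_ceil _
  have r2 : (r : ℝ) < (δ + 4 * ε) / ε + 1 := by rw [hr]; exact Nat.ceil_lt_add_one (by positivity)
  have n1 : (n : ℝ) ≤ ρ / (8 * ε) := by rw [hn]; exact Nat.floor_le (by positivity)
  have n2 : ρ / (8 * ε) < n + 1 := by rw [hn]; exact Nat.lt_floor_add_one _
  rw [div_le_iff₀ hε] at r1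
  have r3 : ε * r < δ + 5 * ε := by
    have e : (δ + 4 * ε) / ε + 1 = (δ + 5 * ε) / ε := by field_simp; ring
    rw [e, lt_div_iff₀ hε] at r2
    linarith
  rw [le_div_iff₀ (by positivity)] at n1
  rw [div_lt_iff₀ (by positivity)] at n2
  have rpos : 1 ≤ r := by
    have : (0 : ℝ) < r := by
      by_contra hcon
      push Not at hcon
      have := mul_nonpos_of_nonpos_of_nonneg hcon hε.le
      linarith
    exact_mod_cast this
  have hrn : r ≤ n := by
    have : (r : ℝ) < n + 1 := by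
      by_contra hcon
      push Not at hcon
      have := mul_le_mul_of_nonneg_right hcon (by positivity : 0 ≤ 8 * ε)
      linarith
    have h2 : r < n + 1 := by exact_mod_cast this
    omega
  have hp : ‖pos ε (c.g.ψ.symm (bt t)) - f (cir θ0)‖ ≤ 2 * ε := by
    have := hc t θ0 (by linarith) (by linarith)
    rw [← hτ0] at this
    linarith
  refine ⟨c, t, r, n, rpos, hrn, ?_, hp, ?_, ?_⟩
  · have hr1 : (1 : ℝ) ≤ r := by exact_mod_cast rpos
    have hn1 : (1 : ℝ) ≤ n := by exact_mod_cast (rpos.trans hrn)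
    have m1 := (Mf_MR (t := t) hε hr1 ht2).1
    have m2 := (Mf_MR (t := t) hε hn1 ht2).2
    have l1 : MR τ0 (ε * r) ≤ 36 * (2 * K * a) := by
      calc MR τ0 (ε * r) ≤ MR τ0 (6 * δ) := MR_mono τ0 (by positivity) (by linarith)
        _ ≤ 6 ^ 2 * MR τ0 δ := MR_scale τ0 δ0.le (by norm_num)
        _ ≤ _ := by linarith
    have l2 : (1 / 16) ^ 2 * (k ^ 2 * κ * d / 12) ≤ MR τ0 (ε * n) := by
      calc (1 / 16 : ℝ) ^ 2 * (k ^ 2 * κ * d / 12) ≤ (1 / 16) ^ 2 * MR τ0 ρ :=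
            mul_le_mul_of_nonneg_left Mρ (by norm_num)
        _ ≤ MR τ0 (1 / 16 * ρ) := MR_half τ0 ρpos.le (by norm_num) (by norm_num)
        _ ≤ _ := MR_mono τ0 (by positivity) (by linarith)
    have m3 : 0 < Mf t r := Mf_pos t (by linarith)
    have m4 : 0 < Mf t n := Mf_pos t (by linarith)
    rw [div_le_iff₀ m4]
    have l3 : ε ^ 2 * Mf t r ≤ 144 * K * a := by linarith
    have l4 : k ^ 2 * κ * d ≤ 6144 * (ε ^ 2 * Mf t n) := by linarith
    have e : 900000 * K / (k ^ 2 * κ) * (a / d) * Mf t n =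
        900000 * K * a * Mf t n / (k ^ 2 * κ * d) := by
      field_simp
    rw [e, le_div_iff₀ (by positivity)]
    have q : 0 < K * a := by positivity
    calc Mf t r * (k ^ 2 * κ * d) ≤ Mf t r * (6144 * (ε ^ 2 * Mf t n)) :=
          mul_le_mul_of_nonneg_left l4 m3.le
      _ = 6144 * Mf t n * (ε ^ 2 * Mf t r) := by ring
      _ ≤ 6144 * Mf t n * (144 * K * a) := mul_le_mul_of_nonneg_left l3 (by positivity)
      _ ≤ 900000 * K * a * Mf t n := by linarith [mul_pos q m4]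
  · intro u θ h1 h2 h3
    have h4 := near θ h1 h2
    have h5 : ‖pos ε u - pos ε (c.g.ψ.symm (bt t))‖ ≤ δ + 4 * ε := by
      have e : pos ε u - pos ε (c.g.ψ.symm (bt t)) = (pos ε u - f (cir θ)) +
          (f (cir θ) - f (cir θ0)) - (pos ε (c.g.ψ.symm (bt t)) - f (cir θ0)) := by ring
      rw [e]
      refine (norm_sub_le _ _).trans ?_
      have := norm_add_le (pos ε u - f (cir θ)) (f (cir θ) - f (cir θ0))
      linarith
    have h6 := sd_pos hε u (c.g.ψ.symm (bt t))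
    have h7 : (sd u (c.g.ψ.symm (bt t)) : ℝ) ≤ r := by
      refine le_of_mul_le_mul_left ?_ hε
      linarith
    exact_mod_cast h7
  · intro θ h1 h2
    have h3 := fr θ h1 h2
    refine ⟨by linarith, by linarith, ?_⟩
    intro v h4
    have h5 : ‖f (cir θ) - f (cir θ0)‖ ≤ ‖pos ε v - pos ε (c.g.ψ.symm (bt t))‖ + 4 * ε := by
      have e : f (cir θ) - f (cir θ0) = (pos ε v - pos ε (c.g.ψ.symm (bt t))) -
          (pos ε v - f (cir θ)) + (pos ε (c.g.ψ.symm (bt t)) - f (cir θ0)) := by ring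
      rw [e]
      refine (norm_add_le _ _).trans ?_
      have := norm_sub_le (pos ε v - pos ε (c.g.ψ.symm (bt t))) (pos ε v - f (cir θ))
      linarith
    have h6 := pos_sd hε v (c.g.ψ.symm (bt t))
    have h7 : (n : ℝ) ≤ (sd v (c.g.ψ.symm (bt t)) : ℝ) := by
      refine le_of_mul_le_mul_left ?_ hε
      linarith
    exact_mod_cast h7

/-- the arcs are connected in the lattice rectangle -/
def EV (A B : ℝ) (f : ℂ → ℂ) (ε θ1 θ2 θ3 θ4 : ℝ) (F : Finset Edg) : Prop :=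
  ∃ u v : Vtx, inR 0 ⌊A / ε⌋ 0 ⌊B / ε⌋ u ∧ inR 0 ⌊A / ε⌋ 0 ⌊B / ε⌋ v ∧
    (∃ θ, θ1 ≤ θ ∧ θ ≤ θ2 ∧ ‖pos ε u - f (cir θ)‖ ≤ 2 * ε) ∧
    (∃ θ, θ3 ≤ θ ∧ θ ≤ θ4 ∧ ‖pos ε v - f (cir θ)‖ ≤ 2 * ε) ∧ Reach (↑F) u v

/-- the relative size of an arc -/
noncomputable def ea (a d : ℝ) : ℝ := a / (a + d)

theorem ea_cmp {a d s c0 C : ℝ} (ha : 0 < a) (hd : 0 < d) (hs : 0 < s) (hs1 : s < 1)
    (hdpi : d ≤ Real.pi) (hc0 : 0 < c0) (hc1 : c0 ≤ 1) (hC : 0 < C) :
    (c0 * min d s < a → 1 ≤ (C * (2 * Real.pi / s) + 2 * Real.pi / (c0 * s)) * ea a d) ∧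
    (a ≤ c0 * min d s → C * (a / min d s) ≤
      (C * (2 * Real.pi / s) + 2 * Real.pi / (c0 * s)) * ea a d) := by
  have hpi := Real.pi_pos
  have hpi3 := Real.pi_gt_three
  have e0 : 0 < ea a d := by unfold ea; positivity
  have hmin : d * s / Real.pi ≤ min d s := by
    apply le_min
    · rw [div_le_iff₀ hpi]; nlinarith
    · rw [div_le_iff₀ hpi]; nlinarith
  have hm0 : 0 < min d s := lt_min hd hs
  constructor
  · intro h
    have h1 : c0 * (d * s / Real.pi) ≤ a := (mul_le_mul_of_nonneg_left hmin hc0.le).trans h.le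
    have h2 : 1 ≤ 2 * Real.pi / (c0 * s) * ea a d := by
      unfold ea
      rw [div_mul_div_comm, one_le_div (by positivity)]
      have h3 : c0 * d * s ≤ a * Real.pi := by
        have : c0 * (d * s / Real.pi) = c0 * d * s / Real.pi := by ring
        rw [this, div_le_iff₀ hpi] at h1
        exact h1
      have h4 : c0 * s ≤ Real.pi := by nlinarith
      nlinarith
    have h3 : 0 ≤ C * (2 * Real.pi / s) * ea a d := by positivity
    linarith [add_mul (C * (2 * Real.pi / s)) (2 * Real.pi / (c0 * s)) (ea a d)]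
  · intro h
    have had : a ≤ d := by
      have : min d s ≤ d := min_le_left _ _
      nlinarith
    have h1 : a / min d s ≤ (2 * Real.pi / s) * ea a d := by
      unfold ea
      rw [div_mul_div_comm, div_le_div_iff₀ hm0 (by positivity)]
      have h2 : d * s ≤ min d s * Real.pi := by rwa [div_le_iff₀ hpi] at hmin
      calc a * (s * (a + d)) ≤ a * (s * (2 * d)) := by
            apply mul_le_mul_of_nonneg_left _ ha.le
            apply mul_le_mul_of_nonneg_left _ hs.le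
            linarith
        _ = 2 * a * (d * s) := by ring
        _ ≤ 2 * a * (min d s * Real.pi) := mul_le_mul_of_nonneg_left h2 (by positivity)
        _ = _ := by ring
    have h2 : 0 ≤ 2 * Real.pi / (c0 * s) * ea a d := by positivity
    have h3 := mul_le_mul_of_nonneg_left h1 hC.le
    linarith [add_mul (C * (2 * Real.pi / s)) (2 * Real.pi / (c0 * s)) (ea a d),
      mul_assoc C (2 * Real.pi / s) (ea a d)]

end Pool.Agent.R966.RG
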