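import Pool.Agent.R966.RC.Up

/-!
Rectangles: the upper bound for the crossing probability between two boundary arcs.
-/

set_option autoImplicit false

namespace Pool.Agent.R966.RG

open Complex (I)
open Finset H974 Pool.Agent.H160R2.CV TH976 TH976.QC Pool.Agent.R966.RC
open Pool.Agent.H160R2.CV.Quad

theorem bq_Mf (hA : Pool.Agent.H389R2.CD.ArS) : ∃ C : ℝ, 1 ≤ C ∧ ∀ (t : ℤ) (r n : ℕ) (x : ℝ),
    1 ≤ r → r ≤ n → Mf t r / Mf t n ≤ x → bq (bt t) r n ≤ C * x ^ ((1 : ℝ) / 3) := by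
  obtain ⟨K, hK⟩ := ratio_cmp hA
  have hK1 : 1 ≤ K := (hK 0 1 1 le_rfl le_rfl).hk
  have k40 := k4_pos
  have k41 := k4_le
  have kd0 := kd_pos
  have kd1 := kd_le
  have hkk : 1 ≤ (k4 * kd)⁻¹ := by
    rw [inv_eq_one_div, le_div_iff₀ (by positivity), one_mul]
    calc k4 * kd ≤ 1 * 1 := mul_le_mul k41 kd1 kd0.le zero_le_one
      _ = 1 := by norm_num
  refine ⟨(k4 * kd)⁻¹ * K, by nlinarith, fun t r n x hr hrn hx => ?_⟩
  have h1 := bq_up (bt_in t) hr hrn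
  have h2 := (hK t r n hr (hr.trans hrn)).l
  have m1 : 0 < Mf t r := Mf_pos t (by exact_mod_cast hr)
  have m2 : 0 < Mf t n := Mf_pos t (by exact_mod_cast (hr.trans hrn))
  have h3 : (Mf t r / Mf t n) ^ ((1 : ℝ) / 3) ≤ x ^ ((1 : ℝ) / 3) :=
    Real.rpow_le_rpow (by positivity) hx (by norm_num)
  calc bq (bt t) r n ≤ (k4 * kd)⁻¹ * (aq (bt t) n / aq (bt t) r) := h1
    _ ≤ (k4 * kd)⁻¹ * (K * (Mf t r / Mf t n) ^ ((1 : ℝ) / 3)) :=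
        mul_le_mul_of_nonneg_left h2 (by positivity)
    _ ≤ (k4 * kd)⁻¹ * (K * x ^ ((1 : ℝ) / 3)) :=
        mul_le_mul_of_nonneg_left (mul_le_mul_of_nonneg_left h3 (by linarith)) (by positivity)
    _ = _ := by ring

/-- **upper bound** -/
theorem upper (hA : Pool.Agent.H389R2.CD.ArS) {A B : ℝ} {f g : ℂ → ℂ} {c : ℂ} {p0 p1 p2 p3 : ℝ}
    (h : SC A B f g c p0 p1 p2 p3) (hi : Set.InjOn f disc) : ∃ C : ℝ, 0 < C ∧
    ∀ ε θ1 θ2 θ3 θ4 : ℝ, 0 < ε → θ1 < θ2 → θ2 < θ3 → θ3 < θ4 → θ4 < θ1 + 2 * Real.pi →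
      ε ≤ ‖f (cir θ2) - f (cir θ1)‖ → ε ≤ ‖f (cir θ4) - f (cir θ3)‖ →
      Pr P (RE 0 ⌊A / ε⌋ 0 ⌊B / ε⌋) (EV A B f ε θ1 θ2 θ3 θ4) ≤
        C * (ea (θ2 - θ1) (min (θ3 - θ2) (θ1 + 2 * Real.pi - θ4)) *
          ea (θ4 - θ3) (min (θ3 - θ2) (θ1 + 2 * Real.pi - θ4))) ^ ((1 : ℝ) / 3) := by
  obtain ⟨s, κ, K, m, hs, hs1, hκ, hK, hm, -, -, hwin, hfar⟩ := loc h hi
  obtain ⟨c0, C, hc0, hc1, hC, hE⟩ := endp (f := f) (s := s) h.hA h.hB hκ hK hm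
  obtain ⟨Q, hQ, hbq⟩ := bq_Mf hA
  have hpi := Real.pi_pos
  obtain ⟨C1, hC1⟩ : ∃ C1, C1 = C * (2 * Real.pi / s) + 2 * Real.pi / (c0 * s) := ⟨_, rfl⟩
  have C10 : 0 < C1 := by rw [hC1]; positivity
  refine ⟨Q * Q * (C1 * C1) ^ ((1 : ℝ) / 3), by positivity, ?_⟩
  intro ε θ1 θ2 θ3 θ4 hε t1 t2 t3 t4 a1 a2
  obtain ⟨d, hd⟩ : ∃ d, d = min (θ3 - θ2) (θ1 + 2 * Real.pi - θ4) := ⟨_, rfl⟩
  have hd1 : d ≤ θ3 - θ2 := by rw [hd]; exact min_le_left _ _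
  have hd2 : d ≤ θ1 + 2 * Real.pi - θ4 := by rw [hd]; exact min_le_right _ _
  have hd0 : 0 < d := by rw [hd]; exact lt_min (by linarith) (by linarith)
  have hdpi : d ≤ Real.pi := by linarith
  rw [← hd]
  obtain ⟨a, ha⟩ : ∃ a, a = θ2 - θ1 := ⟨_, rfl⟩
  obtain ⟨b, hb⟩ : ∃ b, b = θ4 - θ3 := ⟨_, rfl⟩
  rw [← ha, ← hb]
  have ha0 : 0 < a := by linarith
  have hb0 : 0 < b := by linarith
  obtain ⟨d1, hd1'⟩ : ∃ d1, d1 = min d s := ⟨_, rfl⟩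
  have d1d : d1 ≤ d := by rw [hd1']; exact min_le_left _ _
  have d1s : d1 ≤ s := by rw [hd1']; exact min_le_right _ _
  obtain ⟨ia, ja⟩ := ea_cmp (C := C) ha0 hd0 hs hs1 hdpi hc0 hc1 hC
  obtain ⟨ib, jb⟩ := ea_cmp (C := C) hb0 hd0 hs hs1 hdpi hc0 hc1 hC
  rw [← hd1', ← hC1] at ia ja ib jb
  have ea0 : 0 < ea a d := by unfold ea; positivity
  have eb0 : 0 < ea b d := by unfold ea; positivity
  obtain ⟨X, hX⟩ : ∃ X, X = (C1 * ea a d) ^ ((1 : ℝ) / 3) := ⟨_, rfl⟩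
  obtain ⟨Y, hY⟩ : ∃ Y, Y = (C1 * ea b d) ^ ((1 : ℝ) / 3) := ⟨_, rfl⟩
  have X0 : 0 < X := by rw [hX]; positivity
  have Y0 : 0 < Y := by rw [hY]; positivity
  have hXY : Q * Q * (C1 * C1) ^ ((1 : ℝ) / 3) * (ea a d * ea b d) ^ ((1 : ℝ) / 3) =
      (Q * X) * (Q * Y) := by
    rw [hX, hY, Real.mul_rpow C10.le C10.le, Real.mul_rpow ea0.le eb0.le,
      Real.mul_rpow C10.le ea0.le, Real.mul_rpow C10.le eb0.le]
    ring
  rw [hXY]
  -- the four cases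
  have caseA : 1 ≤ Q * X ∨ ∃ (A' B' : ℝ) (c : Chart ⌊A / ε⌋ ⌊B / ε⌋ ⌊A' / ε⌋ ⌊B' / ε⌋) (t : ℤ)
      (r n : ℕ), r ≤ n ∧ bq (bt t) r n ≤ Q * X ∧
      ‖pos ε (c.g.ψ.symm (bt t)) - f (cir θ2)‖ ≤ 2 * ε ∧
      8 * (ε * n) ≤ ‖f (cir θ3) - f (cir θ2)‖ ∧ 56 * ε ≤ ‖f (cir θ3) - f (cir θ2)‖ ∧
      ∀ F, EV A B f ε θ1 θ2 θ3 θ4 F →
        CxR ⌊A / ε⌋ ⌊B / ε⌋ (c.g.ψ.symm (bt t)) r n F := by
    rcases lt_or_ge (c0 * d1) a with h1 | h1
    · left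
      have h2 := ia h1
      have h3 : 1 ≤ X := by
        rw [hX]
        exact Real.one_le_rpow h2 (by norm_num)
      exact one_le_mul_of_one_le_of_one_le hQ h3
    · right
      have h2 := ja h1
      obtain ⟨A', B', fk, τ, w⟩ := hwin θ2
      obtain ⟨c, t, r, n, r1, rn, hM, hp, hn, hf⟩ := hE θ2 a d1 ε A' B' fk τ w (hfar θ2) hε ha0 h1
        d1s ⟨θ1, by linarith, by linarith, by rwa [norm_sub_rev]⟩
      have f3 := hf θ3 (by linarith) (by linarith)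
      refine ⟨A', B', c, t, r, n, rn, ?_, hp, f3.1, f3.2.1, ?_⟩
      · rw [hX]
        exact hbq t r n _ r1 rn (hM.trans h2)
      · rintro F ⟨u, v, hu, hv, ⟨θu, u1, u2, u3⟩, ⟨θv, v1, v2, v3⟩, huv⟩
        exact ⟨u, v, hu, hn u θu (by linarith) (by linarith) u3,
          (hf θv (by linarith) (by linarith)).2.2 v v3, huv⟩
  have caseB : 1 ≤ Q * Y ∨ ∃ (A' B' : ℝ) (c : Chart ⌊A / ε⌋ ⌊B / ε⌋ ⌊A' / ε⌋ ⌊B' / ε⌋) (t : ℤ)
      (r n : ℕ), r ≤ n ∧ bq (bt t) r n ≤ Q * Y ∧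
      ‖pos ε (c.g.ψ.symm (bt t)) - f (cir θ3)‖ ≤ 2 * ε ∧
      8 * (ε * n) ≤ ‖f (cir θ3) - f (cir θ2)‖ ∧
      ∀ F, EV A B f ε θ1 θ2 θ3 θ4 F →
        CxR ⌊A / ε⌋ ⌊B / ε⌋ (c.g.ψ.symm (bt t)) r n F := by
    rcases lt_or_ge (c0 * d1) b with h1 | h1
    · left
      have h2 := ib h1
      have h3 : 1 ≤ Y := by
        rw [hY]
        exact Real.one_le_rpow h2 (by norm_num)
      exact one_le_mul_of_one_le_of_one_le hQ h3
    · right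
      have h2 := jb h1
      obtain ⟨A', B', fk, τ, w⟩ := hwin θ3
      obtain ⟨c, t, r, n, r1, rn, hM, hp, hn, hf⟩ := hE θ3 b d1 ε A' B' fk τ w (hfar θ3) hε hb0 h1
        d1s ⟨θ4, by linarith, by linarith, a2⟩
      have f2 := hf (θ2 + 2 * Real.pi) (by linarith) (by linarith)
      rw [cir_per, norm_sub_rev] at f2
      refine ⟨A', B', c, t, r, n, rn, ?_, hp, f2.1, ?_⟩
      · rw [hY]
        exact hbq t r n _ r1 rn (hM.trans h2)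
      · rintro F ⟨u, v, hu, hv, ⟨θu, u1, u2, u3⟩, ⟨θv, v1, v2, v3⟩, huv⟩
        refine ⟨v, u, hv, hn v θv (by linarith) (by linarith) v3, ?_, huv.symm⟩
        refine (hf (θu + 2 * Real.pi) (by linarith) (by linarith)).2.2 u ?_
        rw [cir_per]
        exact u3
  have qx : 0 < Q * X := by positivity
  have qy : 0 < Q * Y := by positivity
  rcases caseA with hA1 | ⟨A', B', c, t, r, n, rn, hb1, hp, hL, hL2, hev⟩
  · rcases caseB with hB1 | ⟨A'', B'', c', t', r', n', rn', hb1', hp', hL', hev'⟩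
    · exact (Pr_le_one okP _ _).trans (one_le_mul_of_one_le_of_one_le hA1 hB1)
    · have h1 := up_one c' (c'.g.ψ.symm (bt t')) rn' (A := EV A B f ε θ1 θ2 θ3 θ4)
        (fun F _ hF => hev' F hF)
      rw [Equiv.apply_symm_apply] at h1
      exact (h1.trans hb1').trans (le_mul_of_one_le_left qy.le hA1)
  · rcases caseB with hB1 | ⟨A'', B'', c', t', r', n', rn', hb1', hp', hL', hev'⟩
    · have h1 := up_one c (c.g.ψ.symm (bt t)) rn (A := EV A B f ε θ1 θ2 θ3 θ4)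
        (fun F _ hF => hev F hF)
      rw [Equiv.apply_symm_apply] at h1
      exact (h1.trans hb1).trans (le_mul_of_one_le_right qx.le hB1)
    · have hdis : n + n' < sd (c.g.ψ.symm (bt t)) (c'.g.ψ.symm (bt t')) := by
        have h5 : ‖f (cir θ3) - f (cir θ2)‖ ≤
            ‖pos ε (c.g.ψ.symm (bt t)) - pos ε (c'.g.ψ.symm (bt t'))‖ + 4 * ε := by
          have e : f (cir θ3) - f (cir θ2) =
              (pos ε (c.g.ψ.symm (bt t)) - f (cir θ2)) - (pos ε (c'.g.ψ.symm (bt t')) -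
              f (cir θ3)) - (pos ε (c.g.ψ.symm (bt t)) - pos ε (c'.g.ψ.symm (bt t'))) := by ring
          rw [e]
          refine (norm_sub_le _ _).trans ?_
          have := norm_sub_le (pos ε (c.g.ψ.symm (bt t)) - f (cir θ2))
            (pos ε (c'.g.ψ.symm (bt t')) - f (cir θ3))
          linarith
        have h6 := pos_sd hε (c.g.ψ.symm (bt t)) (c'.g.ψ.symm (bt t'))
        have h7 : ((n : ℝ) + n') < (sd (c.g.ψ.symm (bt t)) (c'.g.ψ.symm (bt t')) : ℝ) := by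
          refine lt_of_mul_lt_mul_left ?_ hε.le
          linarith
        exact_mod_cast h7
      have h1 := up_two c c' rn rn' hdis (A := EV A B f ε θ1 θ2 θ3 θ4)
        (fun F _ hF => ⟨hev F hF, hev' F hF⟩)
      rw [Equiv.apply_symm_apply, Equiv.apply_symm_apply] at h1
      exact h1.trans (mul_le_mul hb1 hb1' (bq_nonneg _ _ _) qx.le)

end Pool.Agent.R966.RG
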